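import Pool.Agent.Lib.P325P.Defs
import Pool.Agent.Lib.P325x.Defs
import Pool.Agent.Lib.P325h.Defs

/-!
Random elements of the fibers of a map, the tests built from a unique game, the coverage of a
family of sets, and certificates.
-/

open scoped BigOperators

namespace Pool.Agent.Lib.P47c

open Pool.Agent.Lib.P325P (mean)

/-- For a random `j`, `pick e j` is a random element of the fiber of `π` through `e`. -/
structure IsPick {ι B : Type} [Fintype ι] (π : ι → B) {W : ℕ} (pick : ι → Fin W → ι) : Prop where
  fiber : ∀ e j, π (pick e j) = π e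
  const : ∀ (h : ι → ℝ) (e e' : ι), π e = π e' →
    mean (fun j => h (pick e j)) = mean (fun j => h (pick e' j))
  stat : ∀ h : ι → ℝ, mean (fun e => mean (fun j => h (pick e j))) = mean h

/-- The type of the tests: an edge, `l` random choices of pairs of edges, and a random partition of
the labels into `l` classes. -/
abbrev Test (ι : Type) (W k l : ℕ) : Type := ι × (Fin l → Fin W × Fin W) × (ZMod k → Fin l)

/-- The edge `i` of a test: a random edge with the same left end as `t.1`. -/
def edge {ι : Type} {W l : ℕ} (pS : ι → Fin W → ι) (e : ι) (a : Fin l → Fin W × Fin W)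
    (i : Fin l) : ι := pS e (a i).1

/-- The position `i` of a test: a random edge with the same right end as the edge `i`. -/
def pos {ι : Type} {W l : ℕ} (pS pD : ι → Fin W → ι) (e : ι) (a : Fin l → Fin W × Fin W)
    (i : Fin l) : ι := pD (edge pS e a i) (a i).2

/-- The set of the pairs (position, label) that cover a test. -/
noncomputable def near {ι : Type} [Fintype ι] {W k l : ℕ} [NeZero k] (b : ι → ZMod k)
    (pS pD : ι → Fin W → ι) (t : Test ι W k l) : Finset (ι × ZMod k) := by
  classical
  exact Finset.univ.filter (fun p => ∃ i, pos pS pD t.1 t.2.1 i = p.1 ∧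
    t.2.2 (p.2 - b (edge pS t.1 t.2.1 i)) = i)

/-- The fraction of the sets `near j` that meet the graph of the labeling `y`. -/
noncomputable def cov {V Ω T : Type} [Fintype T] (near : T → Finset (V × Ω)) (y : V → Ω) : ℝ := by
  classical
  exact mean (fun j : T => if ∃ p ∈ near j, y p.1 = p.2 then 1 else 0)

/-- The fraction of the sets `near j` that are disjoint from `A`. -/
noncomputable def unc {V Ω T : Type} [Fintype T] (near : T → Finset (V × Ω))
    (A : Finset (V × Ω)) : ℝ := by
  classical
  exact mean (fun j : T => if Disjoint (near j) A then 1 else 0)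

/-- The relaxation with the set `Feas` of feasible points, in which the solution `z` is the point
`pt z`, certifies that `G` is at most `s`. -/
def Cert {Z Y : Type} [AddCommGroup Y] [Module ℝ Y] (Feas : Set Y) (pt : Z → Y) (G : Z → ℝ)
    (s : ℝ) : Prop :=
  ∃ (w : Y →ₗ[ℝ] ℝ) (w0 : ℝ), (∀ z, w (pt z) + w0 = G z) ∧ ∀ y ∈ Feas, w y + w0 ≤ s

end Pool.Agent.Lib.P47c
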