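import Pool.Agent.Lib.P325P.Base
import Pool.Agent.Lib.P47c.TDefs

/-!
Module Comp (1.5h; black box P325P.Base). Completeness of the tests and the pull back of a local expectation.
PROOF. Let Φ z e' = z (inr (dst e')), a map from labelings of Fin n ⊕ Fin n to labelings of ι. E' = E ∘ₗ
(LinearMap.funLeft ℝ ℝ Φ), so E' f = E (fun z => f (Φ z)). If f depends on D, then f ∘ Φ depends on
D.image (inr ∘ dst), a set of at most D.card vertices: E' is a local expectation of degree r.
For a test t with edges e_i = edge i let cov_t z = [∃ p ∈ near t, Φ z p.1 = p.2]. If all e_i are satisfied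
by z, let x = z (inl (src t.1)) and i = t.2.2 x; src e_i = src t.1 (hS.fiber), dst (pos i) = dst e_i (hD.fiber), so
(pos i, z (inr (dst e_i))) ∈ near t as z (inr (dst e_i)) - b e_i = x. Hence
f_t z = cov_t z - 1 + ∑ i, (1 - sat_{e_i} z) ≥ 0, sat_e z = [z (inl (src e)) + b e = z (inr (dst e))], and f_t depends
on the labels of the at most l + 1 vertices inl (src t.1), inr (dst e_i) only. So 0 ≤ E f_t, i.e.
E cov_t ≥ 1 - ∑ i, (1 - E sat_{e_i}) ≥ 1 - l (1 - s). cov ∘ Φ is the mean of the cov_t (unfold mean; E is linear).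
-/

open scoped BigOperators

namespace Pool.Agent.Lib.P47c

open Pool.Agent.Lib.P325P (mean)
open Pool.Agent.Lib.P325h (IsLocalExpectation)

namespace CompAux

theorem E_mean {Z X : Type} [Fintype X] (E : (Z → ℝ) →ₗ[ℝ] ℝ) (f : X → Z → ℝ) :
    E (fun z => mean (fun x => f x z)) = mean (fun x => E (f x)) := by
  unfold mean
  have h : (fun z => (∑ x, f x z) / (Fintype.card X : ℝ)) =
      ((Fintype.card X : ℝ)⁻¹) • ∑ x, f x := by
    funext z
    rw [Pi.smul_apply, Finset.sum_apply, smul_eq_mul, div_eq_inv_mul]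
  rw [h, map_smul, map_sum, smul_eq_mul, div_eq_inv_mul]

theorem mem_near {k W l : ℕ} [NeZero k] {ι : Type} [Fintype ι] (b : ι → ZMod k)
    (pS pD : ι → Fin W → ι) (t : Test ι W k l) (p : ι × ZMod k) :
    p ∈ near b pS pD t ↔ ∃ i, pos pS pD t.1 t.2.1 i = p.1 ∧
      t.2.2 (p.2 - b (edge pS t.1 t.2.1 i)) = i := by
  classical
  unfold near
  simp only [Finset.mem_filter, Finset.mem_univ, true_and]

open Classical in
/-- the indicator that the edge `e` is satisfied -/
noncomputable def sat {n k : ℕ} {ι : Type} (src dst : ι → Fin n) (b : ι → ZMod k) (e : ι)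
    (z : Fin n ⊕ Fin n → ZMod k) : ℝ :=
  if z (Sum.inl (src e)) + b e = z (Sum.inr (dst e)) then 1 else 0

theorem sat_le_one {n k : ℕ} {ι : Type} (src dst : ι → Fin n) (b : ι → ZMod k) (e : ι)
    (z : Fin n ⊕ Fin n → ZMod k) : sat src dst b e z ≤ 1 := by
  unfold sat
  split_ifs <;> norm_num

open Classical in
/-- the indicator that the test `t` is covered -/
noncomputable def gt {n k W l : ℕ} [NeZero k] {ι : Type} [Fintype ι] (dst : ι → Fin n)
    (b : ι → ZMod k) (pS pD : ι → Fin W → ι) (t : Test ι W k l)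
    (z : Fin n ⊕ Fin n → ZMod k) : ℝ :=
  if ∃ p ∈ near b pS pD t, z (Sum.inr (dst p.1)) = p.2 then 1 else 0

theorem gt_nonneg {n k W l : ℕ} [NeZero k] {ι : Type} [Fintype ι] (dst : ι → Fin n)
    (b : ι → ZMod k) (pS pD : ι → Fin W → ι) (t : Test ι W k l)
    (z : Fin n ⊕ Fin n → ZMod k) : 0 ≤ gt dst b pS pD t z := by
  unfold gt
  split_ifs <;> norm_num

theorem pointwise {n k W l : ℕ} [NeZero k] {ι : Type} [Fintype ι] (src dst : ι → Fin n)
    (b : ι → ZMod k) (pS pD : ι → Fin W → ι) (hS : ∀ e j, src (pS e j) = src e)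
    (hD : ∀ e j, dst (pD e j) = dst e) (t : Test ι W k l) (z : Fin n ⊕ Fin n → ZMod k) :
    0 ≤ gt dst b pS pD t z - 1 + ∑ i : Fin l, (1 - sat src dst b (edge pS t.1 t.2.1 i) z) := by
  classical
  have hnn : ∀ i ∈ (Finset.univ : Finset (Fin l)),
      0 ≤ 1 - sat src dst b (edge pS t.1 t.2.1 i) z := by
    intro i _
    have := sat_le_one src dst b (edge pS t.1 t.2.1 i) z
    linarith
  by_cases h : ∀ i, z (Sum.inl (src (edge pS t.1 t.2.1 i))) + b (edge pS t.1 t.2.1 i) =
      z (Sum.inr (dst (edge pS t.1 t.2.1 i)))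
  · have h1 : gt dst b pS pD t z = 1 := by
      unfold gt
      rw [if_pos]
      set x := z (Sum.inl (src t.1)) with hx
      set i := t.2.2 x with hi
      refine ⟨(pos pS pD t.1 t.2.1 i, z (Sum.inr (dst (pos pS pD t.1 t.2.1 i)))), ?_, rfl⟩
      rw [mem_near]
      refine ⟨i, rfl, ?_⟩
      have e1 : dst (pos pS pD t.1 t.2.1 i) = dst (edge pS t.1 t.2.1 i) := hD _ _
      have e2 : src (edge pS t.1 t.2.1 i) = src t.1 := hS _ _
      have e3 := h i
      rw [e2] at e3
      simp only
      rw [e1, ← e3, add_sub_cancel_right]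
    have h2 := Finset.sum_nonneg hnn
    linarith
  · push Not at h
    obtain ⟨i, hi⟩ := h
    have h1 : sat src dst b (edge pS t.1 t.2.1 i) z = 0 := by
      unfold sat
      rw [if_neg hi]
    have h2 := Finset.single_le_sum hnn (Finset.mem_univ i)
    have h3 := gt_nonneg dst b pS pD t z
    rw [h1] at h2
    linarith

end CompAux

theorem comp {n k W l r : ℕ} [NeZero k] (hW : 0 < W) (hl : 1 ≤ l) (hr : l + 1 ≤ r)
    {ι : Type} [Fintype ι] [Nonempty ι] (src dst : ι → Fin n) (b : ι → ZMod k)
    (pS pD : ι → Fin W → ι) (hS : IsPick src pS) (hD : IsPick dst pD) (s : ℝ)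
    (E : ((Fin n ⊕ Fin n → ZMod k) → ℝ) →ₗ[ℝ] ℝ) (hE : IsLocalExpectation r E)
    (hs : ∀ e, s ≤ E (fun z => if z (Sum.inl (src e)) + b e = z (Sum.inr (dst e)) then 1 else 0)) :
    ∃ E' : ((ι → ZMod k) → ℝ) →ₗ[ℝ] ℝ, IsLocalExpectation r E' ∧
      1 - l * (1 - s) ≤ E' (cov (T := Test ι W k l) (near b pS pD)) := by
  classical
  have hne : Nonempty (Test ι W k l) := by
    have : Nonempty (Fin W) := ⟨⟨0, hW⟩⟩
    have : Nonempty (Fin l) := ⟨⟨0, hl⟩⟩
    infer_instance
  set Φ : (Fin n ⊕ Fin n → ZMod k) → (ι → ZMod k) := fun z e' => z (Sum.inr (dst e')) with hΦ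
  refine ⟨E ∘ₗ LinearMap.funLeft ℝ ℝ Φ, ⟨?_, ?_⟩, ?_⟩
  · exact hE.one
  · intro f D hD hdep hpos
    refine hE.nonneg (fun z => f (Φ z)) (D.image (fun e' => Sum.inr (dst e')))
      (Finset.card_image_le.trans hD) ?_ (fun σ => hpos _)
    intro x y hxy
    refine hdep fun e' he' => ?_
    exact hxy _ (Finset.mem_coe.2 (Finset.mem_image.2 ⟨e', Finset.mem_coe.1 he', rfl⟩))
  · have e1 : (E ∘ₗ LinearMap.funLeft ℝ ℝ Φ) (cov (T := Test ι W k l) (near b pS pD)) =
        mean (fun t : Test ι W k l => E (CompAux.gt dst b pS pD t)) := by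
      rw [← CompAux.E_mean]
      change E (fun z => cov (T := Test ι W k l) (near b pS pD) (Φ z)) = _
      congr 1
      funext z
      unfold cov
      refine Pool.Agent.Lib.P325P.mean_congr fun t => ?_
      unfold CompAux.gt
      congr
    rw [e1]
    refine Pool.Agent.Lib.P325P.le_mean fun t => ?_
    have hf : 0 ≤ E (fun z => CompAux.gt dst b pS pD t z - 1 +
        ∑ i : Fin l, (1 - CompAux.sat src dst b (edge pS t.1 t.2.1 i) z)) := by
      refine hE.nonneg _ (insert (Sum.inl (src t.1))
        (Finset.univ.image (fun i : Fin l => Sum.inr (dst (edge pS t.1 t.2.1 i))))) ?_ ?_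
        (CompAux.pointwise src dst b pS pD hS.fiber hD.fiber t)
      · refine (Finset.card_insert_le _ _).trans (le_trans ?_ hr)
        have := Finset.card_image_le (s := (Finset.univ : Finset (Fin l)))
          (f := fun i : Fin l => (Sum.inr (dst (edge pS t.1 t.2.1 i)) : Fin n ⊕ Fin n))
        rw [Finset.card_univ, Fintype.card_fin] at this
        omega
      · intro x y hxy
        have hx0 : x (Sum.inl (src t.1)) = y (Sum.inl (src t.1)) :=
          hxy _ (Finset.mem_coe.2 (Finset.mem_insert_self _ _))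
        have hxi : ∀ i : Fin l, x (Sum.inr (dst (edge pS t.1 t.2.1 i))) =
            y (Sum.inr (dst (edge pS t.1 t.2.1 i))) := fun i =>
          hxy _ (Finset.mem_coe.2 (Finset.mem_insert_of_mem
            (Finset.mem_image.2 ⟨i, Finset.mem_univ _, rfl⟩)))
        have h1 : CompAux.gt dst b pS pD t x = CompAux.gt dst b pS pD t y := by
          unfold CompAux.gt
          have : (∃ p ∈ near b pS pD t, x (Sum.inr (dst p.1)) = p.2) ↔
              (∃ p ∈ near b pS pD t, y (Sum.inr (dst p.1)) = p.2) := by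
            refine exists_congr fun p => and_congr_right fun hp => ?_
            rw [CompAux.mem_near] at hp
            obtain ⟨i, hi, -⟩ := hp
            have e2 : dst p.1 = dst (edge pS t.1 t.2.1 i) := by
              rw [← hi]
              exact hD.fiber _ _
            rw [e2, hxi i]
          simp only [this]
        have h2 : ∀ i : Fin l, CompAux.sat src dst b (edge pS t.1 t.2.1 i) x =
            CompAux.sat src dst b (edge pS t.1 t.2.1 i) y := by
          intro i
          unfold CompAux.sat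
          have e2 : src (edge pS t.1 t.2.1 i) = src t.1 := hS.fiber _ _
          rw [e2, hx0, hxi i]
        simp only [h1, h2]
    have e2 : (fun z => CompAux.gt dst b pS pD t z - 1 +
        ∑ i : Fin l, (1 - CompAux.sat src dst b (edge pS t.1 t.2.1 i) z)) =
        CompAux.gt dst b pS pD t - (fun _ => (1 : ℝ)) +
          ∑ i : Fin l, ((fun _ => (1 : ℝ)) - CompAux.sat src dst b (edge pS t.1 t.2.1 i)) := by
      funext z
      simp only [Pi.add_apply, Pi.sub_apply, Finset.sum_apply]
    rw [e2, map_add, map_sub, map_sum, hE.one] at hf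
    have h3 : ∑ i : Fin l, E ((fun _ => (1 : ℝ)) -
        CompAux.sat src dst b (edge pS t.1 t.2.1 i)) ≤ l * (1 - s) := by
      have : ∀ i ∈ (Finset.univ : Finset (Fin l)), E ((fun _ => (1 : ℝ)) -
          CompAux.sat src dst b (edge pS t.1 t.2.1 i)) ≤ 1 - s := by
        intro i _
        rw [map_sub, hE.one]
        have h4 : s ≤ E (CompAux.sat src dst b (edge pS t.1 t.2.1 i)) := by
          have h5 : CompAux.sat src dst b (edge pS t.1 t.2.1 i) =
              (fun z => if z (Sum.inl (src (edge pS t.1 t.2.1 i))) + b (edge pS t.1 t.2.1 i) =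
                z (Sum.inr (dst (edge pS t.1 t.2.1 i))) then 1 else 0) := by
            funext z
            unfold CompAux.sat
            congr
          rw [h5]
          exact hs _
        linarith
      have h6 := Finset.sum_le_card_nsmul _ _ _ this
      rw [Finset.card_univ, Fintype.card_fin, nsmul_eq_mul] at h6
      exact h6
    linarith

end Pool.Agent.Lib.P47c
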