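import Pool.Agent.Lib.P325P.Base
import Pool.Agent.Lib.P47c.TDefs

/-!
Module Pick (1.5h; black box P325P.Base). Random elements of fibers.
PROOF. Let d(b) be the number of e with π e = b; for b in the range of π, 1 ≤ d(b) ≤ Δ, so d(b) divides
Δ.factorial (Nat.dvd_factorial). For b let eqv b : {e // π e = b} ≃ Fin (d b) (Fintype.equivFinOfCardEq)
and pick e j = ((eqv (π e)).symm ⟨j % d (π e), _⟩).1. fiber is clear. Claim: for π e = b,
∑ j : Fin W, h (pick e j) = (W / d) * ∑ e' with π e' = b, h e', W = Δ.factorial = d * q: the sum over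
Fin (d * q) of a function of j % d is q times the sum over Fin d (e.g. finProdFinEquiv : Fin q × Fin d ≃
Fin (q * d), which sends (x, y) to y + d * x, or Finset.sum over range and Nat.count; any way is fine).
Hence mean (fun j => h (pick e j)) = (∑ e' with π e' = π e, h e') / d (π e) =: K h e, which gives const.
stat: ∑ e, K h e = ∑ e ∑ e', [π e' = π e] h e' / d (π e) = ∑ e', h e' * ∑ e, [π e = π e'] / d (π e')
= ∑ e', h e' (the inner sum is 1).
-/

open scoped BigOperators

namespace Pool.Agent.Lib.P47c

open Pool.Agent.Lib.P325P (mean)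

namespace PickAux

/-- The sum over `range (d * q)` of a function of `j % d`. -/
theorem sum_range_mod (d : ℕ) (F : ℕ → ℝ) (q : ℕ) :
    ∑ j ∈ Finset.range (d * q), F (j % d) = (q : ℝ) * ∑ i ∈ Finset.range d, F i := by
  induction q with
  | zero => simp
  | succ q ih =>
    rw [Nat.mul_succ, Finset.sum_range_add, ih]
    have : ∑ x ∈ Finset.range d, F ((d * q + x) % d) = ∑ i ∈ Finset.range d, F i := by
      refine Finset.sum_congr rfl fun x hx => ?_
      rw [Nat.mul_add_mod, Nat.mod_eq_of_lt (Finset.mem_range.1 hx)]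
    rw [this]
    push_cast
    ring

/-- The mean over `Fin W`, `d ∣ W`, of a function of `j % d`. -/
theorem mean_mod {d W : ℕ} (hd : 0 < d) (hW : 0 < W) (hdW : d ∣ W) (G : Fin d → ℝ) :
    mean (fun j : Fin W => G ⟨j.val % d, Nat.mod_lt _ hd⟩) = (∑ i : Fin d, G i) / (d : ℝ) := by
  obtain ⟨q, rfl⟩ := hdW
  have hq : 0 < q := Nat.pos_of_mul_pos_left hW |> fun h => by
    rcases Nat.eq_zero_or_pos q with h0 | h0
    · subst h0; simp at hW
    · exact h0
  let F : ℕ → ℝ := fun i => if hi : i < d then G ⟨i, hi⟩ else 0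
  have h1 : ∀ j : Fin (d * q), G ⟨j.val % d, Nat.mod_lt _ hd⟩ = F (j.val % d) := by
    intro j
    simp [F, Nat.mod_lt _ hd]
  have h2 : ∑ j : Fin (d * q), G ⟨j.val % d, Nat.mod_lt _ hd⟩
      = (q : ℝ) * ∑ i ∈ Finset.range d, F i := by
    rw [Finset.sum_congr rfl fun j _ => h1 j, ← sum_range_mod d F q,
      Fin.sum_univ_eq_sum_range (fun j => F (j % d)) (d * q)]
  have h3 : ∑ i ∈ Finset.range d, F i = ∑ i : Fin d, G i := by
    rw [← Fin.sum_univ_eq_sum_range F d]
    refine Finset.sum_congr rfl fun i _ => ?_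
    simp [F]
  unfold mean
  rw [h2, h3, Fintype.card_fin]
  push_cast
  have hd' : (d : ℝ) ≠ 0 := by exact_mod_cast hd.ne'
  have hq' : (q : ℝ) ≠ 0 := by exact_mod_cast hq.ne'
  field_simp

end PickAux

theorem exists_pick {ι B : Type} [Fintype ι] [DecidableEq B] (π : ι → B) (Δ : ℕ)
    (hΔ : ∀ b, (Finset.univ.filter (fun e => π e = b)).card ≤ Δ) :
    ∃ pick : ι → Fin Δ.factorial → ι, IsPick π pick := by
  classical
  -- the size of the fibers
  have hne : ∀ e : ι, 0 < Fintype.card {x // π x = π e} := fun e =>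
    Fintype.card_pos_iff.2 ⟨⟨e, rfl⟩⟩
  have hle : ∀ e : ι, Fintype.card {x // π x = π e} ≤ Δ := fun e => by
    rw [Fintype.card_subtype]
    exact hΔ (π e)
  let pick : ι → Fin Δ.factorial → ι := fun e j =>
    ((Fintype.equivFin {x // π x = π e}).symm ⟨j.val % Fintype.card {x // π x = π e},
      Nat.mod_lt _ (hne e)⟩).1
  have key : ∀ (h : ι → ℝ) (e : ι), mean (fun j => h (pick e j))
      = (∑ x ∈ Finset.univ.filter (fun x => π x = π e), h x)
        / ((Finset.univ.filter (fun x => π x = π e)).card : ℝ) := by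
    intro h e
    have h1 := PickAux.mean_mod (hne e) (Nat.factorial_pos Δ)
      (Nat.dvd_factorial (hne e) (hle e))
      (fun i => h ((Fintype.equivFin {x // π x = π e}).symm i).1)
    have h2 : ∑ i, h ((Fintype.equivFin {x // π x = π e}).symm i).1
        = ∑ x : {x // π x = π e}, h x.1 :=
      Equiv.sum_comp (Fintype.equivFin {x // π x = π e}).symm (fun x => h x.1)
    have h3 : ∑ x : {x // π x = π e}, h x.1
        = ∑ x ∈ Finset.univ.filter (fun x => π x = π e), h x := by
      rw [← Finset.sum_subtype_eq_sum_filter]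
      simp
    have h4 : (Fintype.card {x // π x = π e} : ℝ)
        = ((Finset.univ.filter (fun x => π x = π e)).card : ℝ) := by
      rw [Fintype.card_subtype]
    rw [h2, h3, h4] at h1
    exact h1
  refine ⟨pick, ⟨fun e j => ?_, fun h e e' hee => ?_, fun h => ?_⟩⟩
  · exact ((Fintype.equivFin {x // π x = π e}).symm _).2
  · rw [key h e, key h e', hee]
  · have h0 : mean (fun e => mean (fun j => h (pick e j)))
        = mean (fun e => (∑ x ∈ Finset.univ.filter (fun x => π x = π e), h x)
        / ((Finset.univ.filter (fun x => π x = π e)).card : ℝ)) :=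
      Pool.Agent.Lib.P325P.mean_congr fun e => key h e
    rw [h0]
    unfold mean
    congr 1
    have h1 : ∀ e : ι, (∑ x ∈ Finset.univ.filter (fun x => π x = π e), h x)
        / ((Finset.univ.filter (fun x => π x = π e)).card : ℝ)
        = ∑ x, if π e = π x then h x / ((Finset.univ.filter (fun y => π y = π x)).card : ℝ)
          else 0 := by
      intro e
      rw [Finset.sum_div, Finset.sum_filter]
      refine Finset.sum_congr rfl fun x _ => ?_
      by_cases hx : π x = π e
      · rw [if_pos hx, if_pos hx.symm, hx]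
      · rw [if_neg hx, if_neg (fun h' => hx h'.symm)]
    rw [Finset.sum_congr rfl fun e _ => h1 e, Finset.sum_comm]
    refine Finset.sum_congr rfl fun x _ => ?_
    rw [← Finset.sum_filter, Finset.sum_const, nsmul_eq_mul]
    have hpos : 0 < (Finset.univ.filter (fun y => π y = π x)).card :=
      Finset.card_pos.2 ⟨x, by simp⟩
    have hpos' : ((Finset.univ.filter (fun y => π y = π x)).card : ℝ) ≠ 0 := by
      exact_mod_cast hpos.ne'
    field_simp

end Pool.Agent.Lib.P47c
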