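import Pool.Agent.Lib.P325P.Base
import Pool.Agent.Lib.P325x.Defs
import Pool.Agent.Lib.P325x.Round

/-!
Module Frac (1h; black box P325P.Base). Fractional labelings do not beat the value of a unique game.
PROOF. best: for every b choose x b that maximises H b a = ∑ e with π e = b, h e a (Finite.exists_max).
Grouping by fibers (Finset.sum_fiberwise), ∑ e ∑ a, q (π e) a * h e a = ∑ b ∑ a, q b a * H b a ≤
∑ b, H b (x b) * ∑ a, q b a ≤ ∑ b, H b (x b) = ∑ e, h e (x (π e)) (H b (x b) ≥ 0, masses ≤ 1).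
frac: best with π = src and h e a = p (dst e) (a + b e) gives x with ∑ ≤ ∑ e, p (dst e) (x (src e) + b e)
= ∑ e ∑ c, p (dst e) c * [x (src e) + b e = c]; best with π = dst gives y with
≤ ∑ e, [x (src e) + b e = y (dst e)] = card ι * satFrac x y ≤ card ι * value. If ι is empty both sides of
the claim are 0 (mean over the empty type is 0 / 0 = 0; value = ⨆ of satFrac = 0/0 = 0, ≥ 0).
See P325P/EsSat.lean (satFrac as a sum) and P325x/Round.lean (satFrac_le_value).
-/

open scoped BigOperators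

namespace Pool.Agent.Lib.P47c

open Pool.Agent.Lib.P325P (mean)
open Pool.Agent.Lib.P325x (Game)

theorem best {ι B Ω : Type} [Fintype ι] [Fintype B] [DecidableEq B] [Fintype Ω] [Nonempty Ω]
    (π : ι → B) (q : B → Ω → ℝ) (hq0 : ∀ b a, 0 ≤ q b a) (hq1 : ∀ b, ∑ a, q b a ≤ 1)
    (h : ι → Ω → ℝ) (hh : ∀ e a, 0 ≤ h e a) :
    ∃ x : B → Ω, ∑ e, ∑ a, q (π e) a * h e a ≤ ∑ e, h e (x (π e)) := by
  classical
  have h1 : ∀ b, ∃ j : Ω, ∀ i, (∑ e with π e = b, h e i) ≤ ∑ e with π e = b, h e j := fun b =>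
    Finite.exists_max (fun i => ∑ e with π e = b, h e i)
  choose x hx using h1
  refine ⟨x, ?_⟩
  rw [← Finset.sum_fiberwise (Finset.univ : Finset ι) π (fun e => ∑ a, q (π e) a * h e a),
    ← Finset.sum_fiberwise (Finset.univ : Finset ι) π (fun e => h e (x (π e)))]
  refine Finset.sum_le_sum fun b _ => ?_
  have e1 : ∑ e with π e = b, ∑ i, q (π e) i * h e i = ∑ i, q b i * ∑ e with π e = b, h e i := by
    rw [Finset.sum_comm]
    refine Finset.sum_congr rfl fun i _ => ?_
    rw [Finset.mul_sum]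
    refine Finset.sum_congr rfl fun e he => ?_
    rw [(Finset.mem_filter.1 he).2]
  have e2 : ∑ e with π e = b, h e (x (π e)) = ∑ e with π e = b, h e (x b) :=
    Finset.sum_congr rfl fun e he => by rw [(Finset.mem_filter.1 he).2]
  rw [e1, e2]
  have h0 : 0 ≤ ∑ e with π e = b, h e (x b) := Finset.sum_nonneg fun e _ => hh e _
  calc ∑ i, q b i * ∑ e with π e = b, h e i ≤ ∑ i, q b i * ∑ e with π e = b, h e (x b) :=
        Finset.sum_le_sum fun i _ => mul_le_mul_of_nonneg_left (hx b i) (hq0 b i)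
    _ = (∑ i, q b i) * ∑ e with π e = b, h e (x b) := by rw [← Finset.sum_mul]
    _ ≤ 1 * ∑ e with π e = b, h e (x b) := mul_le_mul_of_nonneg_right (hq1 b) h0
    _ = _ := one_mul _

theorem frac {n k : ℕ} [NeZero k] {ι : Type} [Fintype ι] (src dst : ι → Fin n) (b : ι → ZMod k)
    (q p : Fin n → ZMod k → ℝ) (hq0 : ∀ u x, 0 ≤ q u x) (hq1 : ∀ u, ∑ x, q u x ≤ 1)
    (hp0 : ∀ u x, 0 ≤ p u x) (hp1 : ∀ u, ∑ x, p u x ≤ 1) :
    mean (fun e => ∑ x, q (src e) x * p (dst e) (x + b e)) ≤
      (Game.mk src dst (fun e => Equiv.addRight (b e))).value := by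
  classical
  obtain ⟨x, hx⟩ := best src q hq0 hq1 (fun e a => p (dst e) (a + b e)) (fun e a => hp0 _ _)
  obtain ⟨y, hy⟩ := best dst p hp0 hp1
    (fun e c => if x (src e) + b e = c then (1 : ℝ) else 0) (fun e c => by positivity)
  refine le_trans ?_ (Pool.Agent.Lib.P325x.satFrac_le_value
    (Game.mk src dst (fun e => Equiv.addRight (b e))) x y)
  have h3 : (Game.mk src dst (fun e => Equiv.addRight (b e))).satFrac x y =
      (∑ e, (if x (src e) + b e = y (dst e) then (1 : ℝ) else 0)) /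
        (Fintype.card ι : ℝ) := by
    unfold Game.satFrac
    rw [Finset.sum_boole]
    congr 3
    exact Finset.filter_congr_decidable _ _ _
  rw [h3]
  unfold mean
  refine div_le_div_of_nonneg_right (le_trans hx (le_trans (le_of_eq ?_) hy)) (Nat.cast_nonneg _)
  refine Finset.sum_congr rfl fun e _ => ?_
  simp

end Pool.Agent.Lib.P47c
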