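import Pool.Agent.Lib.P325P.Base

/-!
Module MeanPi (1h; black box P325P.Base). Means over product spaces.
PROOF. mean_pi: Finset.prod_univ_sum (or Fintype.sum_prod...) and Fintype.card_fun / card_pi:
(∑ a, ∏ i, h i (a i)) = ∏ i, ∑ j, h i j, and the denominator is card J ^ card I = ∏ i, card J.
mean_one, mean_two: mean_pi with h = 1 at the other coordinates (Function.update or if).
jensen: exp x ≥ exp c * (1 + x - c) for c = mean of - g (Real.add_one_le_exp), take means.
-/

open scoped BigOperators

namespace Pool.Agent.Lib.P47c

open Pool.Agent.Lib.P325P (mean)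

theorem mean_pi {I J : Type} [Fintype I] [DecidableEq I] [Fintype J] (h : I → J → ℝ) :
    mean (fun a : I → J => ∏ i, h i (a i)) = ∏ i, mean (h i) := by
  unfold Pool.Agent.Lib.P325P.mean
  rw [Finset.prod_div_distrib, Finset.prod_univ_sum, Fintype.piFinset_univ]
  congr 1
  rw [Finset.prod_const, Finset.card_univ, Fintype.card_fun]
  push_cast
  rfl

theorem mean_one {I J : Type} [Fintype I] [DecidableEq I] [Fintype J] [Nonempty J] (i : I)
    (φ : J → ℝ) : mean (fun a : I → J => φ (a i)) = mean φ := by
  have h := mean_pi (fun (k : I) (y : J) => if k = i then φ y else 1)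
  have h1 : (fun a : I → J => ∏ k, (fun (k : I) (y : J) => if k = i then φ y else 1) k (a k)) =
      fun a : I → J => φ (a i) := by
    funext a
    simp
  rw [h1] at h
  rw [h]
  have h2 : ∀ k : I, mean ((fun (k : I) (y : J) => if k = i then φ y else 1) k) =
      if k = i then mean φ else 1 := by
    intro k
    by_cases hk : k = i
    · simp [hk]
    · simp only [hk, if_false]
      exact Pool.Agent.Lib.P325P.mean_const 1
  rw [Finset.prod_congr rfl fun k _ => h2 k]
  simp

theorem mean_two {I J : Type} [Fintype I] [DecidableEq I] [Fintype J] [Nonempty J] (i j : I)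
    (hij : i ≠ j) (φ ψ : J → ℝ) :
    mean (fun a : I → J => φ (a i) * ψ (a j)) = mean φ * mean ψ := by
  have h := mean_pi (fun (k : I) (y : J) => (if k = i then φ y else 1) * (if k = j then ψ y else 1))
  have h1 : (fun a : I → J => ∏ k, (fun (k : I) (y : J) =>
      (if k = i then φ y else 1) * (if k = j then ψ y else 1)) k (a k)) =
      fun a : I → J => φ (a i) * ψ (a j) := by
    funext a
    show (∏ k, (if k = i then φ (a k) else 1) * (if k = j then ψ (a k) else 1)) = _
    rw [Finset.prod_mul_distrib]
    simp
  rw [h1] at h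
  rw [h]
  have h2 : ∀ k : I, mean ((fun (k : I) (y : J) =>
      (if k = i then φ y else 1) * (if k = j then ψ y else 1)) k) =
      (if k = i then mean φ else 1) * (if k = j then mean ψ else 1) := by
    intro k
    by_cases hk : k = i
    · subst hk
      simp [hij]
    · by_cases hj : k = j
      · subst hj
        simp [hk]
      · simp only [hk, hj, if_false, mul_one]
        exact Pool.Agent.Lib.P325P.mean_const 1
  rw [Finset.prod_congr rfl fun k _ => h2 k, Finset.prod_mul_distrib]
  simp

theorem jensen {X : Type} [Fintype X] [Nonempty X] (g : X → ℝ) :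
    Real.exp (-mean g) ≤ mean (fun x => Real.exp (-g x)) := by
  have h1 : ∀ x, Real.exp (-mean g) * (1 + (mean g - g x)) ≤ Real.exp (-g x) := by
    intro x
    have h := Real.add_one_le_exp (mean g - g x)
    have h2 : Real.exp (-g x) = Real.exp (-mean g) * Real.exp (mean g - g x) := by
      rw [← Real.exp_add]
      congr 1
      ring
    rw [h2]
    exact mul_le_mul_of_nonneg_left (by linarith) (Real.exp_pos _).le
  have h3 := Pool.Agent.Lib.P325P.mean_mono h1
  refine le_trans (le_of_eq ?_) h3
  rw [Pool.Agent.Lib.P325P.mean_mul_left, Pool.Agent.Lib.P325P.mean_add,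
    Pool.Agent.Lib.P325P.mean_sub, Pool.Agent.Lib.P325P.mean_const,
    Pool.Agent.Lib.P325P.mean_const]
  ring

end Pool.Agent.Lib.P47c
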