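import Pool.Agent.Lib.P325P.Base
import Pool.Agent.Lib.P47c.TDefs
import Pool.Agent.Lib.P47c.MeanPi
import Pool.Agent.Lib.P47c.Frac

/-!
Module Coll (1.5h; black boxes P325P.Base, MeanPi, Frac). Collisions of short lists of labels at two positions of a test.
SETUP. For e1' : ι and c : ZMod k let φ c e1' = 1 if (e1', c) ∈ A and (row A e1').card ≤ M, else 0, where
row A e1' = {c : (e1', c) ∈ A}; so ∑ c, φ c e1' ≤ M.
PROOF. Let g x (e1, e1') = φ (x + b e1) e1'. For i ≠ j the function of a in the claim is
∑ x, g x (edge i, pos i) * g x (edge j, pos j), and by mean_two (coordinates i, j of a) its mean over a is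
∑ x, G e x * G e x, G e x = mean over (p, q) : Fin W × Fin W of φ (x + b (pS e p)) (pD (pS e p) q).
Let P e1 c = mean over q of φ c (pD e1 q): by hD.const it depends on dst e1 only, so there is
p : Fin n → ZMod k → ℝ with p (dst e1) c = P e1 c / M for all e1 (value 0 outside of the range of dst),
p ≥ 0 and ∑ c, p w c ≤ 1 (if M = 0 then φ = 0 and everything is 0; treat M = 0 separately or use P / M with
M = 0 giving 0 and P = 0). G e x = mean over p' of M * p (dst (pS e p')) (x + b (pS e p')), and by hS.const it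
depends on src e only: G e x = M * q (src e) x with q ≥ 0 and ∑ x, q u x ≤ 1 (mean of sums ≤ 1;
∑ x, p w (x + b) = ∑ c, p w c by Equiv.sum_comp (Equiv.addRight b)). Then
mean over e of ∑ x, G e x * G e x = mean over e of mean over p' of
∑ x, M * q (src (pS e p')) x * M * p (dst (pS e p')) (x + b (pS e p')) (hS.fiber) = M ^ 2 * mean over e of
∑ x, q (src e) x * p (dst e) (x + b e) (hS.stat) ≤ M ^ 2 * value ≤ M ^ 2 * δ (frac).
-/

open scoped BigOperators

namespace Pool.Agent.Lib.P47c

open Pool.Agent.Lib.P325P (mean)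
open Pool.Agent.Lib.P325x (Game)

/-- The labels `c` with `(e, c) ∈ A`. -/
noncomputable def row {ι Ω : Type} [Fintype Ω] (A : Finset (ι × Ω)) (e : ι) : Finset Ω := by
  classical
  exact Finset.univ.filter (fun c => (e, c) ∈ A)

namespace CollAux

section

variable {ι : Type} [Fintype ι] {k : ℕ} [NeZero k]

/-- the indicator of a label of a short list -/
noncomputable def ph (M : ℕ) (A : Finset (ι × ZMod k)) (c : ZMod k) (e : ι) : ℝ :=
  if c ∈ row A e ∧ (row A e).card ≤ M then (1 : ℝ) else 0

theorem ph_nonneg (M : ℕ) (A : Finset (ι × ZMod k)) (c : ZMod k) (e : ι) : 0 ≤ ph M A c e := by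
  unfold ph
  split_ifs <;> norm_num

theorem ph_sum (M : ℕ) (A : Finset (ι × ZMod k)) (e : ι) : ∑ c, ph M A c e ≤ M := by
  classical
  unfold ph
  by_cases h : (row A e).card ≤ M
  · simp only [h, and_true]
    rw [Finset.sum_boole]
    simp only [Finset.filter_mem_eq_inter, Finset.univ_inter]
    exact_mod_cast h
  · simp only [h, and_false, if_false, Finset.sum_const_zero]
    exact Nat.cast_nonneg _

/-- the value of a function at a representative of the fiber -/
theorem descend {B : Type} (π : ι → B) (h : ι → ZMod k → ℝ)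
    (hc : ∀ e e' x, π e = π e' → h e x = h e' x) (h0 : ∀ e x, 0 ≤ h e x)
    (h1 : ∀ e, ∑ x, h e x ≤ 1) :
    ∃ q : B → ZMod k → ℝ, (∀ u x, 0 ≤ q u x) ∧ (∀ u, ∑ x, q u x ≤ 1) ∧
      ∀ e x, q (π e) x = h e x := by
  classical
  refine ⟨fun u x => if hu : ∃ e, π e = u then h hu.choose x else 0, ?_, ?_, ?_⟩
  · intro u x
    by_cases hu : ∃ e, π e = u
    · simp only [hu, dite_true]
      exact h0 _ _
    · simp only [hu, dite_false]
      exact le_refl _
  · intro u
    by_cases hu : ∃ e, π e = u
    · simp only [hu, dite_true]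
      exact h1 _
    · simp only [hu, dite_false, Finset.sum_const_zero]
      norm_num
  · intro e x
    have hu : ∃ e', π e' = π e := ⟨e, rfl⟩
    simp only [hu, dite_true]
    exact hc _ _ _ hu.choose_spec

end

end CollAux

open CollAux in
theorem coll {n k W l M : ℕ} [NeZero k] (hW : 0 < W) {ι : Type} [Fintype ι] [Nonempty ι]
    (src dst : ι → Fin n) (b : ι → ZMod k) (δ : ℝ)
    (hval : (Game.mk src dst (fun e => Equiv.addRight (b e))).value ≤ δ)
    (pS pD : ι → Fin W → ι) (hS : IsPick src pS) (hD : IsPick dst pD)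
    (A : Finset (ι × ZMod k)) (i j : Fin l) (hij : i ≠ j) :
    mean (fun e : ι => mean (fun a : Fin l → Fin W × Fin W => ∑ x : ZMod k,
      (if x + b (edge pS e a i) ∈ row A (pos pS pD e a i) ∧
          (row A (pos pS pD e a i)).card ≤ M then (1 : ℝ) else 0) *
        (if x + b (edge pS e a j) ∈ row A (pos pS pD e a j) ∧
          (row A (pos pS pD e a j)).card ≤ M then (1 : ℝ) else 0))) ≤ (M : ℝ) ^ 2 * δ := by
  classical
  haveI : Nonempty (Fin W) := ⟨⟨0, hW⟩⟩
  rcases Nat.eq_zero_or_pos M with hM | hM
  · subst hM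
    have hz : ∀ (c : ZMod k) (e : ι),
        (if c ∈ row A e ∧ (row A e).card ≤ 0 then (1 : ℝ) else 0) = 0 := by
      intro c e
      rw [if_neg]
      rintro ⟨h1, h2⟩
      rw [Nat.le_zero, Finset.card_eq_zero] at h2
      rw [h2] at h1
      simp at h1
    simp only [hz, mul_zero, Finset.sum_const_zero, Pool.Agent.Lib.P325P.mean_const]
    norm_num
  have hM' : (0 : ℝ) < M := by exact_mod_cast hM
  -- the distribution at the right ends
  obtain ⟨p, hp0, hp1, hp⟩ := descend (B := Fin n) dst
    (fun e c => mean (fun q : Fin W => ph M A c (pD e q)) / M)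
    (by
      intro e e' x h
      rw [hD.const (fun e1 => ph M A x e1) e e' h])
    (by
      intro e x
      exact div_nonneg (Pool.Agent.Lib.P325P.mean_nonneg fun q => ph_nonneg _ _ _ _) hM'.le)
    (by
      intro e
      rw [← Finset.sum_div, div_le_one hM', ← Pool.Agent.Lib.P325P.mean_sum]
      exact Pool.Agent.Lib.P325P.mean_le fun q => ph_sum _ _ _)
  -- the distribution at the left ends
  obtain ⟨q, hq0, hq1, hq⟩ := descend (B := Fin n) src
    (fun e x => mean (fun r : Fin W => p (dst (pS e r)) (x + b (pS e r))))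
    (by
      intro e e' x h
      rw [hS.const (fun e1 => p (dst e1) (x + b e1)) e e' h])
    (by
      intro e x
      exact Pool.Agent.Lib.P325P.mean_nonneg fun r => hp0 _ _)
    (by
      intro e
      rw [← Pool.Agent.Lib.P325P.mean_sum]
      refine Pool.Agent.Lib.P325P.mean_le fun r => ?_
      have hs := Equiv.sum_comp (Equiv.addRight (b (pS e r))) (fun x => p (dst (pS e r)) x)
      simp only [Equiv.coe_addRight] at hs
      rw [hs]
      exact hp1 _)
  have hG : ∀ (e : ι) (x : ZMod k),
      mean (fun s : Fin W × Fin W => ph M A (x + b (pS e s.1)) (pD (pS e s.1) s.2)) =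
        M * q (src e) x := by
    intro e x
    rw [Pool.Agent.Lib.P325P.mean_prod, hq, ← Pool.Agent.Lib.P325P.mean_mul_left]
    refine Pool.Agent.Lib.P325P.mean_congr fun r => ?_
    rw [hp]
    field_simp
  have hin : ∀ e : ι, mean (fun a : Fin l → Fin W × Fin W => ∑ x : ZMod k,
      (if x + b (edge pS e a i) ∈ row A (pos pS pD e a i) ∧
          (row A (pos pS pD e a i)).card ≤ M then (1 : ℝ) else 0) *
        (if x + b (edge pS e a j) ∈ row A (pos pS pD e a j) ∧
          (row A (pos pS pD e a j)).card ≤ M then (1 : ℝ) else 0)) =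
      (M : ℝ) ^ 2 * mean (fun r : Fin W => ∑ x, q (src (pS e r)) x *
        p (dst (pS e r)) (x + b (pS e r))) := by
    intro e
    rw [Pool.Agent.Lib.P325P.mean_sum, Pool.Agent.Lib.P325P.mean_sum, Finset.mul_sum]
    refine Finset.sum_congr rfl fun x _ => ?_
    have h1 := mean_two i j hij
      (fun s : Fin W × Fin W => ph M A (x + b (pS e s.1)) (pD (pS e s.1) s.2))
      (fun s : Fin W × Fin W => ph M A (x + b (pS e s.1)) (pD (pS e s.1) s.2))
    rw [hG] at h1
    refine Eq.trans h1 ?_
    have h2 : mean (fun r : Fin W => q (src (pS e r)) x * p (dst (pS e r)) (x + b (pS e r))) =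
        q (src e) x * q (src e) x := by
      rw [show (fun r : Fin W => q (src (pS e r)) x * p (dst (pS e r)) (x + b (pS e r))) =
        (fun r : Fin W => q (src e) x * p (dst (pS e r)) (x + b (pS e r))) from
        funext fun r => by rw [hS.fiber], Pool.Agent.Lib.P325P.mean_mul_left, ← hq]
    rw [h2]
    ring
  rw [Pool.Agent.Lib.P325P.mean_congr hin, Pool.Agent.Lib.P325P.mean_mul_left,
    hS.stat (fun e => ∑ x, q (src e) x * p (dst e) (x + b e))]
  refine mul_le_mul_of_nonneg_left ?_ (by positivity)
  exact (frac src dst b q p hq0 hq1 hp0 hp1).trans hval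

end Pool.Agent.Lib.P47c
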