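import Pool.Agent.Lib.P325P.Base
import Pool.Agent.Lib.P47c.MeanPi

/-!
Module MissY (1h; black boxes P325P.Base, MeanPi). The probability that a random partition of the labels misses the sets `B i`.
PROOF. Let u = 1 - 1/l, 0 ≤ u ≤ 1. If some (B i).card > M, then u ^ (∑ i, (B i).card) ≤ u ^ M
(pow_le_pow_of_le_one) and the claim follows since the double sum and the mean are ≥ 0. Assume that all
(B i).card ≤ M. If x ∈ B i and x ∈ B j for some i ≠ j, then the double sum is ≥ 1 and
u ^ (..) ≤ 1, so the left side is ≤ 0. Otherwise every x is in at most one B i. The event is: for all x, Y x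
is not in I x = {i : x ∈ B i}; its indicator is ∏ x, (if x ∈ B (Y x) then 0 else 1) and by mean_pi its
mean is ∏ x, (1 - (I x).card / l) = ∏ x, u ^ (I x).card (card 0 or 1) = u ^ (∑ x, (I x).card) and
∑ x, (I x).card = ∑ i, (B i).card (double counting, Finset.sum_comm on indicators).
-/

open scoped BigOperators

namespace Pool.Agent.Lib.P47c

open Pool.Agent.Lib.P325P (mean)

theorem missY {Ω : Type} [Fintype Ω] [DecidableEq Ω] (l M : ℕ) (hl : 1 ≤ l)
    (B : Fin l → Finset Ω) :
    (1 - 1 / (l : ℝ)) ^ (∑ i, (B i).card) - (1 - 1 / (l : ℝ)) ^ M -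
      ∑ i, ∑ j ∈ Finset.univ.erase i, ∑ x : Ω,
        (if x ∈ B i ∧ (B i).card ≤ M then (1 : ℝ) else 0) *
          (if x ∈ B j ∧ (B j).card ≤ M then (1 : ℝ) else 0) ≤
    mean (fun Y : Ω → Fin l => if ∀ i, ∀ x ∈ B i, Y x ≠ i then (1 : ℝ) else 0) := by
  have hl' : (1 : ℝ) ≤ (l : ℝ) := by exact_mod_cast hl
  have hl0 : (l : ℝ) ≠ 0 := by positivity
  generalize hu : (1 - 1 / (l : ℝ)) = u
  have hu0 : 0 ≤ u := by
    rw [← hu, sub_nonneg, div_le_one (by linarith)]
    exact hl'
  have hu1 : u ≤ 1 := by
    have : 0 ≤ 1 / (l : ℝ) := by positivity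
    rw [← hu]
    linarith
  have hmean : 0 ≤ mean (fun Y : Ω → Fin l => if ∀ i, ∀ x ∈ B i, Y x ≠ i then (1 : ℝ) else 0) :=
    Pool.Agent.Lib.P325P.mean_nonneg fun Y => by split_ifs <;> norm_num
  have hterm : ∀ i j x, 0 ≤ (if x ∈ B i ∧ (B i).card ≤ M then (1 : ℝ) else 0) *
          (if x ∈ B j ∧ (B j).card ≤ M then (1 : ℝ) else 0) := by
    intro i j x
    apply mul_nonneg <;> split_ifs <;> norm_num
  have hsum : 0 ≤ ∑ i, ∑ j ∈ Finset.univ.erase i, ∑ x : Ω,
        (if x ∈ B i ∧ (B i).card ≤ M then (1 : ℝ) else 0) *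
          (if x ∈ B j ∧ (B j).card ≤ M then (1 : ℝ) else 0) :=
    Finset.sum_nonneg fun i _ => Finset.sum_nonneg fun j _ => Finset.sum_nonneg fun x _ =>
      hterm i j x
  have huM : 0 ≤ u ^ M := pow_nonneg hu0 _
  by_cases hM : ∃ i, M < (B i).card
  · obtain ⟨i, hi⟩ := hM
    have h1 : (B i).card ≤ ∑ i, (B i).card :=
      Finset.single_le_sum (f := fun i => (B i).card) (fun _ _ => Nat.zero_le _)
        (Finset.mem_univ i)
    have : u ^ (∑ i, (B i).card) ≤ u ^ M := pow_le_pow_of_le_one hu0 hu1 (hi.le.trans h1)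
    linarith
  · push Not at hM
    by_cases hx : ∃ x i j, i ≠ j ∧ x ∈ B i ∧ x ∈ B j
    · obtain ⟨x, i, j, hij, hxi, hxj⟩ := hx
      have h1 : (1 : ℝ) ≤ ∑ i, ∑ j ∈ Finset.univ.erase i, ∑ x : Ω,
          (if x ∈ B i ∧ (B i).card ≤ M then (1 : ℝ) else 0) *
            (if x ∈ B j ∧ (B j).card ≤ M then (1 : ℝ) else 0) := by
        have e1 : (1 : ℝ) = (if x ∈ B i ∧ (B i).card ≤ M then (1 : ℝ) else 0) *
            (if x ∈ B j ∧ (B j).card ≤ M then (1 : ℝ) else 0) := by
          rw [if_pos ⟨hxi, hM i⟩, if_pos ⟨hxj, hM j⟩, one_mul]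
        have e2 := Finset.single_le_sum (f := fun x =>
          (if x ∈ B i ∧ (B i).card ≤ M then (1 : ℝ) else 0) *
            (if x ∈ B j ∧ (B j).card ≤ M then (1 : ℝ) else 0)) (fun x _ => hterm i j x)
            (Finset.mem_univ x)
        have e3 := Finset.single_le_sum (f := fun j => ∑ x : Ω,
          (if x ∈ B i ∧ (B i).card ≤ M then (1 : ℝ) else 0) *
            (if x ∈ B j ∧ (B j).card ≤ M then (1 : ℝ) else 0))
            (fun j _ => Finset.sum_nonneg fun x _ => hterm i j x)
            (Finset.mem_erase.2 ⟨hij.symm, Finset.mem_univ j⟩)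
        have e4 := Finset.single_le_sum (f := fun i => ∑ j ∈ Finset.univ.erase i, ∑ x : Ω,
          (if x ∈ B i ∧ (B i).card ≤ M then (1 : ℝ) else 0) *
            (if x ∈ B j ∧ (B j).card ≤ M then (1 : ℝ) else 0))
            (fun i _ => Finset.sum_nonneg fun j _ => Finset.sum_nonneg fun x _ => hterm i j x)
            (Finset.mem_univ i)
        exact (e1.le.trans e2).trans (e3.trans e4)
      have h2 : u ^ (∑ i, (B i).card) ≤ 1 := pow_le_one₀ hu0 hu1
      linarith
    · push Not at hx
      have hfun : ∀ Y : Ω → Fin l, (if ∀ i, ∀ x ∈ B i, Y x ≠ i then (1 : ℝ) else 0) =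
          ∏ x, (if x ∈ B (Y x) then (0 : ℝ) else 1) := by
        intro Y
        by_cases h : ∀ i, ∀ x ∈ B i, Y x ≠ i
        · rw [if_pos h]
          symm
          apply Finset.prod_eq_one
          intro x _
          rw [if_neg fun h' => h (Y x) x h' rfl]
        · rw [if_neg h]
          push Not at h
          obtain ⟨i, x, hxi, hY⟩ := h
          symm
          apply Finset.prod_eq_zero (Finset.mem_univ x)
          rw [hY, if_pos hxi]
      have hone : ∀ x, mean (fun j : Fin l => if x ∈ B j then (0 : ℝ) else 1) =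
          u ^ (∑ i, if x ∈ B i then 1 else 0) := by
        intro x
        by_cases h : ∃ i, x ∈ B i
        · obtain ⟨i, hi⟩ := h
          have huniq : ∀ j, x ∈ B j ↔ j = i := by
            intro j
            constructor
            · intro hj
              by_contra hne
              exact hx x j i hne hj hi
            · rintro rfl
              exact hi
          simp only [huniq]
          rw [Finset.sum_ite_eq' Finset.univ i, if_pos (Finset.mem_univ i), pow_one, ← hu]
          unfold Pool.Agent.Lib.P325P.mean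
          have e1 : ∑ j : Fin l, (if j = i then (0 : ℝ) else 1) = (l : ℝ) - 1 := by
            have : ∀ j : Fin l, (if j = i then (0 : ℝ) else 1) = 1 - (if j = i then (1 : ℝ) else 0) := by
              intro j
              split_ifs <;> norm_num
            simp only [this]
            rw [Finset.sum_sub_distrib, Finset.sum_ite_eq' Finset.univ i,
              if_pos (Finset.mem_univ i)]
            simp
          rw [e1, Fintype.card_fin]
          field_simp
        · push Not at h
          have : ∀ j, (x ∈ B j) = False := fun j => eq_false (h j)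
          simp only [this, if_false, Finset.sum_const_zero, pow_zero]
          have : Nonempty (Fin l) := ⟨⟨0, hl⟩⟩
          exact Pool.Agent.Lib.P325P.mean_const 1
      have hcount : ∑ i, (B i).card = ∑ x : Ω, ∑ i, if x ∈ B i then 1 else 0 := by
        rw [Finset.sum_comm]
        apply Finset.sum_congr rfl
        intro i _
        rw [Finset.sum_ite_mem, Finset.univ_inter, Finset.sum_const, smul_eq_mul, mul_one]
      have hkey : mean (fun Y : Ω → Fin l => if ∀ i, ∀ x ∈ B i, Y x ≠ i then (1 : ℝ) else 0) =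
          u ^ (∑ i, (B i).card) := by
        rw [Pool.Agent.Lib.P325P.mean_congr hfun,
          mean_pi (fun (x : Ω) (j : Fin l) => if x ∈ B j then (0 : ℝ) else 1),
          Finset.prod_congr rfl fun x _ => hone x, Finset.prod_pow_eq_pow_sum, hcount]
      rw [hkey]
      linarith

end Pool.Agent.Lib.P47c
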