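import Pool.Agent.Lib.P325P.Base
import Pool.Agent.Lib.P47c.TDefs
import Pool.Agent.Lib.P47c.MeanPi
import Pool.Agent.Lib.P47c.MissY
import Pool.Agent.Lib.P47c.Coll

/-!
Module Sound (2h; black boxes P325P.Base, MeanPi, MissY, Coll). Soundness of the tests.
PROOF. unc is a mean over e, a, Y (mean_prod twice). For fixed e, a let B i = {x : x + b (edge i) ∈ row A (pos i)};
(B i).card = (row A (pos i)).card (Equiv.addRight). near t is disjoint from A iff for all i and x ∈ B i,
Y x ≠ i (an element (pos i, c) ∈ A of near t with Y (c - b (edge i)) = i gives x = c - b (edge i) ∈ B i,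
Y x = i, and conversely). missY bounds the mean over Y from below by u ^ N - u ^ M - S, u = 1 - 1/l,
N = ∑ i, (row A (pos i)).card, S the double sum. The mean over e, a of S is ≤ ∑ i, ∑ j ≠ i, M ^ 2 * δ
≤ l ^ 2 * (M ^ 2 * δ) (coll; mean_sum). Write u ^ N = exp (- (c N)) with c = - log u (l ≥ 2, so u > 0); jensen over the
product space ι × (Fin l → Fin W × Fin W): mean of u ^ N ≥ exp (- c * mean N), and mean N = ∑ i, mean of
(row A (pos i)).card = l * β with β = A.card / card ι, because the mean over e, a of h (pos pS pD e a i) is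
mean h: mean_one reduces it to the mean over e, p, q of h (pD (pS e p) q), then mean_prod, hS.stat (applied to
e1 ↦ mean over q of h (pD e1 q)) and hD.stat. And ∑ e, (row A e).card = A.card. c ≤ 1/(l-1)
(Real.one_sub_inv_le_log_of_pos: log u ≥ 1 - 1/u = -1/(l-1)), so c l β ≤ β + β/(l-1) and
exp (-(β + t)) ≥ exp (-β) (1 - t) ≥ exp (-β) - 1/(l-1) with t = β/(l-1), as β exp (-β) ≤ 1.
-/

open scoped BigOperators

namespace Pool.Agent.Lib.P47c

open Pool.Agent.Lib.P325P (mean)
open Pool.Agent.Lib.P325x (Game)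

namespace SoundAux

section

variable {ι : Type} [Fintype ι] {W k l : ℕ} [NeZero k]

/-- the labels of the position `i` of a test, moved to the left end of the edge `i` -/
noncomputable def lab (b : ι → ZMod k) (pS pD : ι → Fin W → ι) (A : Finset (ι × ZMod k)) (e : ι)
    (a : Fin l → Fin W × Fin W) (i : Fin l) : Finset (ZMod k) := by
  classical
  exact Finset.univ.filter (fun x => x + b (edge pS e a i) ∈ row A (pos pS pD e a i))

omit [Fintype ι] in
theorem mem_lab (b : ι → ZMod k) (pS pD : ι → Fin W → ι) (A : Finset (ι × ZMod k)) (e : ι)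
    (a : Fin l → Fin W × Fin W) (i : Fin l) (x : ZMod k) :
    x ∈ lab b pS pD A e a i ↔ x + b (edge pS e a i) ∈ row A (pos pS pD e a i) := by
  classical
  unfold lab
  simp only [Finset.mem_filter, Finset.mem_univ, true_and]

omit [Fintype ι] in
theorem card_lab (b : ι → ZMod k) (pS pD : ι → Fin W → ι) (A : Finset (ι × ZMod k)) (e : ι)
    (a : Fin l → Fin W × Fin W) (i : Fin l) :
    (lab b pS pD A e a i).card = (row A (pos pS pD e a i)).card := by
  classical
  refine Finset.card_nbij' (fun x => x + b (edge pS e a i)) (fun x => x - b (edge pS e a i))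
    ?_ ?_ ?_ ?_
  · intro x hx
    exact (mem_lab b pS pD A e a i x).1 hx
  · intro x hx
    have : x - b (edge pS e a i) ∈ lab b pS pD A e a i := by
      rw [mem_lab, sub_add_cancel]
      exact hx
    exact this
  · intro x _
    simp
  · intro x _
    simp

omit [Fintype ι] in
theorem mem_row (A : Finset (ι × ZMod k)) (e : ι) (c : ZMod k) : c ∈ row A e ↔ (e, c) ∈ A := by
  classical
  unfold row
  simp only [Finset.mem_filter, Finset.mem_univ, true_and]

theorem disj_iff (b : ι → ZMod k) (pS pD : ι → Fin W → ι) (A : Finset (ι × ZMod k)) (e : ι)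
    (a : Fin l → Fin W × Fin W) (Y : ZMod k → Fin l) :
    Disjoint (near b pS pD ((e, (a, Y)) : Test ι W k l)) A ↔
      ∀ i, ∀ x ∈ lab b pS pD A e a i, Y x ≠ i := by
  classical
  have hn : ∀ p, p ∈ near b pS pD ((e, (a, Y)) : Test ι W k l) ↔
      ∃ i, pos pS pD e a i = p.1 ∧ Y (p.2 - b (edge pS e a i)) = i := by
    intro p
    unfold near
    simp only [Finset.mem_filter, Finset.mem_univ, true_and]
  rw [Finset.disjoint_left]
  constructor
  · intro h i x hx hY
    rw [mem_lab, mem_row] at hx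
    refine h ((hn _).2 ⟨i, rfl, ?_⟩) hx
    simp only [add_sub_cancel_right]
    exact hY
  · intro h p hp hA
    obtain ⟨i, h1, h2⟩ := (hn p).1 hp
    refine h i (p.2 - b (edge pS e a i)) ?_ h2
    rw [mem_lab, mem_row, sub_add_cancel, h1]
    exact hA

theorem sum_row (A : Finset (ι × ZMod k)) : ∑ e, ((row A e).card : ℝ) = A.card := by
  classical
  have h1 : ∀ e, ((row A e).card : ℝ) = ∑ c : ZMod k, if (e, c) ∈ A then (1 : ℝ) else 0 := by
    intro e
    rw [Finset.sum_boole]
    congr 2
    ext c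
    simp only [mem_row, Finset.mem_filter, Finset.mem_univ, true_and]
  rw [Finset.sum_congr rfl fun e _ => h1 e,
    ← Fintype.sum_prod_type (f := fun p : ι × ZMod k => if p ∈ A then (1 : ℝ) else 0),
    Finset.sum_boole]
  simp only [Finset.filter_mem_eq_inter, Finset.univ_inter]

/-- the mean of a function of the position `i` -/
theorem mean_pos [Nonempty ι] (hW : 0 < W) {n : ℕ} (src dst : ι → Fin n) (pS pD : ι → Fin W → ι)
    (hS : IsPick src pS) (hD : IsPick dst pD) (i : Fin l) (h : ι → ℝ) :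
    mean (fun e : ι => mean (fun a : Fin l → Fin W × Fin W => h (pos pS pD e a i))) = mean h := by
  have : Nonempty (Fin W) := ⟨⟨0, hW⟩⟩
  have h1 : ∀ e : ι, mean (fun a : Fin l → Fin W × Fin W => h (pos pS pD e a i)) =
      mean (fun p : Fin W => mean (fun q : Fin W => h (pD (pS e p) q))) := by
    intro e
    refine Eq.trans (mean_one i (fun s : Fin W × Fin W => h (pD (pS e s.1) s.2))) ?_
    rw [Pool.Agent.Lib.P325P.mean_prod]
  rw [Pool.Agent.Lib.P325P.mean_congr h1,
    hS.stat (fun e1 => mean (fun q : Fin W => h (pD e1 q))), hD.stat h]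

theorem numeric (l : ℕ) (hl : 2 ≤ l) (β : ℝ) (hβ : 0 ≤ β) :
    Real.exp (-β) - 1 / ((l : ℝ) - 1) ≤
      Real.exp (-((-Real.log (1 - 1 / (l : ℝ))) * (l * β))) := by
  have hl2 : (2 : ℝ) ≤ l := by exact_mod_cast hl
  have hl0 : (0 : ℝ) < l := by linarith
  have hl1 : (0 : ℝ) < (l : ℝ) - 1 := by linarith
  have hu : (0 : ℝ) < 1 - 1 / (l : ℝ) := by
    rw [sub_pos, div_lt_one hl0]
    linarith
  have hlog := Real.one_sub_inv_le_log_of_pos hu
  have huinv : (1 - 1 / (l : ℝ))⁻¹ = l / ((l : ℝ) - 1) := by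
    field_simp
  have hc : -Real.log (1 - 1 / (l : ℝ)) ≤ 1 / ((l : ℝ) - 1) := by
    rw [huinv] at hlog
    have : (l : ℝ) / ((l : ℝ) - 1) = 1 + 1 / ((l : ℝ) - 1) := by
      field_simp
      ring
    rw [this] at hlog
    linarith
  have h1 : (-Real.log (1 - 1 / (l : ℝ))) * (l * β) ≤ β + β / ((l : ℝ) - 1) := by
    have h2 : (-Real.log (1 - 1 / (l : ℝ))) * (l * β) ≤ 1 / ((l : ℝ) - 1) * (l * β) :=
      mul_le_mul_of_nonneg_right hc (mul_nonneg hl0.le hβ)
    have h3 : 1 / ((l : ℝ) - 1) * (l * β) = β + β / ((l : ℝ) - 1) := by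
      field_simp
      ring
    linarith
  have h4 : Real.exp (-(β + β / ((l : ℝ) - 1))) ≤
      Real.exp (-((-Real.log (1 - 1 / (l : ℝ))) * (l * β))) :=
    Real.exp_le_exp.2 (by linarith)
  refine le_trans ?_ h4
  have h5 : Real.exp (-(β + β / ((l : ℝ) - 1))) =
      Real.exp (-β) * Real.exp (-(β / ((l : ℝ) - 1))) := by
    rw [← Real.exp_add]
    congr 1
    ring
  rw [h5]
  have h6 : 1 - β / ((l : ℝ) - 1) ≤ Real.exp (-(β / ((l : ℝ) - 1))) := by
    have := Real.add_one_le_exp (-(β / ((l : ℝ) - 1)))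
    linarith
  have h7 : Real.exp (-β) * (1 - β / ((l : ℝ) - 1)) ≤
      Real.exp (-β) * Real.exp (-(β / ((l : ℝ) - 1))) :=
    mul_le_mul_of_nonneg_left h6 (Real.exp_pos _).le
  refine le_trans ?_ h7
  have h8 : Real.exp (-β) * β ≤ 1 := by
    have h9 : β ≤ Real.exp β := by
      have := Real.add_one_le_exp β
      linarith
    calc Real.exp (-β) * β ≤ Real.exp (-β) * Real.exp β :=
          mul_le_mul_of_nonneg_left h9 (Real.exp_pos _).le
      _ = 1 := by rw [← Real.exp_add]; simp
  have h10 : Real.exp (-β) * (1 - β / ((l : ℝ) - 1)) =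
      Real.exp (-β) - Real.exp (-β) * β / ((l : ℝ) - 1) := by
    ring
  rw [h10]
  have h11 : Real.exp (-β) * β / ((l : ℝ) - 1) ≤ 1 / ((l : ℝ) - 1) :=
    div_le_div_of_nonneg_right h8 hl1.le
  linarith

end

end SoundAux

open SoundAux in
theorem sound {n k W l : ℕ} [NeZero k] (M : ℕ) (hW : 0 < W) (hl : 2 ≤ l)
    {ι : Type} [Fintype ι] [Nonempty ι] (src dst : ι → Fin n) (b : ι → ZMod k) (δ : ℝ) (hδ : 0 ≤ δ)
    (hval : (Game.mk src dst (fun e => Equiv.addRight (b e))).value ≤ δ)
    (pS pD : ι → Fin W → ι) (hS : IsPick src pS) (hD : IsPick dst pD)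
    (A : Finset (ι × ZMod k)) :
    Real.exp (-((A.card : ℝ) / Fintype.card ι)) - 1 / ((l : ℝ) - 1) - (1 - 1 / (l : ℝ)) ^ M -
      (l : ℝ) ^ 2 * ((M : ℝ) ^ 2 * δ) ≤ unc (T := Test ι W k l) (near b pS pD) A := by
  classical
  have : Nonempty (Fin W) := ⟨⟨0, hW⟩⟩
  have : Nonempty (Fin l) := ⟨⟨0, by omega⟩⟩
  have hl2 : (2 : ℝ) ≤ l := by exact_mod_cast hl
  have hl0 : (0 : ℝ) < l := by linarith
  have hu : (0 : ℝ) < 1 - 1 / (l : ℝ) := by
    rw [sub_pos, div_lt_one hl0]
    linarith
  -- the mean over the tests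
  have hunc : unc (T := Test ι W k l) (near b pS pD) A =
      mean (fun e : ι => mean (fun a : Fin l → Fin W × Fin W =>
        mean (fun Y : ZMod k → Fin l =>
          if ∀ i, ∀ x ∈ lab b pS pD A e a i, Y x ≠ i then (1 : ℝ) else 0))) := by
    unfold unc
    rw [Pool.Agent.Lib.P325P.mean_prod]
    refine Pool.Agent.Lib.P325P.mean_congr fun e => ?_
    rw [Pool.Agent.Lib.P325P.mean_prod]
    refine Pool.Agent.Lib.P325P.mean_congr fun a => ?_
    refine Pool.Agent.Lib.P325P.mean_congr fun Y => ?_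
    by_cases h : Disjoint (near b pS pD ((e, (a, Y)) : Test ι W k l)) A
    · rw [if_pos h, if_pos ((disj_iff b pS pD A e a Y).1 h)]
    · rw [if_neg h, if_neg fun h' => h ((disj_iff b pS pD A e a Y).2 h')]
  -- the three parts of the lower bound
  have hlow : ∀ (e : ι) (a : Fin l → Fin W × Fin W),
      (1 - 1 / (l : ℝ)) ^ (∑ i, (row A (pos pS pD e a i)).card) - (1 - 1 / (l : ℝ)) ^ M -
        ∑ i, ∑ j ∈ Finset.univ.erase i, ∑ x : ZMod k,
          (if x + b (edge pS e a i) ∈ row A (pos pS pD e a i) ∧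
            (row A (pos pS pD e a i)).card ≤ M then (1 : ℝ) else 0) *
          (if x + b (edge pS e a j) ∈ row A (pos pS pD e a j) ∧
            (row A (pos pS pD e a j)).card ≤ M then (1 : ℝ) else 0) ≤
      mean (fun Y : ZMod k → Fin l =>
        if ∀ i, ∀ x ∈ lab b pS pD A e a i, Y x ≠ i then (1 : ℝ) else 0) := by
    intro e a
    have h := missY (Ω := ZMod k) l M (by omega) (fun i => lab b pS pD A e a i)
    simp only [card_lab, mem_lab] at h
    have h' : (fun Y : ZMod k → Fin l =>
        if ∀ i, ∀ x ∈ lab b pS pD A e a i, Y x ≠ i then (1 : ℝ) else 0) =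
        (fun Y : ZMod k → Fin l =>
        if ∀ i x, x + b (edge pS e a i) ∈ row A (pos pS pD e a i) → Y x ≠ i
          then (1 : ℝ) else 0) := by
      funext Y
      exact if_congr (by simp only [mem_lab]) rfl rfl
    rw [h']
    exact h
  -- the collisions
  have hcoll : mean (fun e : ι => mean (fun a : Fin l → Fin W × Fin W =>
      ∑ i, ∑ j ∈ Finset.univ.erase i, ∑ x : ZMod k,
          (if x + b (edge pS e a i) ∈ row A (pos pS pD e a i) ∧
            (row A (pos pS pD e a i)).card ≤ M then (1 : ℝ) else 0) *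
          (if x + b (edge pS e a j) ∈ row A (pos pS pD e a j) ∧
            (row A (pos pS pD e a j)).card ≤ M then (1 : ℝ) else 0))) ≤
      (l : ℝ) ^ 2 * ((M : ℝ) ^ 2 * δ) := by
    have h1 : ∀ e : ι, mean (fun a : Fin l → Fin W × Fin W =>
        ∑ i, ∑ j ∈ Finset.univ.erase i, ∑ x : ZMod k,
          (if x + b (edge pS e a i) ∈ row A (pos pS pD e a i) ∧
            (row A (pos pS pD e a i)).card ≤ M then (1 : ℝ) else 0) *
          (if x + b (edge pS e a j) ∈ row A (pos pS pD e a j) ∧
            (row A (pos pS pD e a j)).card ≤ M then (1 : ℝ) else 0)) =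
        ∑ i, ∑ j ∈ Finset.univ.erase i, mean (fun a : Fin l → Fin W × Fin W => ∑ x : ZMod k,
          (if x + b (edge pS e a i) ∈ row A (pos pS pD e a i) ∧
            (row A (pos pS pD e a i)).card ≤ M then (1 : ℝ) else 0) *
          (if x + b (edge pS e a j) ∈ row A (pos pS pD e a j) ∧
            (row A (pos pS pD e a j)).card ≤ M then (1 : ℝ) else 0)) := by
      intro e
      rw [Pool.Agent.Lib.P325P.mean_sum]
      refine Finset.sum_congr rfl fun i _ => ?_
      rw [Pool.Agent.Lib.P325P.mean_sum]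
    rw [Pool.Agent.Lib.P325P.mean_congr h1, Pool.Agent.Lib.P325P.mean_sum]
    have h2 : ∀ i ∈ (Finset.univ : Finset (Fin l)), mean (fun e : ι =>
        ∑ j ∈ Finset.univ.erase i, mean (fun a : Fin l → Fin W × Fin W => ∑ x : ZMod k,
          (if x + b (edge pS e a i) ∈ row A (pos pS pD e a i) ∧
            (row A (pos pS pD e a i)).card ≤ M then (1 : ℝ) else 0) *
          (if x + b (edge pS e a j) ∈ row A (pos pS pD e a j) ∧
            (row A (pos pS pD e a j)).card ≤ M then (1 : ℝ) else 0))) ≤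
        (l : ℝ) * ((M : ℝ) ^ 2 * δ) := by
      intro i _
      rw [Pool.Agent.Lib.P325P.mean_sum]
      have h3 : ∀ j ∈ (Finset.univ : Finset (Fin l)).erase i, mean (fun e : ι =>
          mean (fun a : Fin l → Fin W × Fin W => ∑ x : ZMod k,
          (if x + b (edge pS e a i) ∈ row A (pos pS pD e a i) ∧
            (row A (pos pS pD e a i)).card ≤ M then (1 : ℝ) else 0) *
          (if x + b (edge pS e a j) ∈ row A (pos pS pD e a j) ∧
            (row A (pos pS pD e a j)).card ≤ M then (1 : ℝ) else 0))) ≤ (M : ℝ) ^ 2 * δ := by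
        intro j hj
        exact coll hW src dst b δ hval pS pD hS hD A i j (Finset.ne_of_mem_erase hj).symm
      refine (Finset.sum_le_sum h3).trans ?_
      rw [Finset.sum_const, nsmul_eq_mul]
      refine mul_le_mul_of_nonneg_right ?_ (by positivity)
      have h4 : ((Finset.univ : Finset (Fin l)).erase i).card ≤ l := by
        refine (Finset.card_erase_le).trans ?_
        simp
      exact_mod_cast h4
    refine (Finset.sum_le_sum h2).trans ?_
    rw [Finset.sum_const, nsmul_eq_mul, Finset.card_univ, Fintype.card_fin]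
    apply le_of_eq
    ring
  -- the main term
  set β : ℝ := (A.card : ℝ) / Fintype.card ι with hβ
  have hβ0 : 0 ≤ β := by positivity
  set c : ℝ := -Real.log (1 - 1 / (l : ℝ)) with hc
  have hmain : Real.exp (-(c * (l * β))) ≤
      mean (fun e : ι => mean (fun a : Fin l → Fin W × Fin W =>
        (1 - 1 / (l : ℝ)) ^ (∑ i, (row A (pos pS pD e a i)).card))) := by
    have hj := jensen (X := ι × (Fin l → Fin W × Fin W))
      (fun s => c * ∑ i, ((row A (pos pS pD s.1 s.2 i)).card : ℝ))
    have hm : mean (fun s : ι × (Fin l → Fin W × Fin W) =>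
        c * ∑ i, ((row A (pos pS pD s.1 s.2 i)).card : ℝ)) = c * (l * β) := by
      rw [Pool.Agent.Lib.P325P.mean_mul_left, Pool.Agent.Lib.P325P.mean_sum]
      congr 1
      have h1 : ∀ i ∈ (Finset.univ : Finset (Fin l)),
          mean (fun s : ι × (Fin l → Fin W × Fin W) =>
            ((row A (pos pS pD s.1 s.2 i)).card : ℝ)) = β := by
        intro i _
        rw [Pool.Agent.Lib.P325P.mean_prod]
        refine Eq.trans (mean_pos hW src dst pS pD hS hD i
          (fun e => ((row A e).card : ℝ))) ?_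
        unfold mean
        rw [sum_row]
      rw [Finset.sum_congr rfl h1, Finset.sum_const, nsmul_eq_mul, Finset.card_univ,
        Fintype.card_fin]
    rw [hm] at hj
    refine hj.trans ?_
    rw [Pool.Agent.Lib.P325P.mean_prod]
    refine Pool.Agent.Lib.P325P.mean_mono fun e => ?_
    refine Pool.Agent.Lib.P325P.mean_mono fun a => ?_
    apply le_of_eq
    have h2 : (1 - 1 / (l : ℝ)) = Real.exp (-c) := by
      rw [hc, neg_neg, Real.exp_log hu]
    rw [h2, ← Real.exp_nat_mul]
    congr 1
    push_cast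
    ring
  have hnum := numeric l hl β hβ0
  rw [← hc] at hnum
  -- put together
  have hfin : mean (fun e : ι => mean (fun a : Fin l → Fin W × Fin W =>
        (1 - 1 / (l : ℝ)) ^ (∑ i, (row A (pos pS pD e a i)).card))) - (1 - 1 / (l : ℝ)) ^ M -
      mean (fun e : ι => mean (fun a : Fin l → Fin W × Fin W =>
      ∑ i, ∑ j ∈ Finset.univ.erase i, ∑ x : ZMod k,
          (if x + b (edge pS e a i) ∈ row A (pos pS pD e a i) ∧
            (row A (pos pS pD e a i)).card ≤ M then (1 : ℝ) else 0) *
          (if x + b (edge pS e a j) ∈ row A (pos pS pD e a j) ∧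
            (row A (pos pS pD e a j)).card ≤ M then (1 : ℝ) else 0))) ≤
      unc (T := Test ι W k l) (near b pS pD) A := by
    rw [hunc]
    refine le_trans (le_of_eq ?_) (Pool.Agent.Lib.P325P.mean_mono fun e =>
      Pool.Agent.Lib.P325P.mean_mono fun a => hlow e a)
    have h1 : ∀ e : ι, mean (fun a : Fin l → Fin W × Fin W =>
        (1 - 1 / (l : ℝ)) ^ (∑ i, (row A (pos pS pD e a i)).card) - (1 - 1 / (l : ℝ)) ^ M -
        ∑ i, ∑ j ∈ Finset.univ.erase i, ∑ x : ZMod k,
          (if x + b (edge pS e a i) ∈ row A (pos pS pD e a i) ∧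
            (row A (pos pS pD e a i)).card ≤ M then (1 : ℝ) else 0) *
          (if x + b (edge pS e a j) ∈ row A (pos pS pD e a j) ∧
            (row A (pos pS pD e a j)).card ≤ M then (1 : ℝ) else 0)) =
        mean (fun a : Fin l → Fin W × Fin W =>
          (1 - 1 / (l : ℝ)) ^ (∑ i, (row A (pos pS pD e a i)).card)) -
        (1 - 1 / (l : ℝ)) ^ M -
        mean (fun a : Fin l → Fin W × Fin W =>
        ∑ i, ∑ j ∈ Finset.univ.erase i, ∑ x : ZMod k,
          (if x + b (edge pS e a i) ∈ row A (pos pS pD e a i) ∧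
            (row A (pos pS pD e a i)).card ≤ M then (1 : ℝ) else 0) *
          (if x + b (edge pS e a j) ∈ row A (pos pS pD e a j) ∧
            (row A (pos pS pD e a j)).card ≤ M then (1 : ℝ) else 0)) := by
      intro e
      rw [Pool.Agent.Lib.P325P.mean_sub, Pool.Agent.Lib.P325P.mean_sub,
        Pool.Agent.Lib.P325P.mean_const]
    rw [Pool.Agent.Lib.P325P.mean_congr h1, Pool.Agent.Lib.P325P.mean_sub,
      Pool.Agent.Lib.P325P.mean_sub, Pool.Agent.Lib.P325P.mean_const]
  linarith

end Pool.Agent.Lib.P47c
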