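import Pool.Agent.Lib.P325z.MainED
import Pool.Agent.Lib.P325cv.Para
import Pool.Agent.Lib.P47c.TDefs
import Pool.Agent.Lib.P47c.Pick
import Pool.Agent.Lib.P47c.Sound
import Pool.Agent.Lib.P47c.Comp

/-!
Module BaseC (1.5h; black boxes P325z.mainED, P325cv.exists_rpow_ge, Pick, Sound, Comp). Families of sets with a coverage gap.
PROOF. WLOG ε ≤ 1 (or use min ε 1). Choose l ≥ 2 with 1/(l-1) ≤ ε/3, M with (1-1/l)^M ≤ ε/3 (exists_pow_lt_of_lt_one),
δ = min (1/4) (ε / (3 l^2 (M^2+1))), s = max (1/2) (1 - ε/l) < 1, so δ ≤ s, and k = ⌈36/δ^2⌉₊ ≥ 2. mainED s δ gives n0 and for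
n ≥ n0 the game, Δ = ⌈5/δ⌉₊^8, and E of degree r0 ≥ (2n)^e, e = log(1/s)/log(1/δ)/4000000 (0 < e ≤ 1/4: 0 < log(1/s) ≤ log(1/δ)).
W = Δ.factorial > 0; exists_pick for src and dst. V = ι, T = Test ι W k l. card ι ≤ n Δ (sum of the degrees,
Finset.card_eq_sum_card_fiberwise). card T = card ι * (W * W)^l * l^k ≤ n * (Δ * (W*W)^l * l^k). C = Δ * (W*W)^l * l^k
(≥ Δ). Q = l * k: near t is contained in the image of (i, c) ↦ (pos i, c + b (edge i))... (every element (e', c) of near t is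
(pos i, c) for some i). For n ≥ n0' also (2n)^e ≥ l + 1 (exists_rpow_ge), so comp applies. At last replace T by Fin M':
M' = card T and the equivalence Fintype.equivFin: the statement below uses Fin M, near ∘ equiv, and mean_comp.
-/

open scoped BigOperators

namespace Pool.Agent.Lib.P47c

open Pool.Agent.Lib.P325h (IsLocalExpectation)
open Pool.Agent.Lib.P325P (mean mean_comp)

namespace BaseCAux

theorem card_near {ι : Type} [Fintype ι] {W k l : ℕ} [NeZero k] (b : ι → ZMod k)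
    (pS pD : ι → Fin W → ι) (t : Test ι W k l) : (near b pS pD t).card ≤ l * k := by
  classical
  have hsub : near b pS pD t ⊆ Finset.univ.image
      (fun q : Fin l × ZMod k => (pos pS pD t.1 t.2.1 q.1, q.2)) := by
    intro p hp
    unfold near at hp
    rw [Finset.mem_filter] at hp
    obtain ⟨i, hi, -⟩ := hp.2
    rw [Finset.mem_image]
    exact ⟨(i, p.2), Finset.mem_univ _, Prod.ext hi rfl⟩
  refine (Finset.card_le_card hsub).trans (Finset.card_image_le.trans ?_)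
  rw [Finset.card_univ, Fintype.card_prod, Fintype.card_fin, ZMod.card]

theorem card_test (ι : Type) [Fintype ι] (W k l : ℕ) [NeZero k] :
    Fintype.card (Test ι W k l) = Fintype.card ι * ((W * W) ^ l * l ^ k) := by
  unfold Test
  rw [Fintype.card_prod, Fintype.card_prod, Fintype.card_fun, Fintype.card_fun, Fintype.card_prod,
    Fintype.card_fin, Fintype.card_fin, ZMod.card]

theorem card_ed {ι : Type} [Fintype ι] {n : ℕ} (src : ι → Fin n) (Δ : ℕ)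
    (h : ∀ v, (Finset.univ.filter (fun e => src e = v)).card ≤ Δ) :
    Fintype.card ι ≤ n * Δ := by
  classical
  have h1 := Finset.card_eq_sum_card_fiberwise (s := (Finset.univ : Finset ι))
    (t := (Finset.univ : Finset (Fin n))) (f := src) (fun x _ => Finset.mem_coe.2 (Finset.mem_univ _))
  rw [← Finset.card_univ, h1]
  refine (Finset.sum_le_sum fun v _ => h v).trans ?_
  rw [Finset.sum_const, Finset.card_univ, Fintype.card_fin, smul_eq_mul]

theorem cov_comp {V Ω T : Type} [Fintype T] {M : ℕ} (e : Fin M ≃ T) (nr : T → Finset (V × Ω)) :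
    cov (fun j => nr (e j)) = cov nr := by
  funext y
  unfold cov
  convert mean_comp e
    (fun t => @ite ℝ (∃ p ∈ nr t, y p.1 = p.2) (Classical.propDecidable _) (1 : ℝ) 0)

theorem unc_comp {V Ω T : Type} [Fintype T] {M : ℕ} (e : Fin M ≃ T) (nr : T → Finset (V × Ω))
    (A : Finset (V × Ω)) : unc (fun j => nr (e j)) A = unc nr A := by
  unfold unc
  convert mean_comp e
    (fun t => @ite ℝ (Disjoint (nr t) A) (Classical.propDecidable _) (1 : ℝ) 0)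

end BaseCAux

open BaseCAux

theorem baseC (ε : ℝ) (hε : 0 < ε) : ∃ (k Q C : ℕ) (e : ℝ), 2 ≤ k ∧ 1 ≤ C ∧ 0 < e ∧ e ≤ 1 / 4 ∧
    ∃ n0 : ℕ, ∀ n ≥ n0, ∃ (V : Type) (_ : Fintype V) (M : ℕ)
      (near : Fin M → Finset (V × ZMod k)) (r : ℕ) (E : ((V → ZMod k) → ℝ) →ₗ[ℝ] ℝ),
      Nonempty V ∧ 0 < M ∧ M ≤ C * n ∧ Fintype.card V ≤ C * n ∧ (∀ j, (near j).card ≤ Q) ∧
      (2 * (n : ℝ)) ^ e ≤ r ∧ IsLocalExpectation r E ∧ 1 - ε ≤ E (cov near) ∧
      ∀ A : Finset (V × ZMod k),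
        Real.exp (-((A.card : ℝ) / Fintype.card V)) - ε ≤ unc near A := by
  classical
  -- parameters
  obtain ⟨η, hη0, hηε⟩ : ∃ η : ℝ, 0 < η ∧ η ≤ ε := ⟨min ε 1, lt_min hε one_pos, min_le_left _ _⟩
  obtain ⟨l, hl2, hl⟩ : ∃ l : ℕ, 2 ≤ l ∧ 1 / ((l : ℝ) - 1) ≤ η / 3 := by
    have hpos : (0 : ℝ) < 3 / η := by positivity
    refine ⟨⌈3 / η⌉₊ + 1, ?_, ?_⟩
    · have := Nat.ceil_pos.2 hpos
      omega
    · push_cast
      have h1 : 3 / η ≤ (⌈3 / η⌉₊ : ℝ) := Nat.le_ceil _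
      rw [add_sub_cancel_right]
      rw [div_le_iff₀ (lt_of_lt_of_le hpos h1)]
      calc (1 : ℝ) = η / 3 * (3 / η) := by field_simp
        _ ≤ η / 3 * (⌈3 / η⌉₊ : ℝ) := mul_le_mul_of_nonneg_left h1 (by positivity)
  have hlR : (2 : ℝ) ≤ (l : ℝ) := by exact_mod_cast hl2
  have hl0 : (0 : ℝ) < (l : ℝ) := by linarith
  obtain ⟨M, hM⟩ : ∃ M : ℕ, (1 - 1 / (l : ℝ)) ^ M < η / 3 :=
    exists_pow_lt_of_lt_one (by positivity) (by
      have : 0 < 1 / (l : ℝ) := by positivity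
      linarith)
  have hden : (0 : ℝ) < 3 * (l : ℝ) ^ 2 * ((M : ℝ) ^ 2 + 1) := by positivity
  set δ : ℝ := min (1 / 4) (η / (3 * (l : ℝ) ^ 2 * ((M : ℝ) ^ 2 + 1))) with hδdef
  have hδ0 : 0 < δ := lt_min (by norm_num) (div_pos hη0 hden)
  have hδ4 : δ ≤ 1 / 4 := min_le_left _ _
  have hδM : (l : ℝ) ^ 2 * ((M : ℝ) ^ 2 * δ) ≤ η / 3 := by
    have h1 : δ ≤ η / (3 * (l : ℝ) ^ 2 * ((M : ℝ) ^ 2 + 1)) := min_le_right _ _
    have h2 : δ * (3 * (l : ℝ) ^ 2 * ((M : ℝ) ^ 2 + 1)) ≤ η := (le_div_iff₀ hden).1 h1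
    have h3 : 0 ≤ δ * (l : ℝ) ^ 2 := by positivity
    nlinarith
  obtain ⟨s, hs2, hs1, hsl⟩ : ∃ s : ℝ, 1 / 2 ≤ s ∧ s < 1 ∧ 1 - η ≤ 1 - l * (1 - s) := by
    refine ⟨max (1 / 2) (1 - η / l), le_max_left _ _, max_lt (by norm_num) ?_, ?_⟩
    · have : 0 < η / (l : ℝ) := by positivity
      linarith
    · have h1 : 1 - η / (l : ℝ) ≤ max (1 / 2) (1 - η / l) := le_max_right _ _
      have h2 : 1 - max (1 / 2) (1 - η / l) ≤ η / (l : ℝ) := by linarith
      have h3 : (l : ℝ) * (1 - max (1 / 2) (1 - η / l)) ≤ (l : ℝ) * (η / (l : ℝ)) :=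
        mul_le_mul_of_nonneg_left h2 hl0.le
      have h4 : (l : ℝ) * (η / (l : ℝ)) = η := by field_simp
      linarith
  have hds : δ ≤ s := by linarith
  have hs0 : 0 < s := by linarith
  obtain ⟨k, hk2, hk36⟩ : ∃ k : ℕ, 2 ≤ k ∧ 36 ≤ (k : ℝ) * δ ^ 2 := by
    have hδ2 : 0 < δ ^ 2 := by positivity
    have h1 : 36 / δ ^ 2 ≤ (⌈36 / δ ^ 2⌉₊ : ℝ) := Nat.le_ceil _
    refine ⟨⌈36 / δ ^ 2⌉₊, ?_, (div_le_iff₀ hδ2).1 h1⟩
    have h2 : (2 : ℝ) ≤ 36 / δ ^ 2 := by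
      rw [le_div_iff₀ hδ2]
      nlinarith
    have h3 : (2 : ℝ) ≤ (⌈36 / δ ^ 2⌉₊ : ℝ) := h2.trans h1
    exact_mod_cast h3
  have hkz : NeZero k := ⟨by omega⟩
  -- the exponent
  have hlogs : 0 < Real.log (1 / s) := Real.log_pos (by rw [lt_div_iff₀ hs0]; linarith)
  have hlogd : 0 < Real.log (1 / δ) := Real.log_pos (by rw [lt_div_iff₀ hδ0]; linarith)
  have hlogle : Real.log (1 / s) ≤ Real.log (1 / δ) :=
    Real.log_le_log (by positivity) (one_div_le_one_div_of_le hδ0 hds)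
  set e : ℝ := Real.log (1 / s) / Real.log (1 / δ) / 4000000 with he
  have he0 : 0 < e := by positivity
  have he4 : e ≤ 1 / 4 := by
    have h1 : Real.log (1 / s) / Real.log (1 / δ) ≤ 1 := (div_le_one hlogd).2 hlogle
    rw [he]
    linarith
  -- sizes
  set Δ : ℕ := ⌈5 / δ⌉₊ ^ 8 with hΔ
  set W : ℕ := Δ.factorial with hW
  have hW0 : 0 < W := Nat.factorial_pos _
  have hC1 : 1 ≤ (W * W) ^ l * l ^ k := by
    have h1 : 0 < (W * W) ^ l := pow_pos (Nat.mul_pos hW0 hW0) _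
    have h2 : 0 < l ^ k := pow_pos (by omega) _
    exact Nat.succ_le_of_lt (Nat.mul_pos h1 h2)
  have hΔ1 : 1 ≤ Δ := by
    have : 0 < ⌈5 / δ⌉₊ := Nat.ceil_pos.2 (by positivity)
    exact Nat.succ_le_of_lt (pow_pos this _)
  obtain ⟨n1, hn1⟩ := Pool.Agent.Lib.P325z.mainED s δ hδ0 (by linarith) hds hs1 k hk36
  obtain ⟨n2, hn2⟩ := Pool.Agent.Lib.P325cv.exists_rpow_ge e ((l : ℝ) + 1) he0
  refine ⟨k, l * k, Δ * ((W * W) ^ l * l ^ k), e, hk2, Nat.succ_le_of_lt (Nat.mul_pos hΔ1 hC1), he0,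
    he4, max n1 n2, fun n hn => ?_⟩
  obtain ⟨ι, hfι, src, dst, b, r, E, hne, hr, hval, -, hdS, hdD, hE, hsat, -⟩ :=
    hn1 n (le_of_max_le_left hn)
  obtain ⟨pS, hpS⟩ := exists_pick src Δ (fun v => by convert hdS v)
  obtain ⟨pD, hpD⟩ := exists_pick dst Δ (fun v => by convert hdD v)
  have hlr : l + 1 ≤ r := by
    have h1 : (l : ℝ) + 1 ≤ (r : ℝ) := (hn2 n (le_of_max_le_right hn)).trans hr
    exact_mod_cast h1
  obtain ⟨E', hE', hcov⟩ := comp hW0 (by omega) hlr src dst b pS pD hpS hpD s E hE hsat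
  have hcι : Fintype.card ι ≤ n * Δ := card_ed src Δ (fun v => by convert hdS v)
  have hcT := card_test ι W k l
  refine ⟨ι, hfι, Fintype.card (Test ι W k l),
    fun j => near b pS pD ((Fintype.equivFin (Test ι W k l)).symm j), r, E', hne, ?_, ?_, ?_,
    fun j => card_near _ _ _ _, hr, hE', ?_, fun A => ?_⟩
  · rw [hcT]
    exact Nat.mul_pos Fintype.card_pos hC1
  · rw [hcT]
    calc Fintype.card ι * ((W * W) ^ l * l ^ k) ≤ (n * Δ) * ((W * W) ^ l * l ^ k) :=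
        Nat.mul_le_mul_right _ hcι
      _ = Δ * ((W * W) ^ l * l ^ k) * n := by ring
  · calc Fintype.card ι ≤ n * Δ := hcι
      _ ≤ (n * Δ) * ((W * W) ^ l * l ^ k) := Nat.le_mul_of_pos_right _ hC1
      _ = Δ * ((W * W) ^ l * l ^ k) * n := by ring
  · rw [cov_comp (Fintype.equivFin (Test ι W k l)).symm (near b pS pD)]
    linarith
  · rw [unc_comp (Fintype.equivFin (Test ι W k l)).symm (near b pS pD)]
    have h1 := sound M hW0 hl2 src dst b δ hδ0.le hval pS pD hpS hpD A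
    linarith

end Pool.Agent.Lib.P47c
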