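import Pool.Agent.Lib.P325cv.Main
import Pool.Agent.Lib.P47c.TDefs

/-!
Module ConvC (1h). From convex programs to linear programs with few inequalities. The proof is that of
P325av.lp_of_convex (Pool/Agent/Lib/P325av/ConvAv.lean) word for word, with Fin N ⊕ Fin N → ZMod k replaced by the
arbitrary finite nonempty type Z and the satisfied fraction replaced by an arbitrary nonnegative function G (only
its nonnegativity is used there). Take pl z = Pi.single z 1 (classical).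
-/

open scoped BigOperators

namespace Pool.Agent.Lib.P47c

open Pool.Agent.Lib.P325cv (block core para proj_sum proj_single)

namespace ConvCAux

theorem proj_sum_one {Z : Type*} [Fintype Z] (c : Z → ℝ) :
    (∑ z, (LinearMap.proj z : (Z → ℝ) →ₗ[ℝ] ℝ)) c = ∑ z, c z := by
  simp only [LinearMap.sum_apply, LinearMap.proj_apply]

end ConvCAux

open ConvCAux in
theorem convC {Z : Type} [Fintype Z] [Nonempty Z] (s : ℝ) (hs0 : 0 < s) (hs : s < 1)
    {Y : Type} [AddCommGroup Y] [Module ℝ Y] (R D : ℕ)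
    (A : Fin R → Y →ₗ[ℝ] (Fin D → ℝ)) (C : Fin R → Set (Fin D → ℝ))
    (pt : Z → Y) (hC : ∀ j, Convex ℝ (C j)) (hpt : ∀ z j, A j (pt z) ∈ C j) :
    ∃ (Rl : ℕ) (Al : Fin Rl → (Z → ℝ) →ₗ[ℝ] ℝ) (cl : Fin Rl → ℝ) (pl : Z → (Z → ℝ)),
      (Rl : ℝ) ≤ 2 + (R : ℝ) * (((⌈2 * ((D : ℝ) + 1) ^ 2 * ((R : ℝ) + 1) /
        (1 / Real.sqrt s - 1)⌉₊ + 1 : ℕ) : ℝ) + 1) ^ (D + 1) ∧
      (∀ z j, Al j (pl z) ≤ cl j) ∧
      ∀ G : Z → ℝ, (∀ z, 0 ≤ G z) → Cert {y | ∀ j, A j y ∈ C j} pt G s →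
        Cert {y | ∀ j, Al j y ≤ cl j} pl G (Real.sqrt s) := by
  classical
  set s1 : ℝ := Real.sqrt s with hs1
  have hs10 : 0 < s1 := Real.sqrt_pos.2 hs0
  have hs11 : s1 < 1 := by
    rw [hs1, Real.sqrt_lt' one_pos]; simpa using hs
  have hs1s : s1 * s1 = s := Real.mul_self_sqrt hs0.le
  set θ : ℝ := 1 / s1 - 1 with hθ
  have hθ0 : 0 < θ := by
    have : 1 < 1 / s1 := by rw [lt_div_iff₀ hs10]; linarith
    linarith
  set M : ℕ := ⌈2 * ((D : ℝ) + 1) ^ 2 * ((R : ℝ) + 1) / θ⌉₊ + 1 with hMdef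
  set η : ℝ := θ / ((R : ℝ) + 1) with hη
  have hR1 : (0 : ℝ) < (R : ℝ) + 1 := by positivity
  have hη0 : 0 < η := div_pos hθ0 hR1
  have hηR : 1 + η * R ≤ 1 / s1 := by
    have : η * R ≤ θ := by
      rw [hη, div_mul_eq_mul_div, div_le_iff₀ hR1]
      nlinarith
    linarith
  have hM1 : 1 ≤ M := by omega
  have hMη : 2 * ((D : ℝ) + 1) ^ 2 ≤ M * η := by
    have h1 : 2 * ((D : ℝ) + 1) ^ 2 * ((R : ℝ) + 1) / θ ≤ M := by
      rw [hMdef]
      push_cast
      have := Nat.le_ceil (2 * ((D : ℝ) + 1) ^ 2 * ((R : ℝ) + 1) / θ)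
      linarith
    have h2 : 2 * ((D : ℝ) + 1) ^ 2 = 2 * ((D : ℝ) + 1) ^ 2 * ((R : ℝ) + 1) / θ * η := by
      rw [hη]
      field_simp
    rw [h2]
    exact mul_le_mul_of_nonneg_right h1 hη0.le
  -- the labelings
  have hblock : ∀ j : Fin R, ∃ (m : ℕ) (b : Fin m → Z) (lam : Z → Fin m → ℝ), m ≤ D + 1 ∧ 0 < m ∧
      (∀ i, lam (b i) = Pi.single i 1) ∧ (∀ z i, |lam z i| ≤ 1) ∧ (∀ z, ∑ i, lam z i = 1) ∧
      ∀ z, A j (pt z) = ∑ i, lam z i • A j (pt (b i)) := fun j => block (fun z => A j (pt z))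
  choose m b lam hmD hm0 hb h1 hsum hP using hblock
  -- the linear program
  let J := Bool ⊕ (Σ j : Fin R, (Fin (m j) → Fin (M + 1)))
  have hJ : (Fintype.card J : ℝ) ≤ 2 + (R : ℝ) * ((M : ℝ) + 1) ^ (D + 1) := by
    have h2 : Fintype.card J = 2 + ∑ j : Fin R, (M + 1) ^ (m j) := by
      simp only [J, Fintype.card_sum, Fintype.card_bool, Fintype.card_sigma, Fintype.card_pi,
        Fintype.card_fin, Finset.prod_const, Finset.card_univ]
    rw [h2]
    push_cast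
    have h3 : ∑ j : Fin R, ((M : ℝ) + 1) ^ (m j) ≤ ∑ _j : Fin R, ((M : ℝ) + 1) ^ (D + 1) := by
      refine Finset.sum_le_sum fun j _ => ?_
      apply pow_le_pow_right₀ _ (hmD j)
      have : (0 : ℝ) ≤ M := Nat.cast_nonneg _
      linarith
    rw [Finset.sum_const, Finset.card_univ, Fintype.card_fin, nsmul_eq_mul] at h3
    linarith
  let fu : ∀ j : Fin R, (Fin (m j) → Fin (M + 1)) → Z → ℝ :=
    fun j u z => ∑ i, ((u i : ℕ) : ℝ) * lam j z i
  have hmax : ∀ (j : Fin R) (u : Fin (m j) → Fin (M + 1)), ∃ z0, ∀ z, fu j u z ≤ fu j u z0 :=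
    fun j u => Finite.exists_max (fu j u)
  choose z0 hz0 using hmax
  let AJ : J → (Z → ℝ) →ₗ[ℝ] ℝ := fun t => match t with
    | Sum.inl true => ∑ z, LinearMap.proj z
    | Sum.inl false => -∑ z, LinearMap.proj z
    | Sum.inr ⟨j, u⟩ => ∑ z, fu j u z • LinearMap.proj z
  let cJ : J → ℝ := fun t => match t with
    | Sum.inl true => 1
    | Sum.inl false => -1
    | Sum.inr ⟨j, u⟩ => fu j u (z0 j u)
  let eJ := Fintype.equivFin J
  have hAJs : ∀ (t : J) (z : Z), AJ t (Pi.single z 1) ≤ cJ t := by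
    intro t z
    match t with
    | Sum.inl true =>
        show (∑ z', (LinearMap.proj z' : (Z → ℝ) →ₗ[ℝ] ℝ)) (Pi.single z 1) ≤ 1
        simp
    | Sum.inl false =>
        show (-∑ z', (LinearMap.proj z' : (Z → ℝ) →ₗ[ℝ] ℝ)) (Pi.single z 1) ≤ -1
        simp
    | Sum.inr ⟨j, u⟩ =>
        show (∑ z', fu j u z' • (LinearMap.proj z' : (Z → ℝ) →ₗ[ℝ] ℝ)) (Pi.single z 1) ≤
          fu j u (z0 j u)
        rw [proj_single]
        exact hz0 j u z
  refine ⟨Fintype.card J, fun i => AJ (eJ.symm i), fun i => cJ (eJ.symm i), fun z => Pi.single z 1, hJ,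
    fun z i => hAJs _ z, ?_⟩
  rintro sat hsat0 ⟨w, w0, hw, hw2⟩
  refine ⟨∑ z, sat z • LinearMap.proj z, 0, fun z => by rw [proj_single, add_zero], ?_⟩
  intro c hc1
  rw [proj_sum, add_zero]
  by_contra hcon
  push Not at hcon
  have hcJ : ∀ t : J, AJ t c ≤ cJ t := by
    intro t
    have := hc1 (eJ t)
    simpa using this
  have hcs : ∑ z, c z = 1 := by
    have h2 := hcJ (Sum.inl true)
    have h3 := hcJ (Sum.inl false)
    have h4 : AJ (Sum.inl true) c = ∑ z, c z := proj_sum_one c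
    have h5 : AJ (Sum.inl false) c = -∑ z, c z := by
      show -((∑ z', (LinearMap.proj z' : (Z → ℝ) →ₗ[ℝ] ℝ)) c) = _
      rw [proj_sum_one]
    rw [h4] at h2
    rw [h5] at h3
    have h6 : cJ (Sum.inl true) = 1 := rfl
    have h7 : cJ (Sum.inl false) = -1 := rfl
    rw [h6] at h2
    rw [h7] at h3
    linarith
  have hu : ∀ j, ∀ u : Fin (m j) → Fin (M + 1), ∃ z,
      ∑ z', c z' * (∑ i, ((u i : ℕ) : ℝ) * lam j z' i) ≤ ∑ i, ((u i : ℕ) : ℝ) * lam j z i := by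
    intro j u
    refine ⟨z0 j u, ?_⟩
    have h2 := hcJ (Sum.inr ⟨j, u⟩)
    have h3 : AJ (Sum.inr ⟨j, u⟩) c = ∑ z', c z' * fu j u z' := proj_sum _ _
    rw [h3] at h2
    exact h2
  have hMη' : ∀ j, 2 * (m j : ℝ) ^ 2 ≤ M * η := by
    intro j
    refine le_trans ?_ hMη
    have h2 : (m j : ℝ) ≤ (D : ℝ) + 1 := by exact_mod_cast hmD j
    have h3 : (0 : ℝ) ≤ m j := Nat.cast_nonneg _
    have h4 : (m j : ℝ) ^ 2 ≤ ((D : ℝ) + 1) ^ 2 := pow_le_pow_left₀ h3 h2 2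
    linarith
  obtain ⟨γ, hγ0, hγs, hγC⟩ := core (fun j z => A j (pt z)) m b lam hm0 hb h1 hsum hP M hM1 η hη0
    hMη' c hcs hu
  have hpos : (0 : ℝ) < 1 + η * R := by positivity
  set cs : Z → ℝ := fun z => (1 + η * R)⁻¹ * (c z + η * γ z) with hcsdef
  have hcs1 : ∑ z, cs z = 1 := by
    rw [hcsdef, ← Finset.mul_sum, Finset.sum_add_distrib, ← Finset.mul_sum, hcs, hγs]
    exact inv_mul_cancel₀ hpos.ne'
  have hfeas : (∑ z, cs z • pt z) ∈ {y | ∀ j, A j y ∈ C j} := by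
    intro j
    have h2 : A j (∑ z, cs z • pt z) = ∑ z, cs z • A j (pt z) := by
      rw [map_sum]
      exact Finset.sum_congr rfl fun z _ => by rw [map_smul]
    rw [h2]
    exact hγC j (C j) (hC j) (fun z => hpt z j)
  have hle := hw2 _ hfeas
  have h2 : w (∑ z, cs z • pt z) + w0 = ∑ z, cs z * sat z := by
    have h3 : w0 = ∑ z, cs z * w0 := by rw [← Finset.sum_mul, hcs1, one_mul]
    rw [map_sum]
    conv_lhs => rw [h3]
    rw [← Finset.sum_add_distrib]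
    refine Finset.sum_congr rfl fun z _ => ?_
    rw [map_smul, smul_eq_mul, ← mul_add, hw z]
  rw [h2] at hle
  have h4 : ∑ z, cs z * sat z =
      (1 + η * R)⁻¹ * (∑ z, c z * sat z + η * ∑ z, γ z * sat z) := by
    rw [hcsdef, Finset.mul_sum, ← Finset.sum_add_distrib, Finset.mul_sum]
    refine Finset.sum_congr rfl fun z _ => ?_
    ring
  have h5 : 0 ≤ ∑ z, γ z * sat z := Finset.sum_nonneg fun z _ => mul_nonneg (hγ0 z) (hsat0 z)
  have h6 : s1 ≤ (1 + η * R)⁻¹ := by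
    rw [le_inv_comm₀ hs10 hpos, ← one_div]
    exact hηR
  have h7 : 0 ≤ η * ∑ z, γ z * sat z := mul_nonneg hη0.le h5
  have h8 : s1 * s1 < (1 + η * R)⁻¹ * (∑ z, c z * sat z + η * ∑ z, γ z * sat z) := by
    apply mul_lt_mul' h6 (by linarith) hs10.le (by positivity)
  rw [hs1s] at h8
  rw [h4] at hle
  linarith

end Pool.Agent.Lib.P47c
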