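import Mathlib

/-!
Metrics on facilities and clients.
-/

open scoped BigOperators

namespace Pool.Agent.Lib.P47c

/-- A metric on the union of the facilities `Fin m` and the clients `Fin M`. -/
structure Space (m M : ℕ) where
  /-- the distance -/
  dist : Fin m ⊕ Fin M → Fin m ⊕ Fin M → ℝ
  dist_self : ∀ x, dist x x = 0
  dist_pos : ∀ x y, x ≠ y → 0 < dist x y
  dist_comm : ∀ x y, dist x y = dist y x
  dist_triangle : ∀ x y z, dist x z ≤ dist x y + dist y z

end Pool.Agent.Lib.P47c
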