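import Pool.Agent.Lib.P325P.Es
import Pool.Agent.Lib.P47c.TDefs

/-!
Module EsCov (0.5h; black boxes es_zero_of_dep, es_sum). The components of the coverage at large sets vanish. (If helper24 has this
already for the old FLow, it can be copied.)
PROOF. cov near is the mean of the indicators of the event that near j meets the graph of y, which depends on the labels of the at most
Q first coordinates of near j: es_sum for the mean and es_zero_of_dep with J = (near j).image Prod.fst.
-/

open scoped BigOperators

namespace Pool.Agent.Lib.P47c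

open Pool.Agent.Lib.P325P (es)

theorem es_cov {V Ω T : Type} [Fintype V] [DecidableEq V] [Fintype Ω] [Nonempty Ω] [Fintype T]
    (near : T → Finset (V × Ω)) (Q : ℕ) (hQ : ∀ j, (near j).card ≤ Q) (S : Finset V)
    (hS : Q < S.card) (y : V → Ω) : es S (cov near) y = 0 := by
  classical
  have h1 : cov near = fun x => ∑ j ∈ (Finset.univ : Finset T), (1 / (Fintype.card T : ℝ)) *
      (fun (j : T) (x : V → Ω) => if ∃ p ∈ near j, x p.1 = p.2 then (1 : ℝ) else 0) j x := by
    funext x
    unfold cov Pool.Agent.Lib.P325P.mean
    rw [Finset.sum_div]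
    refine Finset.sum_congr rfl fun j _ => ?_
    rw [div_eq_mul_one_div, mul_comm]
  rw [h1, Pool.Agent.Lib.P325P.es_sum]
  refine Finset.sum_eq_zero fun j _ => ?_
  rw [Pool.Agent.Lib.P325P.es_zero_of_dep (J := (near j).image Prod.fst), mul_zero]
  · intro x x' h
    have h2 : (∃ p ∈ near j, x p.1 = p.2) ↔ ∃ p ∈ near j, x' p.1 = p.2 := by
      constructor
      · rintro ⟨p, hp, hx⟩
        exact ⟨p, hp, by rw [← h p.1 (by exact_mod_cast Finset.mem_image_of_mem Prod.fst hp), hx]⟩
      · rintro ⟨p, hp, hx⟩
        exact ⟨p, hp, by rw [h p.1 (by exact_mod_cast Finset.mem_image_of_mem Prod.fst hp), hx]⟩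
    simp only [h2]
  · intro h
    have h2 := (Finset.card_le_card h).trans Finset.card_image_le
    have h3 := hQ j
    omega

end Pool.Agent.Lib.P47c
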