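import Pool.Agent.Lib.P47c.Two

/-!
Gluing spaces at a large distance; spaces in which all distances are equal.
-/

open scoped BigOperators

namespace Pool.Agent.Lib.P47c

/-- Different points have distance `τ`. -/
noncomputable def eqSpace (m M : ℕ) (τ : ℝ) (hτ : 0 < τ) : Space m M where
  dist x y := if x = y then 0 else τ
  dist_self x := by simp
  dist_pos x y h := by simp [h, hτ]
  dist_comm x y := by simp only [eq_comm]
  dist_triangle x y z := by
    split_ifs <;> subst_vars <;> first | linarith | (exfalso; simp_all)

open Classical in
/-- Points of the same group `g` have their distance in the space `δ g`, points of different groups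
have distance `H`. -/
noncomputable def glue {m M : ℕ} {G : Type} (grp : Fin m ⊕ Fin M → G) (δ : G → Space m M) (H : ℝ)
    (hH : 0 < H) (hδ : ∀ g x y, (δ g).dist x y ≤ 2 * H) : Space m M where
  dist x y := if grp x = grp y then (δ (grp x)).dist x y else H
  dist_self x := by simp [(δ (grp x)).dist_self x]
  dist_pos x y h := by
    split_ifs
    · exact (δ (grp x)).dist_pos x y h
    · exact hH
  dist_comm x y := by
    by_cases h : grp x = grp y
    · rw [if_pos h, if_pos h.symm, (δ (grp x)).dist_comm x y, h]
    · rw [if_neg h, if_neg (fun h' => h h'.symm)]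
  dist_triangle x y z := by
    have hnn : ∀ g x y, 0 ≤ (δ g).dist x y := by
      intro g x y
      by_cases h : x = y
      · rw [h, (δ g).dist_self]
      · exact ((δ g).dist_pos x y h).le
    by_cases hxz : grp x = grp z
    · by_cases hxy : grp x = grp y
      · have hyz : grp y = grp z := hxy.symm.trans hxz
        rw [if_pos hxz, if_pos hxy, if_pos hyz, ← hxy]
        exact (δ (grp x)).dist_triangle x y z
      · have hyz : ¬ grp y = grp z := fun h => hxy (hxz.trans h.symm)
        rw [if_pos hxz, if_neg hxy, if_neg hyz]
        linarith [hδ (grp x) x z]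
    · rw [if_neg hxz]
      by_cases hxy : grp x = grp y
      · have hyz : ¬ grp y = grp z := fun h => hxz (hxy.trans h)
        rw [if_neg hyz]
        split_ifs <;> linarith [hnn (grp x) x y]
      · rw [if_neg hxy]
        split_ifs <;> linarith [hnn (grp y) y z]

theorem Space.dist_nonneg {m M : ℕ} (d : Space m M) (x y : Fin m ⊕ Fin M) : 0 ≤ d.dist x y := by
  by_cases h : x = y
  · rw [h, d.dist_self]
  · exact (d.dist_pos x y h).le

theorem infi_finite_le {X : Type} [Finite X] (f : X → ℝ) (x : X) : ⨅ i, f i ≤ f x :=
  ciInf_le (Set.finite_range f).bddBelow x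

end Pool.Agent.Lib.P47c
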