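import Pool.Agent.Lib.P47c.Model
import Pool.Agent.Lib.P47c.Glue

/-!
Service costs of the clients of an instance.
-/

open scoped BigOperators

namespace Pool.Agent.Lib.P47c

/-- The sum of the distances of the clients in `P` to `S`. -/
noncomputable def serv {m M : ℕ} (d : Space m M) (P : Finset (Fin M)) (S : Finset (Fin m)) : ℝ :=
  ∑ j ∈ P, ⨅ i : S, d.dist (Sum.inl i.1) (Sum.inr j)

theorem cost_eq {m M : ℕ} (I : Inst m M) (S : Finset (Fin m)) :
    I.cost S = ∑ i ∈ S, I.opening i + serv I.space I.clients S := rfl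

/-- The service cost is at least the sum of lower bounds. -/
theorem serv_ge {m M : ℕ} (d : Space m M) (P : Finset (Fin M)) (S : Finset (Fin m))
    (hS : S.Nonempty) (c : Fin M → ℝ)
    (h : ∀ j ∈ P, ∀ i ∈ S, c j ≤ d.dist (Sum.inl i) (Sum.inr j)) :
    ∑ j ∈ P, c j ≤ serv d P S := by
  have : Nonempty S := hS.to_subtype
  exact Finset.sum_le_sum fun j hj => le_ciInf fun i => h j hj i.1 i.2

/-- If the client `j` has distance at least `H` from all facilities in `S`, the service cost of `S`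
is at least `H`. -/
theorem serv_ge_one {m M : ℕ} (d : Space m M) (P : Finset (Fin M)) (S : Finset (Fin m))
    (hS : S.Nonempty) (H : ℝ) (j : Fin M) (hj : j ∈ P)
    (h : ∀ i ∈ S, H ≤ d.dist (Sum.inl i) (Sum.inr j)) : H ≤ serv d P S := by
  have : Nonempty S := hS.to_subtype
  refine le_trans (le_ciInf fun i : S => h i.1 i.2) ?_
  exact Finset.single_le_sum (f := fun j : Fin M => ⨅ i : S, d.dist (Sum.inl i.1) (Sum.inr j))
    (fun j _ => Real.iInf_nonneg fun _ => d.dist_nonneg _ _) hj

/-- The service cost is the sum of bounds which are attained. -/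
theorem serv_eq {m M : ℕ} (d : Space m M) (P : Finset (Fin M)) (S : Finset (Fin m))
    (hS : S.Nonempty) (c : Fin M → ℝ)
    (h : ∀ j ∈ P, ∀ i ∈ S, c j ≤ d.dist (Sum.inl i) (Sum.inr j))
    (h' : ∀ j ∈ P, ∃ i ∈ S, d.dist (Sum.inl i) (Sum.inr j) = c j) :
    serv d P S = ∑ j ∈ P, c j := by
  refine le_antisymm (Finset.sum_le_sum fun j hj => ?_) (serv_ge d P S hS c h)
  obtain ⟨i, hi, hij⟩ := h' j hj
  rw [← hij]
  exact infi_finite_le (fun i : S => d.dist (Sum.inl i.1) (Sum.inr j)) ⟨i, hi⟩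

/-- The service cost is the cost of a nearest assignment. -/
theorem serv_nearest {m M : ℕ} (I : Inst m M) (S : Finset (Fin m)) (hS : S.Nonempty)
    (σ : Fin M → Fin m) (h : I.Nearest S σ) :
    serv I.space I.clients S = ∑ j ∈ I.clients, I.space.dist (Sum.inl (σ j)) (Sum.inr j) :=
  serv_eq I.space I.clients S hS (fun j => I.space.dist (Sum.inl (σ j)) (Sum.inr j))
    (fun j hj i hi => h.2 j hj i hi) (fun j _ => ⟨σ j, h.1 j, rfl⟩)

end Pool.Agent.Lib.P47c
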