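import Pool.Agent.Lib.P47c.Defs

/-!
Spaces with two distances between facilities and clients.
-/

open scoped BigOperators

namespace Pool.Agent.Lib.P47c

/-- The distance: any two facilities and any two clients have distance 2, the client `j` has
distance 1 from the facilities in `N j` and distance `D` from the others. -/
noncomputable def twoDist {m M : ℕ} (N : Fin M → Set (Fin m)) (D : ℝ) :
    Fin m ⊕ Fin M → Fin m ⊕ Fin M → ℝ := by
  classical
  exact fun x y => match x, y with
    | Sum.inl i, Sum.inl i' => if i = i' then 0 else 2
    | Sum.inr j, Sum.inr j' => if j = j' then 0 else 2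
    | Sum.inl i, Sum.inr j => if i ∈ N j then 1 else D
    | Sum.inr j, Sum.inl i => if i ∈ N j then 1 else D

/-- The space with the distance `twoDist`. -/
noncomputable def twoSpace {m M : ℕ} (N : Fin M → Set (Fin m)) (D : ℝ) (h1 : 1 ≤ D) (h3 : D ≤ 3) :
    Space m M where
  dist := twoDist N D
  dist_self := by
    rintro (i | j) <;> simp [twoDist]
  dist_pos := by
    rintro (i | j) (i' | j') h <;> simp only [twoDist] <;> split_ifs with h' <;>
      first
        | (exfalso; exact h (by rw [h']))
        | linarith
  dist_comm := by
    rintro (i | j) (i' | j') <;> simp only [twoDist, eq_comm]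
  dist_triangle := by
    rintro (i | j) (i' | j') (i'' | j'') <;> simp only [twoDist] <;> split_ifs <;> subst_vars <;>
      first
        | linarith
        | (exfalso; simp_all)

end Pool.Agent.Lib.P47c
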