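import Pool.Agent.Lib.P325P.Base
import Pool.Agent.Lib.P325av.Perm
import Pool.Agent.Lib.P47c.Two
import Pool.Agent.Lib.P47c.ServM
import Pool.Agent.Lib.P47c.TDefs

/-!
Facility location instances with two distances.
-/

open scoped BigOperators

namespace Pool.Agent.Lib.P47c

open Pool.Agent.Lib.P325P (mean)

variable {m M : ℕ} {X T : Type}

/-- The instance given by the sets `near t` of pairs, an injection `φ` of the pairs into the
facilities and an injection `ψ` of the tests into the clients: the facilities in the range of `φ`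
have the opening cost `κ`, the others are free. -/
noncomputable def instF [Fintype T] (φ : X ↪ Fin m) (ψ : T ↪ Fin M) (near : T → Finset X)
    (κ D : ℝ) (hκ : 0 ≤ κ) (h1 : 1 ≤ D) (h3 : D ≤ 3) : Inst m M := by
  classical
  exact
    { space := twoSpace (fun j => {i | ∃ t, ψ t = j ∧ ∃ p ∈ near t, φ p = i}) D h1 h3
      opening := fun i => if i ∈ Set.range φ then κ else 0
      opening_nonneg := fun i => by split_ifs <;> simp [hκ]
      clients := Finset.univ.map ψ }

namespace FIAux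

theorem space_ext {d d' : Space m M} (h : d.dist = d'.dist) : d = d' := by
  cases d
  cases d'
  cases h
  rfl

theorem inst_ext {I I' : Inst m M} (h : I.space = I'.space) (h' : I.opening = I'.opening)
    (h'' : I.clients = I'.clients) : I = I' := by
  cases I
  cases I'
  cases h
  cases h'
  cases h''
  rfl

theorem dist_cl [Fintype T] (φ : X ↪ Fin m) (ψ : T ↪ Fin M) (near : T → Finset X)
    (κ D : ℝ) (hκ : 0 ≤ κ) (h1 : 1 ≤ D) (h3 : D ≤ 3) (i : Fin m) (j : Fin M) :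
    (∃ t, ψ t = j ∧ ∃ p ∈ near t, φ p = i) ∧
      (instF φ ψ near κ D hκ h1 h3).space.dist (Sum.inl i) (Sum.inr j) = 1 ∨
    (¬ ∃ t, ψ t = j ∧ ∃ p ∈ near t, φ p = i) ∧
      (instF φ ψ near κ D hκ h1 h3).space.dist (Sum.inl i) (Sum.inr j) = D := by
  classical
  by_cases h : ∃ t, ψ t = j ∧ ∃ p ∈ near t, φ p = i
  · left
    refine ⟨h, ?_⟩
    show twoDist (fun j => {i | ∃ t, ψ t = j ∧ ∃ p ∈ near t, φ p = i}) D (Sum.inl i)
      (Sum.inr j) = 1
    exact if_pos h
  · right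
    refine ⟨h, ?_⟩
    show twoDist (fun j => {i | ∃ t, ψ t = j ∧ ∃ p ∈ near t, φ p = i}) D (Sum.inl i)
      (Sum.inr j) = D
    exact if_neg h

theorem opening_eq [Fintype T] (φ : X ↪ Fin m) (ψ : T ↪ Fin M) (near : T → Finset X)
    (κ D : ℝ) (hκ : 0 ≤ κ) (h1 : 1 ≤ D) (h3 : D ≤ 3) (i : Fin m) :
    (∃ p, φ p = i) ∧ (instF φ ψ near κ D hκ h1 h3).opening i = κ ∨
    (¬ ∃ p, φ p = i) ∧ (instF φ ψ near κ D hκ h1 h3).opening i = 0 := by
  classical
  by_cases h : ∃ p, φ p = i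
  · left
    refine ⟨h, ?_⟩
    show (if i ∈ Set.range φ then κ else 0) = κ
    exact if_pos h
  · right
    refine ⟨h, ?_⟩
    show (if i ∈ Set.range φ then κ else 0) = 0
    exact if_neg h

end FIAux

open FIAux

theorem rename_rename (I : Inst m M) (g h : Equiv.Perm (Fin m)) (g' h' : Equiv.Perm (Fin M)) :
    (I.rename h h').rename g g' = I.rename (g * h) (g' * h') := by
  refine inst_ext (space_ext ?_) rfl ?_
  · funext x y
    rcases x with i | j <;> rcases y with i' | j' <;> rfl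
  · show (I.clients.map h'.toEmbedding).map g'.toEmbedding = I.clients.map (g' * h').toEmbedding
    rw [Finset.map_map]
    rfl

theorem rename_inst [Fintype T] (φ : X ↪ Fin m) (ψ : T ↪ Fin M) (near : T → Finset X)
    (κ D : ℝ) (hκ : 0 ≤ κ) (h1 : 1 ≤ D) (h3 : D ≤ 3) (g : Equiv.Perm (Fin m))
    (h : Equiv.Perm (Fin M)) :
    (instF φ ψ near κ D hκ h1 h3).rename g h =
      instF (φ.trans g.toEmbedding) (ψ.trans h.toEmbedding) near κ D hκ h1 h3 := by
  classical
  have key : ∀ (i : Fin m) (p : X), φ p = g.symm i ↔ (φ.trans g.toEmbedding) p = i := by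
    intro i p
    show φ p = g.symm i ↔ g (φ p) = i
    rw [Equiv.eq_symm_apply]
  have key' : ∀ (j : Fin M) (t : T), ψ t = h.symm j ↔ (ψ.trans h.toEmbedding) t = j := by
    intro j t
    show ψ t = h.symm j ↔ h (ψ t) = j
    rw [Equiv.eq_symm_apply]
  have keyE : ∀ (i : Fin m) (j : Fin M),
      (∃ t, ψ t = h.symm j ∧ ∃ p ∈ near t, φ p = g.symm i) ↔
      ∃ t, (ψ.trans h.toEmbedding) t = j ∧ ∃ p ∈ near t, (φ.trans g.toEmbedding) p = i := by
    intro i j
    simp only [key, key']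
  have hcl : ∀ (i : Fin m) (j : Fin M),
      (instF φ ψ near κ D hκ h1 h3).space.dist (Sum.inl (g.symm i)) (Sum.inr (h.symm j)) =
      (instF (φ.trans g.toEmbedding) (ψ.trans h.toEmbedding) near κ D hκ h1 h3).space.dist
        (Sum.inl i) (Sum.inr j) := by
    intro i j
    rcases dist_cl φ ψ near κ D hκ h1 h3 (g.symm i) (h.symm j) with ⟨ha, hb⟩ | ⟨ha, hb⟩ <;>
    rcases dist_cl (φ.trans g.toEmbedding) (ψ.trans h.toEmbedding) near κ D hκ h1 h3 i j with
      ⟨hc, hd⟩ | ⟨hc, hd⟩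
    · rw [hb, hd]
    · exact absurd ((keyE i j).1 ha) hc
    · exact absurd ((keyE i j).2 hc) ha
    · rw [hb, hd]
  refine inst_ext (space_ext ?_) ?_ ?_
  · funext x y
    rcases x with i | j <;> rcases y with i' | j'
    · show (if g.symm i = g.symm i' then (0 : ℝ) else 2) = if i = i' then (0 : ℝ) else 2
      by_cases h : i = i'
      · rw [if_pos h, if_pos (by rw [h])]
      · rw [if_neg h, if_neg (fun h' => h (g.symm.injective h'))]
    · exact hcl i j'
    · exact ((instF φ ψ near κ D hκ h1 h3).space.dist_comm _ _).trans ((hcl i' j).trans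
        ((instF (φ.trans g.toEmbedding) (ψ.trans h.toEmbedding) near κ D hκ h1
          h3).space.dist_comm _ _))
    · show (if h.symm j = h.symm j' then (0 : ℝ) else 2) = if j = j' then (0 : ℝ) else 2
      by_cases h2 : j = j'
      · rw [if_pos h2, if_pos (by rw [h2])]
      · rw [if_neg h2, if_neg (fun h' => h2 (h.symm.injective h'))]
  · funext i
    show (instF φ ψ near κ D hκ h1 h3).opening (g.symm i) = _
    rcases opening_eq φ ψ near κ D hκ h1 h3 (g.symm i) with ⟨ha, hb⟩ | ⟨ha, hb⟩ <;>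
    rcases opening_eq (φ.trans g.toEmbedding) (ψ.trans h.toEmbedding) near κ D hκ h1 h3 i with
      ⟨hc, hd⟩ | ⟨hc, hd⟩
    · rw [hb, hd]
    · exact absurd (ha.imp fun p hp => (key i p).1 hp) hc
    · exact absurd (hc.imp fun p hp => (key i p).2 hp) ha
    · rw [hb, hd]
  · show (Finset.univ.map ψ).map h.toEmbedding = Finset.univ.map (ψ.trans h.toEmbedding)
    rw [Finset.map_map]

theorem exists_rename [Fintype T] (φ φ' : X ↪ Fin m) (ψ ψ' : T ↪ Fin M) (near : T → Finset X)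
    (κ D : ℝ) (hκ : 0 ≤ κ) (h1 : 1 ≤ D) (h3 : D ≤ 3) :
    ∃ (g : Equiv.Perm (Fin m)) (h : Equiv.Perm (Fin M)),
      instF φ' ψ' near κ D hκ h1 h3 = (instF φ ψ near κ D hκ h1 h3).rename g h := by
  obtain ⟨g, hg⟩ := Pool.Agent.Lib.P325av.exists_perm φ φ' φ.injective φ'.injective
  obtain ⟨h, hh⟩ := Pool.Agent.Lib.P325av.exists_perm ψ ψ' ψ.injective ψ'.injective
  refine ⟨g, h, ?_⟩
  rw [rename_inst]
  have e1 : φ' = φ.trans g.toEmbedding := by
    ext p
    show (φ' p : ℕ) = g (φ p)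
    rw [hg p]
  have e2 : ψ' = ψ.trans h.toEmbedding := by
    ext p
    show (ψ' p : ℕ) = h (ψ p)
    rw [hh p]
  rw [e1, e2]

theorem two_inst [Fintype T] (φ : X ↪ Fin m) (ψ : T ↪ Fin M) (near : T → Finset X)
    (κ D : ℝ) (hκ : 0 ≤ κ) (h1 : 1 ≤ D) (h3 : D ≤ 3) :
    (instF φ ψ near κ D hκ h1 h3).TwoDistance D :=
  fun i j _ => (dist_cl φ ψ near κ D hκ h1 h3 i j).imp (fun h => h.2) (fun h => h.2)

theorem clients_inst [Fintype T] (φ : X ↪ Fin m) (ψ : T ↪ Fin M) (near : T → Finset X)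
    (κ D : ℝ) (hκ : 0 ≤ κ) (h1 : 1 ≤ D) (h3 : D ≤ 3) :
    (instF φ ψ near κ D hκ h1 h3).clients.card = Fintype.card T := by
  show (Finset.univ.map ψ).card = Fintype.card T
  rw [Finset.card_map, Finset.card_univ]

theorem nearest_inst [Fintype T] (φ : X ↪ Fin m) (ψ : T ↪ Fin M) (near : T → Finset X)
    (κ D : ℝ) (hκ : 0 ≤ κ) (h1 : 1 ≤ D) (h3 : D ≤ 3) (S : Finset (Fin m)) (σ : Fin M → Fin m)
    (hσ : ∀ j, σ j ∈ S)
    (hn : ∀ t, (∃ p ∈ near t, φ p ∈ S) → ∃ p ∈ near t, φ p = σ (ψ t)) :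
    (instF φ ψ near κ D hκ h1 h3).Nearest S σ := by
  refine ⟨hσ, fun j hj i hi => ?_⟩
  obtain ⟨t, _, rfl⟩ := Finset.mem_map.1 (show j ∈ Finset.univ.map ψ from hj)
  rcases dist_cl φ ψ near κ D hκ h1 h3 i (ψ t) with ⟨⟨t', ht', p, hp, hpi⟩, hb⟩ | ⟨_, hb⟩
  · have ht : t' = t := ψ.injective ht'
    subst ht
    obtain ⟨p', hp', hp'2⟩ := hn t' ⟨p, hp, hpi ▸ hi⟩
    rcases dist_cl φ ψ near κ D hκ h1 h3 (σ (ψ t')) (ψ t') with ⟨_, hd⟩ | ⟨hc, _⟩
    · rw [hb, hd]
    · exact absurd ⟨t', rfl, p', hp', hp'2⟩ hc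
  · rw [hb]
    rcases dist_cl φ ψ near κ D hκ h1 h3 (σ (ψ t)) (ψ t) with ⟨_, hd⟩ | ⟨_, hd⟩
    · rw [hd]
      exact h1
    · rw [hd]

theorem cost_inst {V Ω : Type} [Fintype V] [Fintype Ω] [Fintype T] (φ : V × Ω ↪ Fin m)
    (ψ : T ↪ Fin M) (near : T → Finset (V × Ω)) (κ D : ℝ) (hκ : 0 ≤ κ) (h1 : 1 ≤ D) (h3 : D ≤ 3)
    (S : Finset (Fin m)) (hS : S.Nonempty) (A : Finset (V × Ω)) (hA : ∀ p, p ∈ A ↔ φ p ∈ S) :
    (instF φ ψ near κ D hκ h1 h3).cost S =
      κ * A.card + Fintype.card T * (1 + (D - 1) * unc near A) := by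
  classical
  have hop : ∑ i ∈ S, (instF φ ψ near κ D hκ h1 h3).opening i = κ * A.card := by
    have hsub : A.map φ ⊆ S := by
      intro i hi
      obtain ⟨p, hp, rfl⟩ := Finset.mem_map.1 hi
      exact (hA p).1 hp
    rw [← Finset.sum_subset hsub, Finset.sum_map]
    · rw [Finset.sum_congr rfl (g := fun _ => κ), Finset.sum_const, nsmul_eq_mul, mul_comm]
      intro p _
      rcases opening_eq φ ψ near κ D hκ h1 h3 (φ p) with ⟨_, hb⟩ | ⟨ha, _⟩
      · exact hb
      · exact absurd ⟨p, rfl⟩ ha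
    · intro i hi hi'
      rcases opening_eq φ ψ near κ D hκ h1 h3 i with ⟨⟨p, hp⟩, _⟩ | ⟨_, hb⟩
      · exact absurd (Finset.mem_map.2 ⟨p, (hA p).2 (hp ▸ hi), hp⟩) hi'
      · exact hb
  -- the values
  let c : T → ℝ := fun t => 1 + (D - 1) * (if Disjoint (near t) A then 1 else 0)
  let c' : Fin M → ℝ := Function.extend ψ c (fun _ => 0)
  have hc' : ∀ t, c' (ψ t) = c t := fun t => ψ.injective.extend_apply c (fun _ => 0) t
  have hse : serv (instF φ ψ near κ D hκ h1 h3).space (instF φ ψ near κ D hκ h1 h3).clients S =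
      ∑ j ∈ (instF φ ψ near κ D hκ h1 h3).clients, c' j := by
    refine serv_eq _ _ S hS _ ?_ ?_
    · intro j hj i hi
      obtain ⟨t, _, rfl⟩ := Finset.mem_map.1 (show j ∈ Finset.univ.map ψ from hj)
      rw [hc']
      rcases dist_cl φ ψ near κ D hκ h1 h3 i (ψ t) with ⟨⟨t', ht', p, hp, hp'⟩, hb⟩ | ⟨_, hb⟩
      · have ht : t' = t := ψ.injective ht'
        subst ht
        have hd : ¬ Disjoint (near t') A := fun hd =>
          Finset.disjoint_left.1 hd hp ((hA p).2 (hp' ▸ hi))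
        rw [hb]
        show 1 + (D - 1) * (if Disjoint (near t') A then 1 else 0) ≤ 1
        rw [if_neg hd]
        simp
      · rw [hb]
        show 1 + (D - 1) * (if Disjoint (near t) A then 1 else 0) ≤ D
        split_ifs <;> linarith
    · intro j hj
      obtain ⟨t, _, rfl⟩ := Finset.mem_map.1 (show j ∈ Finset.univ.map ψ from hj)
      rw [hc']
      show ∃ i ∈ S, _ = 1 + (D - 1) * (if Disjoint (near t) A then 1 else 0)
      by_cases hd : Disjoint (near t) A
      · obtain ⟨i, hi⟩ := hS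
        refine ⟨i, hi, ?_⟩
        rcases dist_cl φ ψ near κ D hκ h1 h3 i (ψ t) with ⟨⟨t', ht', p, hp, hp'⟩, hb⟩ | ⟨_, hb⟩
        · have ht : t' = t := ψ.injective ht'
          subst ht
          exact absurd ((hA p).2 (hp' ▸ hi)) (Finset.disjoint_left.1 hd hp)
        · rw [hb, if_pos hd]
          ring
      · obtain ⟨p, hp, hp'⟩ := Finset.not_disjoint_iff.1 hd
        refine ⟨φ p, (hA p).1 hp', ?_⟩
        rcases dist_cl φ ψ near κ D hκ h1 h3 (φ p) (ψ t) with ⟨_, hb⟩ | ⟨ha, _⟩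
        · rw [hb, if_neg hd]
          ring
        · exact absurd ⟨t, rfl, p, hp, rfl⟩ ha
  rw [cost_eq, hop, hse]
  congr 1
  have hsum : ∑ j ∈ (instF φ ψ near κ D hκ h1 h3).clients, c' j = ∑ t, c t := by
    show ∑ j ∈ Finset.univ.map ψ, c' j = ∑ t, c t
    rw [Finset.sum_map]
    exact Finset.sum_congr rfl fun t _ => hc' t
  rw [hsum]
  show ∑ t, (1 + (D - 1) * (if Disjoint (near t) A then (1 : ℝ) else 0)) = _
  rw [Finset.sum_add_distrib, ← Finset.mul_sum, Finset.sum_const, Finset.card_univ,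
    nsmul_eq_mul, mul_one]
  have hun : (Fintype.card T : ℝ) * unc near A =
      ∑ t : T, (if Disjoint (near t) A then (1 : ℝ) else 0) := by
    unfold unc mean
    by_cases hM : Fintype.card T = 0
    · have : IsEmpty T := Fintype.card_eq_zero_iff.1 hM
      simp
    · have : (Fintype.card T : ℝ) ≠ 0 := Nat.cast_ne_zero.2 hM
      rw [mul_div_cancel₀ _ this]
  rw [← hun]
  ring

theorem unc_graph {V Ω T : Type} [Fintype V] [Fintype Ω] [Fintype T] [Nonempty T]
    (near : T → Finset (V × Ω)) (y : V → Ω) (A : Finset (V × Ω)) (hA : ∀ p, p ∈ A ↔ y p.1 = p.2) :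
    unc near A = 1 - cov near y := by
  classical
  unfold unc cov
  rw [eq_sub_iff_add_eq, ← Pool.Agent.Lib.P325P.mean_add,
    Pool.Agent.Lib.P325P.mean_congr (g := fun _ => 1), Pool.Agent.Lib.P325P.mean_const]
  intro j
  by_cases h : ∃ p ∈ near j, y p.1 = p.2
  · have hd : ¬ Disjoint (near j) A := by
      obtain ⟨p, hp, hp'⟩ := h
      intro hd
      exact Finset.disjoint_left.1 hd hp ((hA p).2 hp')
    rw [if_pos h, if_neg hd, zero_add]
  · have hd : Disjoint (near j) A := by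
      rw [Finset.disjoint_left]
      intro p hp hp'
      exact h ⟨p, hp, (hA p).1 hp'⟩
    rw [if_neg h, if_pos hd, add_zero]

end Pool.Agent.Lib.P47c
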