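import Pool.Agent.Lib.P325h.Defs
import Pool.Agent.Lib.P325P.Fark
import Pool.Agent.Lib.P325P.Es
import Pool.Agent.Lib.P325av.RankAv
import Pool.Agent.Lib.P47c.TDefs

/-!
Module LPC (1.5h; black boxes P325P.farkas, P325av.rankAv, es_sum, es_zero_of_dep). A linear program certifies the lifted
function for few choices of copies only.
PROOF. Follow P325av/GameAv.lean and P325av/LPAv.lean. For every z : V → K: if the program certifies G_z = (X ↦ F (i ↦ X (i, z i)))
≤ s with (w, w0), farkas (y0 = pt of any X) gives l ≥ 0 with w = ∑ l j • A j, ∑ l j c j ≤ s - w0, so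
s - G_z X = μ + ∑ j, l j (c j - A j (pt X)), μ = s - w0 - ∑ l j c j ≥ 0; if not, take l = 0, μ = 0. With I = Option (Fin R),
u = μ or l j, v = 1 or c j - A j (pt X), rankAv applied to the function s - F (≤ 1 as F ≥ 0, s ≤ 1; its components at sets of
more than r vertices vanish: es_sum, and es_zero_of_dep with J = ∅ for the constant, T nonempty), G = the set of the good z,
L = r log card Ω + log (1/τ), gives -((R+1) * B) ≤ ρ * E (s - F) ≤ ρ (s - s1) where ρ = mean of the indicator of good z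
= Nat.card {good z} / card (V → K).
-/

open scoped BigOperators

namespace Pool.Agent.Lib.P47c

open Pool.Agent.Lib.P325h (IsLocalExpectation)
open Pool.Agent.Lib.P325P (es)

theorem lpC {V K Ω : Type} [Fintype V] [DecidableEq V] [Fintype K] [DecidableEq K] [Fintype Ω]
    [Nonempty Ω] [Nonempty K] {r : ℕ} {E : ((V → Ω) → ℝ) →ₗ[ℝ] ℝ} (hE : IsLocalExpectation r E)
    (F : (V → Ω) → ℝ) (hF0 : ∀ y, 0 ≤ F y)
    (hFr : ∀ T : Finset V, r < T.card → ∀ y, es T F y = 0)
    (s s1 : ℝ) (hs : s ≤ 1) (hEF : s1 ≤ E F)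
    {Y : Type} [AddCommGroup Y] [Module ℝ Y] (R : ℕ) (A : Fin R → Y →ₗ[ℝ] ℝ) (c : Fin R → ℝ)
    (pt : (V × K → Ω) → Y) (hpt : ∀ X j, A j (pt X) ≤ c j)
    (τ : ℝ) (hτ : 0 < τ)
    (hT : ∀ j : ℕ, r < 2 * j → 1 < τ * Real.sqrt (Fintype.card K) ^ j)
    (hγ : 4 * (Fintype.card Ω : ℝ) * ((Fintype.card V : ℝ) *
      (Real.exp 1 * (Fintype.card Ω : ℝ) *
        Real.sqrt ((r : ℝ) * Real.log (Fintype.card Ω) + Real.log (1 / τ) + 1) /
        Real.sqrt (Real.sqrt (Fintype.card K)))) ≤ Real.exp (-4)) :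
    (Nat.card {z : V → K // Cert {y | ∀ j, A j y ≤ c j} pt (fun X => F (fun i => X (i, z i))) s} : ℝ)
        * (s1 - s) ≤
      ((R : ℝ) + 1) * (2 * ((2 * (Fintype.card Ω : ℝ) * ((Fintype.card V : ℝ) + 1)) ^ r * τ) +
        Real.exp (-(2 * (r : ℝ)))) * (Fintype.card (V → K) : ℝ) := by
  classical
  set G : (V → K) → Prop := fun z =>
    Cert {y | ∀ j, A j y ≤ c j} pt (fun X => F (fun i => X (i, z i))) s with hG
  have key : ∀ z : V → K, ∃ (l : Fin R → ℝ) (μ : ℝ), (∀ j, 0 ≤ l j) ∧ 0 ≤ μ ∧
      (¬ G z → μ = 0 ∧ ∀ j, l j = 0) ∧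
      (G z → ∀ X : V × K → Ω, s - F (fun i => X (i, z i)) =
        μ + ∑ j, l j * (c j - A j (pt X))) := by
    intro z
    by_cases hC : G z
    · obtain ⟨w, w0, hw1, hw2⟩ := id hC
      obtain ⟨l, hl1, hl2, hl3⟩ := P325P.farkas R A c
        (pt (fun _ => Classical.arbitrary Ω)) (hpt _) w (s - w0)
        (fun y hy => by linarith [hw2 y hy])
      refine ⟨l, s - w0 - ∑ j, l j * c j, hl1, by linarith, fun h => absurd hC h, fun _ X => ?_⟩
      have h2 : w (pt X) + w0 = F (fun i => X (i, z i)) := hw1 X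
      have h3 : w (pt X) = ∑ j, l j * A j (pt X) := by
        rw [hl2]
        simp only [LinearMap.sum_apply, LinearMap.smul_apply, smul_eq_mul]
      have h4 : ∑ j, l j * (c j - A j (pt X)) = ∑ j, l j * c j - ∑ j, l j * A j (pt X) := by
        rw [← Finset.sum_sub_distrib]
        exact Finset.sum_congr rfl fun j _ => by ring
      rw [h4, ← h3, ← h2]
      ring
    · exact ⟨fun _ => 0, 0, fun _ => le_rfl, le_rfl, fun _ => ⟨rfl, fun _ => rfl⟩,
        fun h => absurd h hC⟩
  choose l μ hl hμ h0 hX using key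
  have hFs1 : ∀ y, s - F y ≤ 1 := fun y => by linarith [hF0 y]
  have hFsr : ∀ T : Finset V, r < T.card → ∀ y, es T (fun y => s - F y) y = 0 := by
    intro T hT' y
    have h1 : (fun y => s - F y) = fun x => ∑ j : Bool, (if j then (1 : ℝ) else -1) *
        (if j then (fun _ : V → Ω => s) else F) x := by
      funext x
      rw [Fintype.sum_bool]
      simp only [Bool.false_eq_true, if_true, if_false]
      ring
    rw [h1, P325P.es_sum, Fintype.sum_bool]
    simp only [Bool.false_eq_true, if_true, if_false]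
    rw [hFr T hT' y]
    have h2 : es T (fun _ : V → Ω => s) y = 0 := by
      refine P325P.es_zero_of_dep (J := (∅ : Finset V)) ?_ ?_ y
      · intro x x' _
        rfl
      · intro h
        rw [Finset.subset_empty.1 h, Finset.card_empty] at hT'
        exact absurd hT' (Nat.not_lt_zero _)
    rw [h2]
    ring
  have key2 := P325av.rankAv (V := V) (K := K) (Ω := Ω) hE (fun y => s - F y) hFs1 hFsr
    (I := Option (Fin R))
    (fun o z => o.elim (μ z) (fun j => l z j))
    (fun o x => o.elim 1 (fun j => c j - A j (pt x)))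
    (by
      rintro (_ | j) z
      · exact hμ z
      · exact hl z j)
    (by
      rintro (_ | j) x
      · exact zero_le_one
      · exact sub_nonneg.2 (hpt _ j))
    G
    (by
      rintro (_ | j) z hz
      · exact (h0 z hz).1
      · exact (h0 z hz).2 j)
    (by
      intro z hz x
      have h1 := hX z hz x
      show s - F (fun i => x (i, z i)) = _
      rw [h1, Fintype.sum_option]
      simp only [Option.elim_none, Option.elim_some, mul_one])
    τ ((r : ℝ) * Real.log (Fintype.card Ω) + Real.log (1 / τ)) hτ hT le_rfl hγ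
  rw [Fintype.card_option, Fintype.card_fin] at key2
  have hEF' : E (fun y => s - F y) ≤ s - s1 := by
    have h1 : (fun y => s - F y) = (fun _ => s) - F := rfl
    have h2 : (fun _ : V → Ω => s) = s • fun _ => (1 : ℝ) := by
      ext z; simp
    rw [h1, map_sub, h2, map_smul, hE.one, smul_eq_mul, mul_one]
    linarith
  set B : ℝ := 2 * ((2 * (Fintype.card Ω : ℝ) * ((Fintype.card V : ℝ) + 1)) ^ r * τ) +
      Real.exp (-(2 * (r : ℝ))) with hB
  set ρ : ℝ := P325P.mean (fun z : V → K => if G z then (1 : ℝ) else 0) with hρ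
  have hρ0 : 0 ≤ ρ := by
    rw [hρ]
    unfold P325P.mean
    apply div_nonneg _ (Nat.cast_nonneg _)
    refine Finset.sum_nonneg fun z _ => ?_
    split <;> norm_num
  have hcZ : (0 : ℝ) < (Fintype.card (V → K) : ℝ) := by
    exact_mod_cast Fintype.card_pos_iff.2 ⟨fun _ => Classical.arbitrary K⟩
  have hρc : (Nat.card {z : V → K // G z} : ℝ) = ρ * (Fintype.card (V → K) : ℝ) := by
    rw [hρ]
    unfold P325P.mean
    rw [div_mul_cancel₀ _ hcZ.ne', Finset.sum_boole, Nat.card_eq_fintype_card,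
      Fintype.card_subtype]
  rw [hρc, mul_right_comm]
  refine mul_le_mul_of_nonneg_right ?_ hcZ.le
  have h2 : ρ * E (fun y => s - F y) ≤ ρ * (s - s1) := mul_le_mul_of_nonneg_left hEF' hρ0
  push_cast at key2
  linarith

end Pool.Agent.Lib.P47c
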