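import Pool.Agent.Lib.P47c.Defs

/-!
Instances of clustering problems, and convex programs with assignment variables.
-/

open scoped BigOperators

namespace Pool.Agent.Lib.P47c

/-- The space in which the facility `i` of `d` has the new name `g i` and the client `j` of `d` has
the new name `h j`. -/
def Space.renameBoth {m M : ℕ} (d : Space m M) (g : Equiv.Perm (Fin m)) (h : Equiv.Perm (Fin M)) :
    Space m M where
  dist x y := d.dist (Sum.map g.symm h.symm x) (Sum.map g.symm h.symm y)
  dist_self _ := d.dist_self _
  dist_pos _ _ hxy := d.dist_pos _ _ fun h' => hxy ((Sum.map_injective.2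
    ⟨g.symm.injective, h.symm.injective⟩) h')
  dist_comm _ _ := d.dist_comm _ _
  dist_triangle _ _ _ := d.dist_triangle _ _ _

/-- An instance with facilities `Fin m` whose clients are the elements of a subset of `Fin M`: a
metric and nonnegative opening costs. -/
structure Inst (m M : ℕ) where
  /-- the metric -/
  space : Space m M
  /-- the opening costs -/
  opening : Fin m → ℝ
  opening_nonneg : ∀ i, 0 ≤ opening i
  /-- the clients of the instance -/
  clients : Finset (Fin M)

/-- The cost of the set `S` of open facilities: the opening costs, and for every client of the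
instance the distance to the nearest open facility. -/
noncomputable def Inst.cost {m M : ℕ} (I : Inst m M) (S : Finset (Fin m)) : ℝ :=
  ∑ i ∈ S, I.opening i + ∑ j ∈ I.clients, ⨅ i : S, I.space.dist (Sum.inl i.1) (Sum.inr j)

/-- The minimum cost of a set with the property `Sol`. -/
noncomputable def Inst.opt {m M : ℕ} (I : Inst m M) (Sol : Finset (Fin m) → Prop) : ℝ :=
  ⨅ S : {S : Finset (Fin m) // Sol S}, I.cost S.1

/-- The instance in which the facility `i` of `I` has the new name `g i` and the client `j` has the
new name `h j`. -/
def Inst.rename {m M : ℕ} (I : Inst m M) (g : Equiv.Perm (Fin m)) (h : Equiv.Perm (Fin M)) :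
    Inst m M where
  space := I.space.renameBoth g h
  opening i := I.opening (g.symm i)
  opening_nonneg _ := I.opening_nonneg _
  clients := I.clients.map h.toEmbedding

/-- The assignment `σ` sends every client of the instance to a nearest open facility. -/
def Inst.Nearest {m M : ℕ} (I : Inst m M) (S : Finset (Fin m)) (σ : Fin M → Fin m) : Prop :=
  (∀ j, σ j ∈ S) ∧ ∀ j ∈ I.clients, ∀ i ∈ S,
    I.space.dist (Sum.inl (σ j)) (Sum.inr j) ≤ I.space.dist (Sum.inl i) (Sum.inr j)

/-- Every facility has distance 1 or `D` from every client of the instance. -/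
def Inst.TwoDistance {m M : ℕ} (D : ℝ) (I : Inst m M) : Prop :=
  ∀ i, ∀ j ∈ I.clients, I.space.dist (Sum.inl i) (Sum.inr j) = 1 ∨
    I.space.dist (Sum.inl i) (Sum.inr j) = D

/-- The program with the set `Feas` of feasible points, in which the set `S` of open facilities
with the assignment `σ` is the point `pt S σ`, approximates the minimum cost over the solutions
`Sol` within the factor `α`: some affine function `w y + w0`, which is equal to `cost S` at `pt S σ`
whenever `S` is a solution and `σ` sends every client of the instance to a nearest facility in `S`,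
is at least `opt / α` on `Feas`. -/
def Inst.ApproxBy {m M : ℕ} (I : Inst m M) {Y : Type} [AddCommGroup Y] [Module ℝ Y] (Feas : Set Y)
    (pt : Finset (Fin m) → (Fin M → Fin m) → Y) (Sol : Finset (Fin m) → Prop) (α : ℝ) : Prop :=
  ∃ (w : Y →ₗ[ℝ] ℝ) (w0 : ℝ), (∀ S σ, Sol S → I.Nearest S σ → w (pt S σ) + w0 = I.cost S) ∧
    ∀ y ∈ Feas, I.opt Sol / α ≤ w y + w0

end Pool.Agent.Lib.P47c
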