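import Pool.Agent.Lib.P325av.Perm
import Pool.Agent.Lib.P47c.Model
import Pool.Agent.Lib.P47c.TDefs
import Pool.Agent.Lib.P47c.BaseC
import Pool.Agent.Lib.P47c.LiftC
import Pool.Agent.Lib.P47c.FI
import Pool.Agent.Lib.P47c.EsCov

/-!
Module FL2 (2h; black boxes baseC, liftC, FI, EsCov, P325av.dbl). The lower bound for facility location (replaces FLow).
PROOF. ξ = ((1+γ)^2 / α - (1+γ)) / 2 > 0. s = 1 - ξ/(D-1): 0 < s < 1 as ξ ≤ γ(1+γ)/2 < γ(2+γ) ≤ γ e^(1+γ) = D - 1.
ε1 = min (α ξ/(D-1)) ((1-√s)/2) > 0, s1 = 1 - ε1 > √s. baseC ε1: k, Q, C, e, n0; WLOG Q ≥ 1 (use Q + 1). liftC k C Q n0 s s1 e gives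
a, m0; for m ≥ m0 (and m ≥ 1): n, K = Fin (n^5); baseC at n: V, M1, near : T = Fin M1 → .., r, E. card ((V × K) × ZMod k) ≤ C n n^5 k ≤ m, so
there is fac : (V × K) × ZMod k ↪ Fin m. φ_z (v, c) = fac ((v, z v), c). sup t : Fin Q → V a map whose range contains the first
coordinates of all elements of near t (V nonempty, (near t).card ≤ Q). M = card (T × (Fin Q → K)) ≤ C n (n^5)^Q ≤ m^(Q+1) (the Q of the
statement is Q + 1), cln : T × (Fin Q → K) ≃ Fin M, ψ_z t = cln (t, fun q => z (sup t q)). κ = γ M1 / card V. I = instF φ_z0 ψ_z0 near κ D, z0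
constant. clients_inst: M1 ≤ C n ≤ m; two_inst. Given a program: P325av.dbl with the group Equiv.Perm (Fin m) × Equiv.Perm (Fin M), Zt = V → K,
P g z = the program approximates (instF φ_z ψ_z).rename g.1 g.2, Q g = the program approximates I.rename g.1 g.2; hP: exists_rename and
rename_rename. hle: fix g; for X : V × K → ZMod k let S_X = {g.1 (fac (p, X p))}, nonempty, and σ_X j = the facility
g.1 (fac ((sup t q, β q), X (sup t q, β q))) ∈ S_X where cln.symm (g.2.symm j) = (t, β) and q : Fin Q is such that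
(sup t q, X (sup t q, β q)) ∈ near t if there is such a q and q = 0 otherwise; pt' X = pt S_X σ_X (S_X, σ_X do not depend on z).
With φ = g.1 ∘ φ_z, ψ = g.2 ∘ ψ_z (rename_inst): nearest_inst holds (if φ p ∈ S_X with p = (v, c) ∈ near t then X (v, z v) = c, v = sup t q for some q,
β = z ∘ sup t, so the chosen q gives an element (sup t q, X (sup t q, z (sup t q))) of near t), so if P g z then
w (pt' X) + w0 = cost S_X = γ M1 + M1 (1 + (D-1)(1 - cov near (i ↦ X (i, z i)))) (cost_inst with A = graph, card A = card V, κ card V = γ M1,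
unc_graph), and opt ≥ M1 ((1+γ)^2 - (D-1) ε1): for every nonempty S, with β = A.card / card V, cost S ≥ M1 (γ β + 1 + (D-1)(e^(-β) - ε1)) and
(D-1) e^(-β) = γ e^(1+γ-β) ≥ γ (2 + γ - β) (Real.add_one_le_exp) (le_ciInf; the index type is nonempty). Hence w y + w0 ≥ opt/α ≥
M1 (1+γ+ξ) on the feasible set ((D-1) ε1/α ≤ ξ), and w' = - w / (M1 (D-1)), w0' = (γ + D - w0/M1)/(D-1) certify cov ≤
(γ + D - (1+γ+ξ))/(D-1) = s for the points pt' X. So {z : P g z} ⊆ {z : Cert ..} and liftC gives the bound.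
Fintype.card (Equiv.Perm (Fin m)) = m.factorial.
-/

open scoped BigOperators

namespace Pool.Agent.Lib.P47c

namespace FL2Aux

/-- The embedding of the pairs of a vertex and a label given by the chosen copies. -/
def emb {V K Ω : Type} {m : ℕ} (fac : (V × K) × Ω ↪ Fin m) (z : V → K) : V × Ω ↪ Fin m where
  toFun p := fac ((p.1, z p.1), p.2)
  inj' := by
    rintro ⟨v, c⟩ ⟨v', c'⟩ h
    have h1 := fac.injective h
    simp only [Prod.mk.injEq] at h1
    rw [h1.1.1, h1.2]

/-- The embedding of the tests given by the chosen copies. -/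
def embT {V K : Type} {M1 Q M : ℕ} (cln : Fin M1 × (Fin (Q + 1) → K) ≃ Fin M)
    (sup : Fin M1 → Fin (Q + 1) → V) (z : V → K) : Fin M1 ↪ Fin M where
  toFun t := cln (t, fun q => z (sup t q))
  inj' := by
    intro t t' h
    exact (Prod.ext_iff.1 (cln.injective h)).1

theorem exists_sup {V : Type} [Nonempty V] (J : Finset V) (Q : ℕ) (h : J.card ≤ Q) :
    ∃ f : Fin (Q + 1) → V, ∀ v ∈ J, ∃ q, f q = v := by
  classical
  refine ⟨fun q => if h' : (q : ℕ) < J.card then (J.equivFin.symm ⟨q, h'⟩ : V) else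
    Classical.arbitrary V, fun v hv => ?_⟩
  have h1 : (J.equivFin ⟨v, hv⟩ : ℕ) < J.card := (J.equivFin ⟨v, hv⟩).2
  refine ⟨⟨(J.equivFin ⟨v, hv⟩ : ℕ), by omega⟩, ?_⟩
  simp only [h1, dite_true, Fin.eta, Equiv.symm_apply_apply]

/-- The solution given by a labeling of the copies. -/
noncomputable def sol {P Ω : Type} [Fintype P] {m : ℕ} (fac : P × Ω ↪ Fin m)
    (g : Equiv.Perm (Fin m)) (X : P → Ω) : Finset (Fin m) :=
  Finset.univ.image (fun p => g (fac (p, X p)))

theorem sol_nonempty {P Ω : Type} [Fintype P] [Nonempty P] {m : ℕ} (fac : P × Ω ↪ Fin m)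
    (g : Equiv.Perm (Fin m)) (X : P → Ω) : (sol fac g X).Nonempty :=
  Finset.Nonempty.image Finset.univ_nonempty _

theorem mem_sol {V K Ω : Type} [Fintype V] [Fintype K] {m : ℕ} (fac : (V × K) × Ω ↪ Fin m)
    (g : Equiv.Perm (Fin m)) (z : V → K) (X : V × K → Ω) (p : V × Ω) :
    ((emb fac z).trans g.toEmbedding) p ∈ sol fac g X ↔ X (p.1, z p.1) = p.2 := by
  unfold sol
  rw [Finset.mem_image]
  constructor
  · rintro ⟨q, _, hq⟩
    have h1 : fac (q, X q) = fac ((p.1, z p.1), p.2) := g.injective hq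
    have h2 := fac.injective h1
    simp only [Prod.mk.injEq] at h2
    rw [← h2.1]
    exact h2.2
  · intro h
    refine ⟨(p.1, z p.1), Finset.mem_univ _, ?_⟩
    show g (fac ((p.1, z p.1), X (p.1, z p.1))) = g (fac ((p.1, z p.1), p.2))
    rw [h]

/-- The position in the list `s` at which the labeling meets `A`, if there is one. -/
noncomputable def pickq {V K Ω : Type} {Q : ℕ} (A : Finset (V × Ω)) (s : Fin (Q + 1) → V)
    (β : Fin (Q + 1) → K) (X : V × K → Ω) : Fin (Q + 1) := by
  classical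
  exact if h : ∃ q, (s q, X (s q, β q)) ∈ A then h.choose else 0

theorem pickq_spec {V K Ω : Type} {Q : ℕ} (A : Finset (V × Ω)) (s : Fin (Q + 1) → V)
    (β : Fin (Q + 1) → K) (X : V × K → Ω) (h : ∃ q, (s q, X (s q, β q)) ∈ A) :
    (s (pickq A s β X), X (s (pickq A s β X), β (pickq A s β X))) ∈ A := by
  have h1 : pickq A s β X = h.choose := by
    unfold pickq
    exact dif_pos h
  rw [h1]
  exact h.choose_spec

/-- The facility to which the client `j` is assigned. -/
noncomputable def asg {V K Ω : Type} {m M1 Q M : ℕ} (fac : (V × K) × Ω ↪ Fin m)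
    (near : Fin M1 → Finset (V × Ω)) (sup : Fin M1 → Fin (Q + 1) → V)
    (cln : Fin M1 × (Fin (Q + 1) → K) ≃ Fin M) (g : Equiv.Perm (Fin m)) (h : Equiv.Perm (Fin M))
    (X : V × K → Ω) (j : Fin M) : Fin m :=
  (fun (t : Fin M1) (β : Fin (Q + 1) → K) => (fun v : V × K => g (fac (v, X v)))
    (sup t (pickq (near t) (sup t) β X), β (pickq (near t) (sup t) β X)))
    (cln.symm (h.symm j)).1 (cln.symm (h.symm j)).2

theorem asg_mem {V K Ω : Type} [Fintype V] [Fintype K] {m M1 Q M : ℕ} (fac : (V × K) × Ω ↪ Fin m)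
    (near : Fin M1 → Finset (V × Ω)) (sup : Fin M1 → Fin (Q + 1) → V)
    (cln : Fin M1 × (Fin (Q + 1) → K) ≃ Fin M) (g : Equiv.Perm (Fin m)) (h : Equiv.Perm (Fin M))
    (X : V × K → Ω) (j : Fin M) : asg fac near sup cln g h X j ∈ sol fac g X :=
  Finset.mem_image_of_mem (fun v : V × K => g (fac (v, X v))) (Finset.mem_univ _)

theorem asg_near {V K Ω : Type} [Fintype V] [Fintype K] {m M1 Q M : ℕ}
    (fac : (V × K) × Ω ↪ Fin m) (near : Fin M1 → Finset (V × Ω)) (sup : Fin M1 → Fin (Q + 1) → V)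
    (hsup : ∀ t, ∀ p ∈ near t, ∃ q, sup t q = p.1)
    (cln : Fin M1 × (Fin (Q + 1) → K) ≃ Fin M) (g : Equiv.Perm (Fin m)) (h : Equiv.Perm (Fin M))
    (z : V → K) (X : V × K → Ω) (t : Fin M1)
    (ht : ∃ p ∈ near t, ((emb fac z).trans g.toEmbedding) p ∈ sol fac g X) :
    ∃ p ∈ near t, ((emb fac z).trans g.toEmbedding) p =
      asg fac near sup cln g h X (((embT cln sup z).trans h.toEmbedding) t) := by
  obtain ⟨p, hp, hpS⟩ := ht
  rw [mem_sol] at hpS
  obtain ⟨q, hq⟩ := hsup t p hp
  have h1 : ∃ q, (sup t q, X (sup t q, (fun q => z (sup t q)) q)) ∈ near t := by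
    refine ⟨q, ?_⟩
    dsimp only
    rw [hq, hpS]
    exact hp
  have h2 := pickq_spec (near t) (sup t) (fun q => z (sup t q)) X h1
  refine ⟨_, h2, ?_⟩
  have h3 : cln.symm (h.symm (((embT cln sup z).trans h.toEmbedding) t)) =
      (t, fun q => z (sup t q)) := by
    show cln.symm (h.symm (h (cln (t, fun q => z (sup t q))))) = _
    rw [Equiv.symm_apply_apply, Equiv.symm_apply_apply]
  unfold asg
  rw [h3]
  rfl

theorem cost_lower {m M : ℕ} {V Ω T : Type} [Fintype V] [Nonempty V] [Fintype Ω] [Fintype T]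
    (φ : V × Ω ↪ Fin m) (ψ : T ↪ Fin M) (near : T → Finset (V × Ω)) (D γ ε : ℝ) (h1 : 1 < D)
    (h3 : D ≤ 3) (hγ0 : 0 < γ) (hγ : γ * Real.exp (1 + γ) = D - 1)
    (hκ : 0 ≤ γ * Fintype.card T / Fintype.card V)
    (hunc : ∀ A : Finset (V × Ω),
      Real.exp (-((A.card : ℝ) / Fintype.card V)) - ε ≤ unc near A)
    (S : Finset (Fin m)) (hS : S.Nonempty) :
    (Fintype.card T : ℝ) * ((1 + γ) ^ 2 - (D - 1) * ε) ≤
      (instF φ ψ near (γ * Fintype.card T / Fintype.card V) D hκ h1.le h3).cost S := by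
  classical
  rw [cost_inst φ ψ near _ D hκ h1.le h3 S hS (Finset.univ.filter (fun p => φ p ∈ S))
    (fun p => by rw [Finset.mem_filter]; exact ⟨fun h => h.2, fun h => ⟨Finset.mem_univ _, h⟩⟩)]
  set A := Finset.univ.filter (fun p => φ p ∈ S) with hA
  have hV : (0 : ℝ) < Fintype.card V := by exact_mod_cast Fintype.card_pos
  set β := (A.card : ℝ) / Fintype.card V with hβ
  have e1 : γ * Fintype.card T / Fintype.card V * A.card = Fintype.card T * (γ * β) := by
    rw [hβ]
    field_simp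
  rw [e1]
  have h4 := hunc A
  have h5 : γ * (2 + γ - β) ≤ (D - 1) * Real.exp (-β) := by
    rw [← hγ, mul_assoc, ← Real.exp_add]
    apply mul_le_mul_of_nonneg_left _ hγ0.le
    have := Real.add_one_le_exp (1 + γ + -β)
    linarith
  have h6 : (D - 1) * (Real.exp (-β) - ε) ≤ (D - 1) * unc near A :=
    mul_le_mul_of_nonneg_left h4 (by linarith)
  have hM : (0 : ℝ) ≤ Fintype.card T := Nat.cast_nonneg _
  have h7 : (1 + γ) ^ 2 - (D - 1) * ε ≤ γ * β + (1 + (D - 1) * unc near A) := by nlinarith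
  calc (Fintype.card T : ℝ) * ((1 + γ) ^ 2 - (D - 1) * ε) ≤
        Fintype.card T * (γ * β + (1 + (D - 1) * unc near A)) :=
        mul_le_mul_of_nonneg_left h7 hM
    _ = _ := by ring

theorem cost_sol {m M : ℕ} {V K Ω T : Type} [Fintype V] [Nonempty V] [Fintype K] [Nonempty K]
    [Fintype Ω] [Fintype T] [Nonempty T] (fac : (V × K) × Ω ↪ Fin m) (g : Equiv.Perm (Fin m))
    (z : V → K) (ψ : T ↪ Fin M) (near : T → Finset (V × Ω)) (D γ : ℝ) (h1 : 1 < D) (h3 : D ≤ 3)
    (hκ : 0 ≤ γ * Fintype.card T / Fintype.card V) (X : V × K → Ω) :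
    (instF ((emb fac z).trans g.toEmbedding) ψ near (γ * Fintype.card T / Fintype.card V) D hκ
      h1.le h3).cost (sol fac g X) =
      γ * Fintype.card T +
        Fintype.card T * (1 + (D - 1) * (1 - cov near (fun i => X (i, z i)))) := by
  classical
  have hA : ∀ p : V × Ω, p ∈ Finset.univ.image (fun v : V => (v, X (v, z v))) ↔
      (fun i => X (i, z i)) p.1 = p.2 := by
    rintro ⟨v, c⟩
    simp only [Finset.mem_image, Finset.mem_univ, true_and, Prod.mk.injEq]
    constructor
    · rintro ⟨v', h, h'⟩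
      rw [← h, h']
    · intro h
      exact ⟨v, rfl, h⟩
  rw [cost_inst ((emb fac z).trans g.toEmbedding) ψ near _ D hκ h1.le h3 (sol fac g X)
    (sol_nonempty fac g X) (Finset.univ.image (fun v : V => (v, X (v, z v))))
    (fun p => by rw [hA p, mem_sol])]
  rw [unc_graph near (fun i => X (i, z i)) _ hA]
  rw [Finset.card_image_of_injective _ (fun v v' h => (Prod.ext_iff.1 h).1), Finset.card_univ]
  have hV : (0 : ℝ) < Fintype.card V := by exact_mod_cast Fintype.card_pos
  field_simp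

end FL2Aux

open FL2Aux

theorem fLow (D γ : ℝ) (hD : 1 < D) (hD3 : D ≤ 3) (hγ0 : 0 < γ)
    (hγ : γ * Real.exp (1 + γ) = D - 1) (α : ℝ) (hα1 : 1 ≤ α) (hα : α < 1 + γ) :
    ∃ (Q : ℕ) (a : ℝ), 0 < a ∧ ∃ m0 : ℕ, ∀ m ≥ m0, ∃ (M : ℕ) (I : Inst m M), M ≤ m ^ Q ∧
      I.clients.card ≤ m ∧ I.TwoDistance D ∧
      ∀ (Y : Type) [AddCommGroup Y] [Module ℝ Y] (R d : ℕ)
        (A : Fin R → Y →ₗ[ℝ] (Fin d → ℝ)) (C : Fin R → Set (Fin d → ℝ))
        (pt : Finset (Fin m) → (Fin M → Fin m) → Y),
        (R : ℝ) ≤ Real.exp ((m : ℝ) ^ a) → (d : ℝ) ≤ (m : ℝ) ^ a → (∀ i, Convex ℝ (C i)) →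
        (∀ S σ, S.Nonempty → (∀ j, σ j ∈ S) → ∀ i, A i (pt S σ) ∈ C i) →
        (Nat.card {g : Equiv.Perm (Fin m) × Equiv.Perm (Fin M) //
          (I.rename g.1 g.2).ApproxBy {y | ∀ i, A i y ∈ C i} pt (fun S => S.Nonempty) α} : ℝ) ≤
          Real.exp (-(m : ℝ) ^ a) * (m.factorial * M.factorial) := by
  classical
  have hα0 : 0 < α := by linarith
  have hD1 : 0 < D - 1 := by linarith
  have hγ1 : 0 < 1 + γ := by linarith
  set ξ := ((1 + γ) ^ 2 / α - (1 + γ)) / 2 with hξ
  have hξ0 : 0 < ξ := by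
    have h1 : 1 + γ < (1 + γ) ^ 2 / α := by
      rw [lt_div_iff₀ hα0]
      nlinarith
    rw [hξ]
    linarith
  have hγD : γ * (2 + γ) ≤ D - 1 := by
    rw [← hγ]
    apply mul_le_mul_of_nonneg_left _ hγ0.le
    have := Real.add_one_le_exp (1 + γ)
    linarith
  have hξD : ξ < D - 1 := by
    have h1 : (1 + γ) ^ 2 / α ≤ (1 + γ) ^ 2 := div_le_self (sq_nonneg _) hα1
    have h2 : ξ ≤ ((1 + γ) ^ 2 - (1 + γ)) / 2 := by
      rw [hξ]
      linarith
    nlinarith
  set s := 1 - ξ / (D - 1) with hs_def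
  have hr0 : 0 < ξ / (D - 1) := div_pos hξ0 hD1
  have hr1 : ξ / (D - 1) < 1 := (div_lt_one hD1).2 hξD
  have hs0 : 0 < s := by rw [hs_def]; linarith
  have hs : s < 1 := by rw [hs_def]; linarith
  have hsq : Real.sqrt s < 1 := by
    rw [Real.sqrt_lt' one_pos]
    linarith
  set ε1 := min (α * ξ / (D - 1)) ((1 - Real.sqrt s) / 2) with hε1
  have hε0 : 0 < ε1 := lt_min (by positivity) (by linarith)
  have hεa : ε1 ≤ α * ξ / (D - 1) := min_le_left _ _
  have hεb : ε1 ≤ (1 - Real.sqrt s) / 2 := min_le_right _ _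
  obtain ⟨k, Q, C, e, hk, hC, he0, he4, n0, hbase⟩ := baseC ε1 hε0
  have : NeZero k := ⟨by omega⟩
  obtain ⟨a, ha, m0, hlift⟩ := liftC k C (Q + 1) n0 hC s (1 - ε1) e hs0 hs (by linarith) he0 he4
  refine ⟨Q + 1 + 1, a, ha, m0, fun m hm => ?_⟩
  obtain ⟨n, hn0, hn1, hnm, hlift⟩ := hlift m hm
  obtain ⟨V, fV, M1, near, r, E, hVne, hM, hMn, hVn, hnear, hre, hE, hcov, hunc⟩ := hbase n hn0
  have hn5 : 1 ≤ n ^ 5 := Nat.one_le_pow _ _ (by omega)
  have hcard : Fintype.card ((V × Fin (n ^ 5)) × ZMod k) ≤ Fintype.card (Fin m) := by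
    rw [Fintype.card_prod, Fintype.card_prod, Fintype.card_fin, ZMod.card, Fintype.card_fin]
    refine le_trans ?_ hnm
    gcongr
  have hM1m : M1 ≤ m := by
    calc M1 ≤ C * n := hMn
      _ ≤ C * n * (n ^ 5 * k) := Nat.le_mul_of_pos_right _ (by positivity)
      _ = C * n * n ^ 5 * k := by ring
      _ ≤ m := hnm
  have hn5m : n ^ 5 ≤ m := by
    calc n ^ 5 ≤ n ^ 5 * (C * n * k) := Nat.le_mul_of_pos_right _ (by positivity)
      _ = C * n * n ^ 5 * k := by ring
      _ ≤ m := hnm
  obtain ⟨fac⟩ := Function.Embedding.nonempty_of_card_le hcard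
  have : Nonempty (Fin (n ^ 5)) := ⟨⟨0, by omega⟩⟩
  have : Nonempty (Fin M1) := ⟨⟨0, hM⟩⟩
  let z0 : V → Fin (n ^ 5) := fun _ => ⟨0, by omega⟩
  have hVp : (0 : ℝ) < Fintype.card V := by exact_mod_cast Fintype.card_pos
  have hMp : (0 : ℝ) < Fintype.card (Fin M1) := by exact_mod_cast Fintype.card_pos
  have hκ : 0 ≤ γ * Fintype.card (Fin M1) / Fintype.card V := by positivity
  have hsupE : ∀ t : Fin M1, ∃ f : Fin (Q + 1) → V, ∀ p ∈ near t, ∃ q, f q = p.1 := by
    intro t
    obtain ⟨f, hf⟩ := exists_sup ((near t).image Prod.fst) Q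
      (Finset.card_image_le.trans (hnear t))
    exact ⟨f, fun p hp => hf p.1 (Finset.mem_image_of_mem _ hp)⟩
  choose sup hsup using hsupE
  set M := Fintype.card (Fin M1 × (Fin (Q + 1) → Fin (n ^ 5))) with hMdef
  let cln : Fin M1 × (Fin (Q + 1) → Fin (n ^ 5)) ≃ Fin M := Fintype.equivFin _
  refine ⟨M, instF (emb fac z0) (embT cln sup z0) near
    (γ * Fintype.card (Fin M1) / Fintype.card V) D hκ hD.le hD3, ?_, ?_, two_inst _ _ near _ D hκ
    hD.le hD3, ?_⟩
  · rw [hMdef, Fintype.card_prod, Fintype.card_fin, Fintype.card_fun, Fintype.card_fin,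
      Fintype.card_fin, pow_succ m, mul_comm]
    exact Nat.mul_le_mul (Nat.pow_le_pow_left hn5m _) hM1m
  · rw [clients_inst, Fintype.card_fin]
    exact hM1m
  intro Y _ _ R d A K pt hR hd hK hpt
  have hGc : (Fintype.card (Equiv.Perm (Fin m) × Equiv.Perm (Fin M)) : ℝ) =
      (m.factorial : ℝ) * (M.factorial : ℝ) := by
    rw [Fintype.card_prod, Fintype.card_perm, Fintype.card_perm, Fintype.card_fin,
      Fintype.card_fin]
    push_cast
    rfl
  have key := Pool.Agent.Lib.P325av.dbl (G := Equiv.Perm (Fin m) × Equiv.Perm (Fin M))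
    (Zt := V → Fin (n ^ 5))
    (fun g z => ((instF (emb fac z) (embT cln sup z) near
      (γ * Fintype.card (Fin M1) / Fintype.card V) D hκ hD.le hD3).rename g.1 g.2).ApproxBy
      {y | ∀ j, A j y ∈ K j} pt (fun S => S.Nonempty) α)
    (fun g => ((instF (emb fac z0) (embT cln sup z0) near
      (γ * Fintype.card (Fin M1) / Fintype.card V) D hκ hD.le hD3).rename g.1 g.2).ApproxBy
      {y | ∀ j, A j y ∈ K j} pt (fun S => S.Nonempty) α)
    ?_ (Real.exp (-(m : ℝ) ^ a)) ?_
  · rw [hGc] at key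
    exact key
  · intro z
    obtain ⟨h, h', hh⟩ := exists_rename (emb fac z0) (emb fac z) (embT cln sup z0)
      (embT cln sup z) near (γ * Fintype.card (Fin M1) / Fintype.card V) D hκ hD.le hD3
    refine ⟨(h, h'), fun g => ?_⟩
    rw [hh, rename_rename]
    rfl
  · intro g
    have h1 := hlift V hVn (cov near) (fun y => ?_) (fun T hT y => es_cov near (Q + 1)
      (fun j => (hnear j).trans (Nat.le_succ _)) T hT y) r E
      hE hre hcov Y R d A K (fun X => pt (sol fac g.1 X) (asg fac near sup cln g.1 g.2 X)) hR hd hK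
      (fun X j => hpt _ _ (sol_nonempty fac g.1 X) (fun i => asg_mem fac near sup cln g.1 g.2 X i) j)
    · refine le_trans ?_ h1
      have h2 : Nat.card {z // ((instF (emb fac z) (embT cln sup z) near
          (γ * Fintype.card (Fin M1) / Fintype.card V) D hκ hD.le hD3).rename g.1 g.2).ApproxBy
          {y | ∀ j, A j y ∈ K j} pt (fun S => S.Nonempty) α} ≤
          Nat.card {z : V → Fin (n ^ 5) // Cert {y | ∀ j, A j y ∈ K j}
            (fun X : V × Fin (n ^ 5) → ZMod k =>
              pt (sol fac g.1 X) (asg fac near sup cln g.1 g.2 X))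
            (fun X => cov near (fun i => X (i, z i))) s} := by
        refine Nat.card_le_card_of_injective (fun z => ⟨z.1, ?_⟩) ?_
        · obtain ⟨w, w0, hw1, hw2⟩ := z.2
          rw [rename_inst] at hw1 hw2
          have hopt : (Fintype.card (Fin M1) : ℝ) * ((1 + γ) ^ 2 - (D - 1) * ε1) ≤
              (instF ((emb fac z.1).trans g.1.toEmbedding)
                ((embT cln sup z.1).trans g.2.toEmbedding) near
                (γ * Fintype.card (Fin M1) / Fintype.card V) D hκ hD.le hD3).opt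
                (fun S => S.Nonempty) := by
            have : Nonempty {S : Finset (Fin m) // S.Nonempty} :=
              ⟨⟨sol fac g.1 (fun _ => 0), sol_nonempty fac g.1 _⟩⟩
            exact le_ciInf fun S => cost_lower ((emb fac z.1).trans g.1.toEmbedding)
              ((embT cln sup z.1).trans g.2.toEmbedding) near D γ ε1 hD
              hD3 hγ0 hγ hκ hunc S.1 S.2
          refine ⟨(-1 / (Fintype.card (Fin M1) * (D - 1))) • w,
            (γ + D - w0 / Fintype.card (Fin M1)) / (D - 1), fun X => ?_, fun y hy => ?_⟩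
          · have h3 := hw1 (sol fac g.1 X) (asg fac near sup cln g.1 g.2 X)
              (sol_nonempty fac g.1 X)
              (nearest_inst _ _ near _ D hκ hD.le hD3 _ _
                (fun i => asg_mem fac near sup cln g.1 g.2 X i)
                (fun t ht => asg_near fac near sup hsup cln g.1 g.2 z.1 X t ht))
            rw [cost_sol fac g.1 z.1 _ near D γ hD hD3 hκ X] at h3
            rw [LinearMap.smul_apply, smul_eq_mul]
            have h4 : w (pt (sol fac g.1 X) (asg fac near sup cln g.1 g.2 X)) =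
                γ * Fintype.card (Fin M1) + Fintype.card (Fin M1) * (1 + (D - 1) *
                (1 - cov near (fun i => X (i, z.1 i)))) - w0 := by linarith
            rw [h4]
            field_simp
            ring
          · have h3 := hw2 y hy
            have h4 : (Fintype.card (Fin M1) : ℝ) * (1 + γ + ξ) ≤ w y + w0 := by
              refine le_trans ?_ ((div_le_div_of_nonneg_right hopt hα0.le).trans h3)
              rw [mul_div_assoc]
              apply mul_le_mul_of_nonneg_left _ hMp.le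
              rw [sub_div]
              have h5 : (D - 1) * ε1 / α ≤ ξ := by
                rw [div_le_iff₀ hα0]
                calc (D - 1) * ε1 ≤ (D - 1) * (α * ξ / (D - 1)) :=
                      mul_le_mul_of_nonneg_left hεa hD1.le
                  _ = ξ * α := by field_simp
              have h6 : (1 + γ) ^ 2 / α = 1 + γ + 2 * ξ := by
                rw [hξ]
                ring
              rw [h6]
              linarith
            rw [LinearMap.smul_apply, smul_eq_mul]
            have h5 : -1 / (Fintype.card (Fin M1) * (D - 1)) * w y +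
                (γ + D - w0 / Fintype.card (Fin M1)) / (D - 1) =
                (γ + D - (w y + w0) / Fintype.card (Fin M1)) / (D - 1) := by
              field_simp
              ring
            rw [h5, hs_def, div_le_iff₀ hD1]
            have h6 : 1 + γ + ξ ≤ (w y + w0) / Fintype.card (Fin M1) := by
              rw [le_div_iff₀ hMp]
              linarith
            have h7 : (1 - ξ / (D - 1)) * (D - 1) = D - 1 - ξ := by
              field_simp
            rw [h7]
            linarith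
        · intro z z' h
          exact Subtype.ext (by simpa using h)
      exact_mod_cast h2
    · unfold cov
      exact Pool.Agent.Lib.P325P.mean_nonneg (fun j => by split_ifs <;> norm_num)

end Pool.Agent.Lib.P47c
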