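import Pool.Agent.Lib.P47c.ServM

/-!
Module FU (1.5h; black box ServM; helper4's FUp.lean has picks and round1 for Fin M clients, which are reused). The standard linear
program for facility location with two distances.
PROOF. picks and round1: for a finite type J of clients. fU: the standard program:
Y = (Fin m → ℝ) × (Fin m → Fin M → ℝ) with variables y i, x i j, pt S σ = (1_S, (i, j) ↦ [σ j = i]), inequalities -y i ≤ 0, -∑ y ≤ -1,
-x i j ≤ 0, x i j - y i ≤ 0, -∑ i, x i j ≤ -1: m + 1 + 2 m M + M ≤ 2 (m+1) (M+1) inequalities (indexed by a finite type and then by Fin of its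
cardinality). Feasible at pt S σ as σ j ∈ S and S is nonempty. For an instance I: w (y, x) = ∑ i, f i y i + ∑ j ∈ clients, ∑ i, dist i j x i j,
w0 = 0. At pt S σ with σ nearest: serv_nearest. On the feasible set: let N j = {i : dist (inl i) (inr j) = 1} for j ∈ clients, s j = ∑ i ∈ N j, x i j
≤ ∑ i ∈ N j, y i and zz j = max 0 (1 - s j); ∑ i, dist i j x i j = s j + D (∑ i ∉ N j, x i j) ≥ s j + D max 0 (1 - s j) ≥ 1 + (D - 1) zz j, so
w ≥ F + card clients + (D - 1) ∑ zz j; round1 with J = {j // j ∈ clients} gives a nonempty S whose cost (serv_eq: the infimum is 1 if S meets N j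
and D otherwise) is at most (1+γ) times that; opt ≤ cost S (ciInf_le).
-/

open scoped BigOperators

namespace Pool.Agent.Lib.P47c

namespace FUAux

theorem exists_le_avg {ι : Type*} [Fintype ι] (p v : ι → ℝ) (hp : ∀ i, 0 ≤ p i)
    (h1 : ∑ i, p i = 1) : ∃ i, v i ≤ ∑ j, p j * v j := by
  by_contra hcon
  push Not at hcon
  have hex : ∃ i, 0 < p i := by
    by_contra h
    push Not at h
    have h0 : ∑ i, p i = 0 := Finset.sum_eq_zero fun i _ => le_antisymm (h i) (hp i)
    rw [h0] at h1
    norm_num at h1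
  obtain ⟨i0, hi0⟩ := hex
  have h2 : ∑ j, p j * (∑ k, p k * v k) < ∑ j, p j * v j :=
    Finset.sum_lt_sum (fun i _ => mul_le_mul_of_nonneg_left (hcon i).le (hp i))
      ⟨i0, Finset.mem_univ _, mul_lt_mul_of_pos_left (hcon i0) hi0⟩
  rw [← Finset.sum_mul, h1, one_mul] at h2
  exact lt_irrefl _ h2

theorem sum_insert_le {α : Type*} [DecidableEq α] (f : α → ℝ) (hf : ∀ i, 0 ≤ f i) (i : α)
    (S : Finset α) : ∑ k ∈ insert i S, f k ≤ f i + ∑ k ∈ S, f k := by
  by_cases h : i ∈ S
  · rw [Finset.insert_eq_of_mem h]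
    linarith [hf i]
  · rw [Finset.sum_insert h]

theorem ind_insert_le {m : ℕ} {J : Type} [Fintype J] (N : J → Finset (Fin m)) (wt : J → ℝ)
    (i : Fin m) (S : Finset (Fin m)) :
    ∑ j, (if Disjoint (insert i S) (N j) then wt j else 0) ≤
      ∑ j, (if Disjoint S (N j) then (if i ∈ N j then 0 else wt j) else 0) := by
  refine Finset.sum_le_sum fun j _ => ?_
  by_cases h1 : i ∈ N j
  · have h3 : ¬ Disjoint (insert i S) (N j) := fun h =>
      Finset.disjoint_left.1 h (Finset.mem_insert_self i S) h1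
    simp [h1, h3]
  · by_cases h2 : Disjoint S (N j)
    · have h3 : Disjoint (insert i S) (N j) := by
        rw [Finset.disjoint_insert_left]
        exact ⟨h1, h2⟩
      simp [h1, h2]
    · have h3 : ¬ Disjoint (insert i S) (N j) := fun h => by
        rw [Finset.disjoint_insert_left] at h
        exact h2 h.2
      simp [h2, h3]

/-- The weighted sum of the indicators of the clients that are missed by `i`. -/
theorem sum_miss {m : ℕ} (y : Fin m → ℝ) (N : Finset (Fin m)) (a : ℝ) :
    ∑ i, y i * (if i ∈ N then 0 else a) = a * (∑ i, y i - ∑ i ∈ N, y i) := by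
  have h : ∀ i, y i * (if i ∈ N then 0 else a) = a * y i - a * (if i ∈ N then y i else 0) := by
    intro i
    by_cases hi : i ∈ N
    · simp [hi]
    · simp [hi]
      ring
  rw [Finset.sum_congr rfl fun i _ => h i, Finset.sum_sub_distrib, ← Finset.mul_sum,
    ← Finset.mul_sum, Finset.sum_ite_mem, Finset.univ_inter]
  ring



theorem picks {m : ℕ} {J : Type} [Fintype J] (f y : Fin m → ℝ) (hf : ∀ i, 0 ≤ f i) (hy : ∀ i, 0 ≤ y i)
    (N : J → Finset (Fin m)) (θ : ℝ) (hθ : 0 ≤ θ) (hθ1 : θ * ∑ i, y i ≤ 1) (K : ℕ)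
    (wt : J → ℝ) (hw : ∀ j, 0 ≤ wt j) :
    ∃ S : Finset (Fin m), ∑ i ∈ S, f i + ∑ j, (if Disjoint S (N j) then wt j else 0) ≤
      K * θ * ∑ i, f i * y i + ∑ j, wt j * (1 - θ * ∑ i ∈ N j, y i) ^ K := by
  induction K generalizing wt with
  | zero =>
    refine ⟨∅, ?_⟩
    simp
  | succ K ih =>
    have hwi : ∀ (i : Fin m) (j : J), 0 ≤ (if i ∈ N j then (0 : ℝ) else wt j) := by
      intro i j
      split_ifs
      · exact le_rfl
      · exact hw j
    choose S hS using fun i : Fin m => ih (fun j => if i ∈ N j then 0 else wt j) (hwi i)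
    obtain ⟨S0, hS0⟩ := ih wt hw
    set F : ℝ := ∑ i, f i * y i with hF
    set q : J → ℝ := fun j => 1 - θ * ∑ i ∈ N j, y i with hq
    have hS' : ∀ i, ∑ k ∈ S i, f k + ∑ j, (if Disjoint (S i) (N j) then
        (if i ∈ N j then 0 else wt j) else 0) ≤
        K * θ * F + ∑ j, (if i ∈ N j then 0 else wt j) * q j ^ K := hS
    have hS0' : ∑ i ∈ S0, f i + ∑ j, (if Disjoint S0 (N j) then wt j else 0) ≤
        K * θ * F + ∑ j, wt j * q j ^ K := hS0
    let p : Option (Fin m) → ℝ := fun o => o.elim (1 - θ * ∑ i, y i) (fun i => θ * y i)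
    let v : Option (Fin m) → ℝ := fun o => o.elim (K * θ * F + ∑ j, wt j * q j ^ K)
      (fun i => f i + (K * θ * F + ∑ j, (if i ∈ N j then 0 else wt j) * q j ^ K))
    have hp : ∀ o, 0 ≤ p o := by
      intro o
      cases o with
      | none => exact sub_nonneg.2 hθ1
      | some i => exact mul_nonneg hθ (hy i)
    have hp1 : ∑ o, p o = 1 := by
      rw [Fintype.sum_option]
      simp only [p, Option.elim_none, Option.elim_some]
      rw [← Finset.mul_sum]
      ring
    have hpv : ∑ o, p o * v o = ((K + 1 : ℕ) : ℝ) * θ * F + ∑ j, wt j * q j ^ (K + 1) := by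
      rw [Fintype.sum_option]
      simp only [p, v, Option.elim_none, Option.elim_some]
      have e1 : ∑ i, θ * y i * (f i + (K * θ * F + ∑ j, (if i ∈ N j then 0 else wt j) * q j ^ K))
          = θ * F + θ * (∑ i, y i) * (K * θ * F) +
            ∑ j, θ * q j ^ K * (wt j * (∑ i, y i - ∑ i ∈ N j, y i)) := by
        have e2 : ∀ i, θ * y i * (f i + (K * θ * F + ∑ j, (if i ∈ N j then 0 else wt j) * q j ^ K))
            = θ * (f i * y i) + θ * y i * (K * θ * F) +
              ∑ j, θ * q j ^ K * (y i * (if i ∈ N j then 0 else wt j)) := by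
          intro i
          have e3 : ∑ j, θ * q j ^ K * (y i * (if i ∈ N j then 0 else wt j)) =
              θ * y i * ∑ j, (if i ∈ N j then 0 else wt j) * q j ^ K := by
            rw [Finset.mul_sum]
            exact Finset.sum_congr rfl fun j _ => by ring
          rw [e3]
          ring
        rw [Finset.sum_congr rfl fun i _ => e2 i, Finset.sum_add_distrib, Finset.sum_add_distrib,
          ← Finset.mul_sum, Finset.sum_comm]
        congr 1
        · congr 1
          rw [← Finset.sum_mul, ← Finset.mul_sum]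
        · refine Finset.sum_congr rfl fun j _ => ?_
          rw [← Finset.mul_sum, sum_miss]
      rw [e1]
      have e4 : ∑ j, wt j * q j ^ (K + 1) = (1 - θ * ∑ i, y i) * ∑ j, wt j * q j ^ K +
          ∑ j, θ * q j ^ K * (wt j * (∑ i, y i - ∑ i ∈ N j, y i)) := by
        rw [Finset.mul_sum, ← Finset.sum_add_distrib]
        refine Finset.sum_congr rfl fun j _ => ?_
        have e5 : q j ^ (K + 1) = q j ^ K * (1 - θ * ∑ i ∈ N j, y i) := pow_succ _ _
        rw [e5]
        ring
      rw [e4]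
      push_cast
      ring
    obtain ⟨o, ho⟩ := exists_le_avg p v hp hp1
    rw [hpv] at ho
    cases o with
    | none =>
      exact ⟨S0, hS0'.trans ho⟩
    | some i =>
      refine ⟨insert i (S i), ?_⟩
      have h1 := sum_insert_le f hf i (S i)
      have h2 := ind_insert_le N wt i (S i)
      have h3 := hS' i
      have h4 : f i + (K * θ * F + ∑ j, (if i ∈ N j then 0 else wt j) * q j ^ K) ≤
        ((K + 1 : ℕ) : ℝ) * θ * F + ∑ j, wt j * q j ^ (K + 1) := ho
      linarith

end FUAux

open FUAux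

theorem round1 {m : ℕ} {J : Type} [Fintype J] (f y : Fin m → ℝ) (hf : ∀ i, 0 ≤ f i)
    (hy : ∀ i, 0 ≤ y i) (hy1 : 1 ≤ ∑ i, y i) (N : J → Finset (Fin m)) (zz : J → ℝ)
    (hz : ∀ j, 0 ≤ zz j) (hzN : ∀ j, 1 - ∑ i ∈ N j, y i ≤ zz j) (D γ : ℝ) (hD : 1 < D)
    (hγ0 : 0 < γ) (hγ : γ * Real.exp (1 + γ) = D - 1) :
    ∃ S : Finset (Fin m), S.Nonempty ∧
      ∑ i ∈ S, f i + ∑ j, (if Disjoint S (N j) then D else 1) ≤
        (1 + γ) * (∑ i, f i * y i + Fintype.card J + (D - 1) * ∑ j, zz j) := by
  set Y : ℝ := ∑ i, y i with hY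
  have hY0 : 0 < Y := lt_of_lt_of_le one_pos hy1
  obtain ⟨K, hK⟩ := exists_nat_ge ((1 + γ) * Y)
  have hK1 : (1 : ℝ) ≤ K := by nlinarith
  have hK0 : (0 : ℝ) < K := lt_of_lt_of_le one_pos hK1
  set θ : ℝ := (1 + γ - 1 / Y) / K with hθdef
  have hYinv : 1 / Y ≤ 1 := by
    rw [div_le_one hY0]
    exact hy1
  have hθ : 0 ≤ θ := div_nonneg (by linarith) hK0.le
  have hθ1 : θ * Y ≤ 1 := by
    rw [hθdef, div_mul_eq_mul_div, div_le_one hK0]
    have : (1 + γ - 1 / Y) * Y = (1 + γ) * Y - 1 := by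
      field_simp
    rw [this]
    linarith
  have hKθ : K * θ = 1 + γ - 1 / Y := by
    rw [hθdef]
    field_simp
  have hwi : ∀ (i : Fin m) (j : J), 0 ≤ (if i ∈ N j then (0 : ℝ) else (D - 1)) := by
    intro i j
    split_ifs
    · exact le_rfl
    · linarith
  choose S hS using fun i : Fin m => picks f y hf hy N θ hθ hθ1 K
    (fun j => if i ∈ N j then 0 else D - 1) (hwi i)
  set F : ℝ := ∑ i, f i * y i with hF
  set q : J → ℝ := fun j => 1 - θ * ∑ i ∈ N j, y i with hq
  have hS' : ∀ i, ∑ k ∈ S i, f k + ∑ j, (if Disjoint (S i) (N j) then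
      (if i ∈ N j then 0 else D - 1) else 0) ≤
      K * θ * F + ∑ j, (if i ∈ N j then 0 else D - 1) * q j ^ K := hS
  have hyN : ∀ j, ∑ i ∈ N j, y i ≤ Y := fun j =>
    Finset.sum_le_sum_of_subset_of_nonneg (Finset.subset_univ _) fun i _ _ => hy i
  have hyN0 : ∀ j, 0 ≤ ∑ i ∈ N j, y i := fun j => Finset.sum_nonneg fun i _ => hy i
  obtain ⟨i, hi⟩ := exists_le_avg (fun i => y i / Y)
    (fun i => f i + (K * θ * F + ∑ j, (if i ∈ N j then 0 else D - 1) * q j ^ K))
    (fun i => div_nonneg (hy i) hY0.le) (by rw [← Finset.sum_div, ← hY, div_self hY0.ne'])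
  have hav : ∑ i, y i / Y * (f i + (K * θ * F + ∑ j, (if i ∈ N j then 0 else D - 1) * q j ^ K)) =
      1 / Y * F + K * θ * F + ∑ j, (D - 1) * ((1 - (∑ i ∈ N j, y i) / Y) * q j ^ K) := by
    have e2 : ∀ i, y i / Y * (f i + (K * θ * F + ∑ j, (if i ∈ N j then 0 else D - 1) * q j ^ K)) =
        1 / Y * (f i * y i) + y i * (K * θ * F / Y) +
          ∑ j, q j ^ K / Y * (y i * (if i ∈ N j then 0 else D - 1)) := by
      intro i
      have e3 : ∑ j, q j ^ K / Y * (y i * (if i ∈ N j then 0 else D - 1)) =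
          y i / Y * ∑ j, (if i ∈ N j then 0 else D - 1) * q j ^ K := by
        rw [Finset.mul_sum]
        exact Finset.sum_congr rfl fun j _ => by ring
      rw [e3]
      ring
    rw [Finset.sum_congr rfl fun i _ => e2 i, Finset.sum_add_distrib, Finset.sum_add_distrib,
      ← Finset.mul_sum, Finset.sum_comm, ← Finset.sum_mul, ← hY, ← hF]
    congr 1
    · congr 1
      field_simp
    · refine Finset.sum_congr rfl fun j _ => ?_
      rw [← Finset.mul_sum, sum_miss, ← hY]
      field_simp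
  have hi' : f i + (K * θ * F + ∑ j, (if i ∈ N j then 0 else D - 1) * q j ^ K) ≤
      1 / Y * F + K * θ * F + ∑ j, (D - 1) * ((1 - (∑ i ∈ N j, y i) / Y) * q j ^ K) := by
    rw [← hav]
    exact hi
  have hcov : ∀ j, (1 - (∑ i ∈ N j, y i) / Y) * q j ^ K ≤ zz j + Real.exp (-(1 + γ)) := by
    intro j
    set s : ℝ := ∑ i ∈ N j, y i with hs
    have hs0 : 0 ≤ s := hyN0 j
    have hsY : s ≤ Y := hyN j
    have h1 : 1 - s / Y ≤ Real.exp (-(s / Y)) := by
      have := Real.add_one_le_exp (-(s / Y))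
      linarith
    have h1' : 0 ≤ 1 - s / Y := by
      rw [sub_nonneg, div_le_one hY0]
      exact hsY
    have hq1 : q j ≤ Real.exp (-(θ * s)) := by
      have := Real.add_one_le_exp (-(θ * s))
      have e : q j = 1 - θ * s := rfl
      linarith
    have hq0 : 0 ≤ q j := by
      have e : q j = 1 - θ * s := rfl
      have := mul_le_mul_of_nonneg_left hsY hθ
      linarith
    have h2 : q j ^ K ≤ Real.exp (-(θ * s)) ^ K := pow_le_pow_left₀ hq0 hq1 K
    have h3 : (1 - s / Y) * q j ^ K ≤ Real.exp (-(s / Y)) * Real.exp (-(θ * s)) ^ K :=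
      mul_le_mul h1 h2 (pow_nonneg hq0 K) (Real.exp_pos _).le
    have h4 : Real.exp (-(s / Y)) * Real.exp (-(θ * s)) ^ K = Real.exp (-(1 + γ) * s) := by
      rw [← Real.exp_nat_mul, ← Real.exp_add]
      congr 1
      have : (K : ℝ) * -(θ * s) = -(K * θ) * s := by ring
      rw [this, hKθ]
      field_simp
      ring
    rw [h4] at h3
    have hez : (1 : ℝ) * zz j = zz j := one_mul _
    have hE0 : 0 < Real.exp (-(1 + γ)) := Real.exp_pos _
    by_cases hc : 1 ≤ s
    · have h5 : Real.exp (-(1 + γ) * s) ≤ Real.exp (-(1 + γ)) := by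
        apply Real.exp_le_exp.2
        nlinarith
      linarith [hz j]
    · push Not at hc
      -- convexity
      have h6 : Real.exp (-(1 + γ) * s) ≤ (1 - s) * 1 + s * Real.exp (-(1 + γ)) := by
        have hconv := convexOn_exp.2 (Set.mem_univ (0 : ℝ)) (Set.mem_univ (-(1 + γ)))
          (sub_nonneg.2 hc.le) hs0 (by ring : (1 - s) + s = 1)
        simp only [smul_eq_mul, mul_zero, zero_add, Real.exp_zero] at hconv
        rw [mul_comm (-(1 + γ)) s]
        exact hconv
      have h7 : s * Real.exp (-(1 + γ)) ≤ Real.exp (-(1 + γ)) := by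
        nlinarith
      have h8 := hzN j
      linarith
  have hsum : ∑ j, (D - 1) * ((1 - (∑ i ∈ N j, y i) / Y) * q j ^ K) ≤
      (D - 1) * ∑ j, zz j + Fintype.card J * γ := by
    have h1 : ∑ j, (D - 1) * ((1 - (∑ i ∈ N j, y i) / Y) * q j ^ K) ≤
        ∑ j : J, (D - 1) * (zz j + Real.exp (-(1 + γ))) :=
      Finset.sum_le_sum fun j _ => mul_le_mul_of_nonneg_left (hcov j) (by linarith)
    have h2 : ∑ j : J, (D - 1) * (zz j + Real.exp (-(1 + γ))) =
        (D - 1) * ∑ j, zz j + Fintype.card J * ((D - 1) * Real.exp (-(1 + γ))) := by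
      rw [← Finset.mul_sum, Finset.sum_add_distrib, Finset.sum_const, Finset.card_univ,
        nsmul_eq_mul]
      ring
    have h3 : (D - 1) * Real.exp (-(1 + γ)) = γ := by
      rw [← hγ, mul_assoc, ← Real.exp_add]
      simp
    rw [h2, h3] at h1
    exact h1
  refine ⟨insert i (S i), Finset.insert_nonempty _ _, ?_⟩
  have g1 := sum_insert_le f hf i (S i)
  have g2 := ind_insert_le N (fun _ => D - 1) i (S i)
  have g3 := hS' i
  have g4 : ∑ j, (if Disjoint (insert i (S i)) (N j) then D else 1) =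
      Fintype.card J + ∑ j, (if Disjoint (insert i (S i)) (N j) then D - 1 else 0) := by
    have : ∀ j, (if Disjoint (insert i (S i)) (N j) then D else 1) =
        1 + (if Disjoint (insert i (S i)) (N j) then D - 1 else 0) := by
      intro j
      split_ifs <;> ring
    rw [Finset.sum_congr rfl fun j _ => this j, Finset.sum_add_distrib]
    simp
  have hF0 : 0 ≤ F := Finset.sum_nonneg fun i _ => mul_nonneg (hf i) (hy i)
  have hZ0 : 0 ≤ ∑ j, zz j := Finset.sum_nonneg fun j _ => hz j
  have g5 : 1 / Y * F + K * θ * F = (1 + γ) * F := by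
    rw [hKθ]
    ring
  have g6 : 0 ≤ γ * ((D - 1) * ∑ j, zz j) := mul_nonneg hγ0.le (mul_nonneg (by linarith) hZ0)
  rw [g4]
  nlinarith

namespace FUAux

/-- The index type of the inequalities. -/
abbrev JU (m M : ℕ) : Type :=
  Fin m ⊕ Unit ⊕ (Fin m × Fin M) ⊕ (Fin m × Fin M) ⊕ Fin M

/-- The space of the program. -/
abbrev YU (m M : ℕ) : Type := (Fin m → ℝ) × (Fin m → Fin M → ℝ)

/-- The coordinate `y i`. -/
noncomputable def uy (m M : ℕ) (i : Fin m) : YU m M →ₗ[ℝ] ℝ :=
  (LinearMap.proj i).comp (LinearMap.fst ℝ _ _)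

/-- The coordinate `x i j`. -/
noncomputable def ux (m M : ℕ) (i : Fin m) (j : Fin M) : YU m M →ₗ[ℝ] ℝ where
  toFun y := y.2 i j
  map_add' _ _ := rfl
  map_smul' _ _ := rfl

@[simp] theorem uy_apply (m M : ℕ) (i : Fin m) (y : YU m M) : uy m M i y = y.1 i := rfl

@[simp] theorem ux_apply (m M : ℕ) (i : Fin m) (j : Fin M) (y : YU m M) :
    ux m M i j y = y.2 i j := rfl

/-- The left hand sides. -/
noncomputable def AU (m M : ℕ) : JU m M → YU m M →ₗ[ℝ] ℝ
  | Sum.inl i => - uy m M i
  | Sum.inr (Sum.inl _) => - ∑ i, uy m M i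
  | Sum.inr (Sum.inr (Sum.inl p)) => - ux m M p.1 p.2
  | Sum.inr (Sum.inr (Sum.inr (Sum.inl p))) => ux m M p.1 p.2 - uy m M p.1
  | Sum.inr (Sum.inr (Sum.inr (Sum.inr j))) => - ∑ i, ux m M i j

/-- The right hand sides. -/
noncomputable def CU (m M : ℕ) : JU m M → ℝ
  | Sum.inl _ => 0
  | Sum.inr (Sum.inl _) => -1
  | Sum.inr (Sum.inr (Sum.inl _)) => 0
  | Sum.inr (Sum.inr (Sum.inr (Sum.inl _))) => 0
  | Sum.inr (Sum.inr (Sum.inr (Sum.inr _))) => -1

/-- The point of a set and an assignment. -/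
noncomputable def PU (m M : ℕ) (S : Finset (Fin m)) (σ : Fin M → Fin m) : YU m M :=
  (fun i => if i ∈ S then 1 else 0, fun i j => if σ j = i then 1 else 0)

theorem card_JU (m M : ℕ) : Fintype.card (JU m M) ≤ 2 * (m + 1) * (M + 1) := by
  simp only [Fintype.card_sum, Fintype.card_fin, Fintype.card_unit, Fintype.card_prod]
  have h : 2 * (m + 1) * (M + 1) = m * M + m * M + 2 * m + 2 * M + 2 := by ring
  rw [h]
  omega

theorem PU_feasible (m M : ℕ) (S : Finset (Fin m)) (σ : Fin M → Fin m) (hS : S.Nonempty)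
    (hσ : ∀ j, σ j ∈ S) (j : JU m M) : AU m M j (PU m M S σ) ≤ CU m M j := by
  rcases j with i | u | q | q | j
  · simp only [AU, CU, PU, LinearMap.neg_apply, uy_apply, Left.neg_nonpos_iff]
    split_ifs
    · exact zero_le_one
    · exact le_rfl
  · simp only [AU, CU, PU, LinearMap.neg_apply, LinearMap.sum_apply, uy_apply, neg_le_neg_iff]
    rw [Finset.sum_ite_mem, Finset.univ_inter, Finset.sum_const, nsmul_eq_mul, mul_one]
    exact_mod_cast hS.card_pos
  · simp only [AU, CU, PU, LinearMap.neg_apply, ux_apply, Left.neg_nonpos_iff]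
    split_ifs
    · exact zero_le_one
    · exact le_rfl
  · simp only [AU, CU, PU, LinearMap.sub_apply, ux_apply, uy_apply]
    by_cases h : σ q.2 = q.1
    · have h' : q.1 ∈ S := h ▸ hσ q.2
      rw [if_pos h, if_pos h']
      norm_num
    · rw [if_neg h]
      split_ifs <;> norm_num
  · simp only [AU, CU, PU, LinearMap.neg_apply, LinearMap.sum_apply, ux_apply, neg_le_neg_iff]
    rw [Finset.sum_ite_eq]
    simp

end FUAux

theorem fU (D γ : ℝ) (hD : 1 < D) (hγ0 : 0 < γ) (hγ : γ * Real.exp (1 + γ) = D - 1)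
    (m M : ℕ) : ∃ (Y : Type) (_ : AddCommGroup Y) (_ : Module ℝ Y) (R : ℕ)
      (A : Fin R → Y →ₗ[ℝ] ℝ) (c : Fin R → ℝ) (pt : Finset (Fin m) → (Fin M → Fin m) → Y),
      R ≤ 2 * (m + 1) * (M + 1) ∧
      (∀ S σ, S.Nonempty → (∀ j, σ j ∈ S) → ∀ i, A i (pt S σ) ≤ c i) ∧
      ∀ I : Inst m M, I.TwoDistance D →
        I.ApproxBy {y | ∀ i, A i y ≤ c i} pt (fun S => S.Nonempty) (1 + γ) := by
  classical
  let e := Fintype.equivFin (JU m M)
  refine ⟨YU m M, inferInstance, inferInstance, Fintype.card (JU m M), fun j => AU m M (e.symm j),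
    fun j => CU m M (e.symm j), PU m M, card_JU m M,
    fun S σ hS hσ j => PU_feasible m M S σ hS hσ (e.symm j), ?_⟩
  intro I hI
  let N : Fin M → Finset (Fin m) := fun j =>
    Finset.univ.filter (fun i => I.space.dist (Sum.inl i) (Sum.inr j) = 1)
  have hN : ∀ i j, i ∈ N j ↔ I.space.dist (Sum.inl i) (Sum.inr j) = 1 := by
    intro i j
    simp [N]
  -- the cost of a nonempty set
  have hcost : ∀ S : Finset (Fin m), S.Nonempty →
      I.cost S = ∑ i ∈ S, I.opening i + ∑ j ∈ I.clients, (if Disjoint S (N j) then D else 1) := by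
    intro S hS
    rw [cost_eq, serv_eq I.space I.clients S hS (fun j => if Disjoint S (N j) then D else 1)]
    · intro j hj i hi
      by_cases hd : Disjoint S (N j)
      · rw [if_pos hd]
        rcases hI i j hj with h | h
        · exact absurd ((hN i j).2 h) (Finset.disjoint_left.1 hd hi)
        · exact h.ge
      · rw [if_neg hd]
        rcases hI i j hj with h | h
        · exact h.ge
        · rw [h]
          exact hD.le
    · intro j hj
      by_cases hd : Disjoint S (N j)
      · obtain ⟨i, hi⟩ := hS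
        refine ⟨i, hi, ?_⟩
        rw [if_pos hd]
        rcases hI i j hj with h | h
        · exact absurd ((hN i j).2 h) (Finset.disjoint_left.1 hd hi)
        · exact h
      · obtain ⟨i, hiS, hiN⟩ := Finset.not_disjoint_iff.1 hd
        refine ⟨i, hiS, ?_⟩
        rw [if_neg hd]
        exact (hN i j).1 hiN
  refine ⟨∑ i, I.opening i • uy m M i +
    ∑ j ∈ I.clients, ∑ i, I.space.dist (Sum.inl i) (Sum.inr j) • ux m M i j, 0, ?_, ?_⟩
  · intro S σ hS hσ
    rw [cost_eq, serv_nearest I S hS σ hσ]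
    simp only [LinearMap.add_apply, LinearMap.sum_apply, LinearMap.smul_apply, uy_apply, ux_apply,
      smul_eq_mul, PU]
    have h1 : ∑ i, I.opening i * (if i ∈ S then 1 else 0) = ∑ i ∈ S, I.opening i := by
      simp
    have h2 : ∀ j, ∑ i, I.space.dist (Sum.inl i) (Sum.inr j) * (if σ j = i then 1 else 0) =
        I.space.dist (Sum.inl (σ j)) (Sum.inr j) := by
      intro j
      simp
    rw [h1, Finset.sum_congr rfl fun j _ => h2 j, add_zero]
  · intro y hy
    have hy' : ∀ j : JU m M, AU m M j y ≤ CU m M j := by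
      intro j
      have := hy (e j)
      simpa using this
    have hy0 : ∀ i, 0 ≤ y.1 i := by
      intro i
      have := hy' (Sum.inl i)
      simp only [AU, CU, LinearMap.neg_apply, uy_apply] at this
      linarith
    have hy1 : 1 ≤ ∑ i, y.1 i := by
      have := hy' (Sum.inr (Sum.inl ()))
      simp only [AU, CU, LinearMap.neg_apply, LinearMap.sum_apply, uy_apply] at this
      linarith
    have hx0 : ∀ i j, 0 ≤ y.2 i j := by
      intro i j
      have := hy' (Sum.inr (Sum.inr (Sum.inl (i, j))))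
      simp only [AU, CU, LinearMap.neg_apply, ux_apply] at this
      linarith
    have hxy : ∀ i j, y.2 i j ≤ y.1 i := by
      intro i j
      have := hy' (Sum.inr (Sum.inr (Sum.inr (Sum.inl (i, j)))))
      simp only [AU, CU, LinearMap.sub_apply, ux_apply, uy_apply] at this
      linarith
    have hx1 : ∀ j, 1 ≤ ∑ i, y.2 i j := by
      intro j
      have := hy' (Sum.inr (Sum.inr (Sum.inr (Sum.inr j))))
      simp only [AU, CU, LinearMap.neg_apply, LinearMap.sum_apply, ux_apply] at this
      linarith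
    let s : Fin M → ℝ := fun j => ∑ i ∈ N j, y.2 i j
    have hsy : ∀ j, s j ≤ ∑ i ∈ N j, y.1 i := fun j => Finset.sum_le_sum fun i _ => hxy i j
    let J := {j // j ∈ I.clients}
    obtain ⟨S, hS, hval⟩ := round1 (J := J) I.opening y.1 I.opening_nonneg hy0 hy1
      (fun j => N j.1) (fun j => max 0 (1 - s j.1)) (fun j => le_max_left _ _)
      (fun j => le_trans (by linarith [hsy j.1]) (le_max_right _ _)) D γ hD hγ0 hγ
    have hopt : I.opt (fun S => S.Nonempty) ≤ I.cost S := by
      unfold Inst.opt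
      exact ciInf_le (f := fun S : {S : Finset (Fin m) // S.Nonempty} => I.cost S.1)
        (Set.finite_range _).bddBelow ⟨S, hS⟩
    rw [hcost S hS] at hopt
    have hg : 0 < 1 + γ := by linarith
    rw [div_le_iff₀ hg]
    have hw : (∑ i, I.opening i • uy m M i +
        ∑ j ∈ I.clients, ∑ i, I.space.dist (Sum.inl i) (Sum.inr j) • ux m M i j :
          YU m M →ₗ[ℝ] ℝ) y =
        ∑ i, I.opening i * y.1 i +
          ∑ j ∈ I.clients, ∑ i, I.space.dist (Sum.inl i) (Sum.inr j) * y.2 i j := by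
      simp only [LinearMap.add_apply, LinearMap.sum_apply, LinearMap.smul_apply, uy_apply,
        ux_apply, smul_eq_mul]
    rw [hw, add_zero]
    have hsub : ∀ g : Fin M → ℝ, ∑ j : J, g j.1 = ∑ j ∈ I.clients, g j := fun g =>
      Finset.sum_coe_sort I.clients g
    rw [hsub (fun j => if Disjoint S (N j) then D else 1), hsub (fun j => max 0 (1 - s j)),
      Fintype.card_coe] at hval
    -- the distances
    have hdist : ∀ j ∈ I.clients, 1 + (D - 1) * max 0 (1 - s j) ≤
        ∑ i, I.space.dist (Sum.inl i) (Sum.inr j) * y.2 i j := by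
      intro j hj
      have h1 : ∑ i, I.space.dist (Sum.inl i) (Sum.inr j) * y.2 i j =
          ∑ i, y.2 i j + (D - 1) * (∑ i, y.2 i j - s j) := by
        have h2 : s j = ∑ i, (if i ∈ N j then y.2 i j else 0) := by
          simp only [s]
          rw [Finset.sum_ite_mem, Finset.univ_inter]
        rw [h2, ← Finset.sum_sub_distrib, Finset.mul_sum, ← Finset.sum_add_distrib]
        refine Finset.sum_congr rfl fun i _ => ?_
        by_cases hi : i ∈ N j
        · rw [if_pos hi, (hN i j).1 hi]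
          ring
        · rw [if_neg hi]
          rcases hI i j hj with h | h
          · exact absurd ((hN i j).2 h) hi
          · rw [h]
            ring
      have h3 : s j ≤ ∑ i, y.2 i j :=
        Finset.sum_le_sum_of_subset_of_nonneg (Finset.subset_univ _) fun i _ _ => hx0 i j
      have h4 : max 0 (1 - s j) ≤ ∑ i, y.2 i j - s j :=
        max_le (by linarith) (by linarith [hx1 j])
      have h5 : (D - 1) * max 0 (1 - s j) ≤ (D - 1) * (∑ i, y.2 i j - s j) :=
        mul_le_mul_of_nonneg_left h4 (by linarith)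
      rw [h1]
      linarith [hx1 j]
    have hdist' : (I.clients.card : ℝ) + (D - 1) * ∑ j ∈ I.clients, max 0 (1 - s j) ≤
        ∑ j ∈ I.clients, ∑ i, I.space.dist (Sum.inl i) (Sum.inr j) * y.2 i j := by
      have h1 := Finset.sum_le_sum hdist
      rw [Finset.sum_add_distrib, Finset.sum_const, nsmul_eq_mul, mul_one, ← Finset.mul_sum] at h1
      exact h1
    calc I.opt (fun S => S.Nonempty) ≤ _ := hopt
      _ ≤ _ := hval
      _ ≤ (1 + γ) * (∑ i, I.opening i * y.1 i +
          ∑ j ∈ I.clients, ∑ i, I.space.dist (Sum.inl i) (Sum.inr j) * y.2 i j) :=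
        mul_le_mul_of_nonneg_left (by linarith) hg.le
      _ = _ := by ring

end Pool.Agent.Lib.P47c
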