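import Mathlib

/-!
The solution of `γ * exp (1 + γ) = D - 1`.
-/

namespace Pool.Agent.Lib.P47c

theorem exists_gamma (D : ℝ) (hD : 1 < D) : ∃ γ : ℝ, 0 < γ ∧ γ * Real.exp (1 + γ) = D - 1 := by
  have hcont : ContinuousOn (fun x : ℝ => x * Real.exp (1 + x)) (Set.Icc 0 (D - 1)) := by
    apply Continuous.continuousOn
    fun_prop
  have h0 : (fun x : ℝ => x * Real.exp (1 + x)) 0 = 0 := by simp
  have h1 : D - 1 ≤ (fun x : ℝ => x * Real.exp (1 + x)) (D - 1) := by
    have h2 : 1 ≤ Real.exp (1 + (D - 1)) := Real.one_le_exp (by linarith)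
    show D - 1 ≤ (D - 1) * Real.exp (1 + (D - 1))
    nlinarith
  obtain ⟨x, hx, hx2⟩ := intermediate_value_Icc (by linarith : (0 : ℝ) ≤ D - 1) hcont
    (show D - 1 ∈ Set.Icc _ _ from ⟨by simp only [zero_mul]; linarith, h1⟩)
  refine ⟨x, lt_of_le_of_ne hx.1 ?_, hx2⟩
  rintro rfl
  simp only [zero_mul] at hx2
  linarith

theorem exp_lt : Real.exp 1.463 < 2 / 0.463 := by
  have h1 : Real.exp 1.463 = Real.exp 1 * Real.exp 0.463 := by
    rw [← Real.exp_add]
    norm_num
  have h2 := Real.exp_bound' (x := 0.463) (by norm_num) (by norm_num) (n := 7) (by norm_num)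
  have h3 := Real.exp_one_lt_d9
  have h4 : Real.exp 0.463 < 1.5889 := by
    refine lt_of_le_of_lt h2 ?_
    simp only [Finset.sum_range_succ, Finset.sum_range_zero, Nat.factorial]
    norm_num
  rw [h1]
  calc Real.exp 1 * Real.exp 0.463 < 2.7182818286 * 1.5889 := by
        apply mul_lt_mul h3 h4.le (Real.exp_pos _) (by norm_num)
    _ < 2 / 0.463 := by norm_num

theorem gamma_gt (γ : ℝ) (hγ0 : 0 < γ) (hγ : γ * Real.exp (1 + γ) = 2) : 0.463 < γ := by
  by_contra h
  push Not at h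
  have h1 : Real.exp (1 + γ) ≤ Real.exp 1.463 := Real.exp_le_exp.2 (by linarith)
  have h2 := exp_lt
  have h3 : γ * Real.exp (1 + γ) < 0.463 * (2 / 0.463) := by
    have h4 : Real.exp (1 + γ) < 2 / 0.463 := lt_of_le_of_lt h1 h2
    have h5 := Real.exp_pos (1 + γ)
    nlinarith
  rw [hγ] at h3
  norm_num at h3

end Pool.Agent.Lib.P47c
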