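import Pool.Agent.Lib.P325P.Base
import Pool.Agent.Lib.P325av.Perm
import Pool.Agent.Lib.P47c.Glue
import Pool.Agent.Lib.P47c.ServM
import Pool.Agent.Lib.P47c.TDefs

/-!
Module KI (2.5h; black boxes P325P.Base, P325av.exists_perm, Glue, ServM). The instances for k-median (replaces KInst).
PROOF. rename_instK: ext; the group function of (Φ.trans g, ψ.trans h) at x is the group function of (Φ, ψ) at Sum.map g.symm h.symm x
(Function.extend (g ∘ Φ) f c i = Function.extend Φ f c (g.symm i): by cases whether g.symm i is in the range of Φ,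
Function.Injective.extend_apply and Function.extend_apply'; the same for clients), and nearK, twoDist, eqSpace are compatible with renaming
(cases on the group). exists_renameK: exists_perm for Φ, Φ' and for ψ, ψ', and rename_instK.
Distances of the client ψ (inr u): τ from Φ (inr u, c) (same group; a facility and a client are different points), H from all others. Distances of
ψ (inl t): 1 from Φ (inl v, c) with (v, c) ∈ near t, 3 from the other Φ (inl v, c), H ≥ 3 from all others.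
cost_instK: serv_eq; A is nonempty and every u has some Φ (inr u, c) ∈ S. The sum over the clients (the image of ψ, Finset.sum_map) is split by
Fintype.sum_sum_type; ∑ t, (1 + 2 [Disjoint (near t) A]) = card T * (1 + 2 * unc near A). nearest_instK: from the distances.
lower_instK: if for some u no Φ (inr u, c) is in S, then the client ψ (inr u) has distance H from all i ∈ S (different groups): serv_ge_one.
Otherwise choose c u for every u; the facilities Φ (inl v, c), (v, c) ∈ A, and Φ (inr u, c u) are different elements of S, so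
A.card + card U ≤ S.card ≤ card V + card U; and serv_ge with the values 1 or 3 for the clients ψ (inl t) (A may be empty) and 0 for ψ (inr u).
All opening costs are 0.
-/

open scoped BigOperators

namespace Pool.Agent.Lib.P47c

open Pool.Agent.Lib.P325P (mean)

variable {m M : ℕ} {V U Ω T : Type}

/-- The group of a point: `some none` for the facilities `Φ (v, c)` with `v : V` and the clients
`ψ t` with `t : T`, `some (some u)` for the facilities `Φ (u, c)` and the client `ψ u` with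
`u : U`, and `none` for all other points. -/
noncomputable def grpK (Φ : (V ⊕ U) × Ω ↪ Fin m) (ψ : T ⊕ U ↪ Fin M) :
    Fin m ⊕ Fin M → Option (Option U) :=
  Sum.elim
    (Function.extend Φ (fun p => Sum.elim (fun _ => some none) (fun u => some (some u)) p.1)
      (fun _ => none))
    (Function.extend ψ (Sum.elim (fun _ => some none) (fun u => some (some u))) (fun _ => none))

/-- The facilities near the client `j`. -/
def nearK (Φ : (V ⊕ U) × Ω ↪ Fin m) (ψ : T ⊕ U ↪ Fin M) (near : T → Finset (V × Ω)) (j : Fin M) :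
    Set (Fin m) :=
  {i | ∃ t, ψ (Sum.inl t) = j ∧ ∃ p ∈ near t, Φ (Sum.inl p.1, p.2) = i}

/-- The space of a group. -/
noncomputable def deltaK (Φ : (V ⊕ U) × Ω ↪ Fin m) (ψ : T ⊕ U ↪ Fin M)
    (near : T → Finset (V × Ω)) (τ : ℝ) (hτ : 0 < τ) : Option (Option U) → Space m M
  | some none => twoSpace (nearK Φ ψ near) 3 (by norm_num) le_rfl
  | none => eqSpace m M τ hτ
  | some (some _) => eqSpace m M τ hτ

theorem deltaK_le (Φ : (V ⊕ U) × Ω ↪ Fin m) (ψ : T ⊕ U ↪ Fin M)
    (near : T → Finset (V × Ω)) (τ H : ℝ) (hτ : 0 < τ) (hτH : τ ≤ H) (hH : 3 ≤ H)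
    (g : Option (Option U)) (x y : Fin m ⊕ Fin M) :
    (deltaK Φ ψ near τ hτ g).dist x y ≤ 2 * H := by
  have h1 : (twoSpace (nearK Φ ψ near) 3 (by norm_num) le_rfl).dist x y ≤ 3 := by
    show twoDist _ _ x y ≤ 3
    rcases x with i | j <;> rcases y with i' | j' <;> simp only [twoDist] <;> split_ifs <;>
      norm_num
  have h2 : (eqSpace m M τ hτ).dist x y ≤ τ := by
    show (if x = y then 0 else τ) ≤ τ
    split_ifs
    · exact hτ.le
    · exact le_rfl
  rcases g with _ | _ | u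
  · show (eqSpace m M τ hτ).dist x y ≤ 2 * H
    linarith
  · show (twoSpace (nearK Φ ψ near) 3 (by norm_num) le_rfl).dist x y ≤ 2 * H
    linarith
  · show (eqSpace m M τ hτ).dist x y ≤ 2 * H
    linarith

/-- The instance for k-median: the facilities `Φ (v, c)`, `v : V`, and the clients of the tests form
a space with distances 1, 2, 3, the facilities `Φ (u, c)` and the client of `u` have mutual
distances `τ`, and different groups have distance `H`. There are no opening costs. -/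
noncomputable def instK [Fintype T] [Fintype U] (Φ : (V ⊕ U) × Ω ↪ Fin m) (ψ : T ⊕ U ↪ Fin M)
    (near : T → Finset (V × Ω)) (τ H : ℝ) (hτ : 0 < τ) (hτH : τ ≤ H) (hH : 3 ≤ H) : Inst m M where
  space := glue (grpK Φ ψ) (deltaK Φ ψ near τ hτ) H (by linarith) (deltaK_le Φ ψ near τ H hτ hτH hH)
  opening := fun _ => 0
  opening_nonneg := fun _ => le_rfl
  clients := Finset.univ.map ψ

namespace KIAux

theorem extend_rename {α β γ : Type} (f : α ↪ β) (g : Equiv.Perm β) (c : α → γ) (e : γ) (b : β) :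
    Function.extend f c (fun _ => e) (g.symm b) =
      Function.extend (f.trans g.toEmbedding) c (fun _ => e) b := by
  by_cases h : ∃ a, f a = g.symm b
  · obtain ⟨a, ha⟩ := h
    have ha' : (f.trans g.toEmbedding) a = b := by
      show g (f a) = b
      rw [ha, Equiv.apply_symm_apply]
    rw [← ha, f.injective.extend_apply, ← ha', (f.trans g.toEmbedding).injective.extend_apply]
  · rw [Function.extend_apply' _ _ _ h, Function.extend_apply']
    rintro ⟨a, ha⟩
    refine h ⟨a, ?_⟩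
    rw [Equiv.eq_symm_apply]
    exact ha

theorem grpK_F (Φ : (V ⊕ U) × Ω ↪ Fin m) (ψ : T ⊕ U ↪ Fin M) (p : (V ⊕ U) × Ω) :
    grpK Φ ψ (Sum.inl (Φ p)) =
      Sum.elim (fun _ => some none) (fun u => some (some u)) p.1 := by
  unfold grpK
  rw [Sum.elim_inl, Φ.injective.extend_apply]

theorem grpK_C (Φ : (V ⊕ U) × Ω ↪ Fin m) (ψ : T ⊕ U ↪ Fin M) (q : T ⊕ U) :
    grpK Φ ψ (Sum.inr (ψ q)) = Sum.elim (fun _ => some none) (fun u => some (some u)) q := by
  unfold grpK
  rw [Sum.elim_inr, ψ.injective.extend_apply]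

theorem grpK_none (Φ : (V ⊕ U) × Ω ↪ Fin m) (ψ : T ⊕ U ↪ Fin M) (i : Fin m)
    (h : ¬ ∃ p, Φ p = i) : grpK Φ ψ (Sum.inl i) = none := by
  unfold grpK
  rw [Sum.elim_inl, Function.extend_apply' _ _ _ h]

theorem grpK_u (Φ : (V ⊕ U) × Ω ↪ Fin m) (ψ : T ⊕ U ↪ Fin M) (i : Fin m) (u : U)
    (h : grpK Φ ψ (Sum.inl i) = some (some u)) : ∃ c, Φ (Sum.inr u, c) = i := by
  by_cases hp : ∃ p, Φ p = i
  · obtain ⟨⟨x, c⟩, rfl⟩ := hp
    rw [grpK_F] at h
    rcases x with v | u'
    · exact absurd h (by simp)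
    · have : u' = u := by simpa using h
      subst this
      exact ⟨c, rfl⟩
  · rw [grpK_none Φ ψ i hp] at h
    exact absurd h (by simp)

theorem dist_map_eq {g : Equiv.Perm (Fin m)} {h : Equiv.Perm (Fin M)} (x y : Fin m ⊕ Fin M) :
    Sum.map g.symm h.symm x = Sum.map g.symm h.symm y ↔ x = y :=
  (Sum.map_injective.2 ⟨g.symm.injective, h.symm.injective⟩).eq_iff

theorem grpK_rename (Φ : (V ⊕ U) × Ω ↪ Fin m) (ψ : T ⊕ U ↪ Fin M) (g : Equiv.Perm (Fin m))
    (h : Equiv.Perm (Fin M)) (x : Fin m ⊕ Fin M) :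
    grpK Φ ψ (Sum.map g.symm h.symm x) =
      grpK (Φ.trans g.toEmbedding) (ψ.trans h.toEmbedding) x := by
  unfold grpK
  rcases x with i | j
  · rw [Sum.map_inl, Sum.elim_inl, Sum.elim_inl]
    exact extend_rename Φ g _ _ i
  · rw [Sum.map_inr, Sum.elim_inr, Sum.elim_inr]
    exact extend_rename ψ h _ _ j

theorem near_rename (Φ : (V ⊕ U) × Ω ↪ Fin m) (ψ : T ⊕ U ↪ Fin M)
    (near : T → Finset (V × Ω)) (g : Equiv.Perm (Fin m)) (h : Equiv.Perm (Fin M)) (i : Fin m)
    (j : Fin M) :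
    g.symm i ∈ nearK Φ ψ near (h.symm j) ↔
      i ∈ nearK (Φ.trans g.toEmbedding) (ψ.trans h.toEmbedding) near j := by
  constructor
  · rintro ⟨t, ht, p, hp, hpi⟩
    refine ⟨t, ?_, p, hp, ?_⟩
    · show h (ψ (Sum.inl t)) = j
      rw [ht, Equiv.apply_symm_apply]
    · show g (Φ (Sum.inl p.1, p.2)) = i
      rw [hpi, Equiv.apply_symm_apply]
  · rintro ⟨t, ht, p, hp, hpi⟩
    refine ⟨t, ?_, p, hp, ?_⟩
    · rw [Equiv.eq_symm_apply]
      exact ht
    · rw [Equiv.eq_symm_apply]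
      exact hpi

theorem delta_rename (Φ : (V ⊕ U) × Ω ↪ Fin m) (ψ : T ⊕ U ↪ Fin M)
    (near : T → Finset (V × Ω)) (τ : ℝ) (hτ : 0 < τ) (g : Equiv.Perm (Fin m))
    (h : Equiv.Perm (Fin M)) (g0 : Option (Option U)) (x y : Fin m ⊕ Fin M) :
    (deltaK Φ ψ near τ hτ g0).dist (Sum.map g.symm h.symm x) (Sum.map g.symm h.symm y) =
      (deltaK (Φ.trans g.toEmbedding) (ψ.trans h.toEmbedding) near τ hτ g0).dist x y := by
  have heq : (eqSpace m M τ hτ).dist (Sum.map g.symm h.symm x) (Sum.map g.symm h.symm y) =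
      (eqSpace m M τ hτ).dist x y := by
    show (if Sum.map g.symm h.symm x = Sum.map g.symm h.symm y then 0 else τ) =
      if x = y then 0 else τ
    by_cases h' : x = y
    · rw [if_pos h', if_pos ((dist_map_eq x y).2 h')]
    · rw [if_neg h', if_neg (fun h'' => h' ((dist_map_eq x y).1 h''))]
  rcases g0 with _ | _ | u
  · exact heq
  · show twoDist _ _ (Sum.map g.symm h.symm x) (Sum.map g.symm h.symm y) = twoDist _ _ x y
    rcases x with i | j <;> rcases y with i' | j'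
    · show (if g.symm i = g.symm i' then (0 : ℝ) else 2) = if i = i' then (0 : ℝ) else 2
      by_cases h' : i = i'
      · rw [if_pos h', if_pos (by rw [h'])]
      · rw [if_neg h', if_neg (fun h'' => h' (g.symm.injective h''))]
    · have hn := near_rename Φ ψ near g h i j'
      simp only [Sum.map_inl, Sum.map_inr, twoDist]
      by_cases h' : g.symm i ∈ nearK Φ ψ near (h.symm j')
      · rw [if_pos h', if_pos (hn.1 h')]
      · rw [if_neg h', if_neg (fun h'' => h' (hn.2 h''))]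
    · have hn := near_rename Φ ψ near g h i' j
      simp only [Sum.map_inl, Sum.map_inr, twoDist]
      by_cases h' : g.symm i' ∈ nearK Φ ψ near (h.symm j)
      · rw [if_pos h', if_pos (hn.1 h')]
      · rw [if_neg h', if_neg (fun h'' => h' (hn.2 h''))]
    · show (if h.symm j = h.symm j' then (0 : ℝ) else 2) = if j = j' then (0 : ℝ) else 2
      by_cases h' : j = j'
      · rw [if_pos h', if_pos (by rw [h'])]
      · rw [if_neg h', if_neg (fun h'' => h' (h.symm.injective h''))]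
  · exact heq

/-- the sum over the tests -/
theorem sum_tests [Fintype T] (near : T → Finset (V × Ω)) (A : Finset (V × Ω))
    (f : T → ℝ) (hf : ∀ t, (Disjoint (near t) A → f t = 3) ∧ (¬ Disjoint (near t) A → f t = 1)) :
    ∑ t, f t = Fintype.card T * (1 + 2 * unc near A) := by
  classical
  have h1 : (Fintype.card T : ℝ) * unc near A =
      ∑ t, (if Disjoint (near t) A then (1 : ℝ) else 0) := by
    unfold unc mean
    rcases Nat.eq_zero_or_pos (Fintype.card T) with h0 | h0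
    · have : IsEmpty T := Fintype.card_eq_zero_iff.1 h0
      simp
    · have h0' : (Fintype.card T : ℝ) ≠ 0 := by exact_mod_cast h0.ne'
      rw [mul_div_cancel₀ _ h0']
  have h2 : (Fintype.card T : ℝ) * (1 + 2 * unc near A) =
      Fintype.card T + 2 * (Fintype.card T * unc near A) := by ring
  rw [h2, h1, Finset.mul_sum]
  have h3 : (Fintype.card T : ℝ) = ∑ _t : T, (1 : ℝ) := by simp
  rw [h3, ← Finset.sum_add_distrib]
  refine Finset.sum_congr rfl fun t _ => ?_
  by_cases h : Disjoint (near t) A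
  · rw [if_pos h, (hf t).1 h]
    norm_num
  · rw [if_neg h, (hf t).2 h]
    norm_num

open Classical in
/-- the lower bounds -/
noncomputable def bd (near : T → Finset (V × Ω)) (A : Finset (V × Ω)) (a : ℝ) : T ⊕ U → ℝ :=
  Sum.elim (fun t => if Disjoint (near t) A then 3 else 1) (fun _ => a)

theorem bd_inl (near : T → Finset (V × Ω)) (A : Finset (V × Ω)) (a : ℝ) (t : T) :
    (Disjoint (near t) A → bd (U := U) near A a (Sum.inl t) = 3) ∧
      (¬ Disjoint (near t) A → bd (U := U) near A a (Sum.inl t) = 1) := by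
  constructor
  · intro h
    exact if_pos h
  · intro h
    exact if_neg h

theorem bd_le_three (near : T → Finset (V × Ω)) (A : Finset (V × Ω)) (a : ℝ) (t : T) :
    bd (U := U) near A a (Sum.inl t) ≤ 3 := by
  by_cases h : Disjoint (near t) A
  · exact ((bd_inl near A a t).1 h).le
  · rw [(bd_inl near A a t).2 h]
    norm_num

/-- the lower bounds on the clients -/
noncomputable def bc (ψ : T ⊕ U ↪ Fin M) (near : T → Finset (V × Ω)) (A : Finset (V × Ω))
    (a : ℝ) : Fin M → ℝ :=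
  Function.extend ψ (bd near A a) (fun _ => 0)

theorem bc_apply (ψ : T ⊕ U ↪ Fin M) (near : T → Finset (V × Ω)) (A : Finset (V × Ω))
    (a : ℝ) (q : T ⊕ U) : bc ψ near A a (ψ q) = bd near A a q :=
  ψ.injective.extend_apply _ _ q

theorem sum_bc [Fintype T] [Fintype U] (ψ : T ⊕ U ↪ Fin M) (near : T → Finset (V × Ω))
    (A : Finset (V × Ω)) (a : ℝ) :
    ∑ j ∈ Finset.univ.map ψ, bc ψ near A a j =
      Fintype.card T * (1 + 2 * unc near A) + Fintype.card U * a := by
  rw [Finset.sum_map]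
  have h1 : ∀ q, bc ψ near A a (ψ q) = bd near A a q := bc_apply ψ near A a
  simp only [h1]
  rw [Fintype.sum_sum_type, sum_tests near A _ (bd_inl near A a)]
  congr 1
  show ∑ _u : U, a = _
  rw [Finset.sum_const, Finset.card_univ, nsmul_eq_mul]

end KIAux

open KIAux

variable [Fintype T] [Fintype U]

namespace KIAux

theorem dist_same (Φ : (V ⊕ U) × Ω ↪ Fin m) (ψ : T ⊕ U ↪ Fin M)
    (near : T → Finset (V × Ω)) (τ H : ℝ) (hτ : 0 < τ) (hτH : τ ≤ H) (hH : 3 ≤ H)
    (x y : Fin m ⊕ Fin M) (h : grpK Φ ψ x = grpK Φ ψ y) :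
    (instK Φ ψ near τ H hτ hτH hH).space.dist x y =
      (deltaK Φ ψ near τ hτ (grpK Φ ψ x)).dist x y :=
  if_pos h

theorem dist_diff (Φ : (V ⊕ U) × Ω ↪ Fin m) (ψ : T ⊕ U ↪ Fin M)
    (near : T → Finset (V × Ω)) (τ H : ℝ) (hτ : 0 < τ) (hτH : τ ≤ H) (hH : 3 ≤ H)
    (x y : Fin m ⊕ Fin M) (h : grpK Φ ψ x ≠ grpK Φ ψ y) :
    (instK Φ ψ near τ H hτ hτH hH).space.dist x y = H :=
  if_neg h

/-- the distance of a facility and the client of a test -/
theorem dist_test (Φ : (V ⊕ U) × Ω ↪ Fin m) (ψ : T ⊕ U ↪ Fin M)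
    (near : T → Finset (V × Ω)) (τ H : ℝ) (hτ : 0 < τ) (hτH : τ ≤ H) (hH : 3 ≤ H)
    (i : Fin m) (t : T) :
    (grpK Φ ψ (Sum.inl i) = some none ∧ (∃ p ∈ near t, Φ (Sum.inl p.1, p.2) = i) ∧
      (instK Φ ψ near τ H hτ hτH hH).space.dist (Sum.inl i) (Sum.inr (ψ (Sum.inl t))) = 1) ∨
    (grpK Φ ψ (Sum.inl i) = some none ∧ (¬ ∃ p ∈ near t, Φ (Sum.inl p.1, p.2) = i) ∧
      (instK Φ ψ near τ H hτ hτH hH).space.dist (Sum.inl i) (Sum.inr (ψ (Sum.inl t))) = 3) ∨
    (grpK Φ ψ (Sum.inl i) ≠ some none ∧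
      (instK Φ ψ near τ H hτ hτH hH).space.dist (Sum.inl i) (Sum.inr (ψ (Sum.inl t))) = H) := by
  have hgj : grpK Φ ψ (Sum.inr (ψ (Sum.inl t))) = some none := grpK_C Φ ψ (Sum.inl t)
  by_cases hg : grpK Φ ψ (Sum.inl i) = some none
  · have h2 := dist_same Φ ψ near τ H hτ hτH hH (Sum.inl i) (Sum.inr (ψ (Sum.inl t)))
      (hg.trans hgj.symm)
    rw [hg] at h2
    have hn : i ∈ nearK Φ ψ near (ψ (Sum.inl t)) ↔
        ∃ p ∈ near t, Φ (Sum.inl p.1, p.2) = i := by
      constructor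
      · rintro ⟨t', ht', p, hp, hpi⟩
        have : t' = t := Sum.inl.inj (ψ.injective ht')
        subst this
        exact ⟨p, hp, hpi⟩
      · rintro ⟨p, hp, hpi⟩
        exact ⟨t, rfl, p, hp, hpi⟩
    by_cases hi : ∃ p ∈ near t, Φ (Sum.inl p.1, p.2) = i
    · left
      refine ⟨hg, hi, h2.trans ?_⟩
      exact if_pos (hn.2 hi)
    · right; left
      refine ⟨hg, hi, h2.trans ?_⟩
      exact if_neg (fun h => hi (hn.1 h))
  · right; right
    refine ⟨hg, dist_diff Φ ψ near τ H hτ hτH hH _ _ ?_⟩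
    intro h
    exact hg (h.trans hgj)

/-- the distance of a facility and the client of `u` -/
theorem dist_u (Φ : (V ⊕ U) × Ω ↪ Fin m) (ψ : T ⊕ U ↪ Fin M)
    (near : T → Finset (V × Ω)) (τ H : ℝ) (hτ : 0 < τ) (hτH : τ ≤ H) (hH : 3 ≤ H)
    (i : Fin m) (u : U) :
    (grpK Φ ψ (Sum.inl i) = some (some u) ∧
      (instK Φ ψ near τ H hτ hτH hH).space.dist (Sum.inl i) (Sum.inr (ψ (Sum.inr u))) = τ) ∨
    (grpK Φ ψ (Sum.inl i) ≠ some (some u) ∧
      (instK Φ ψ near τ H hτ hτH hH).space.dist (Sum.inl i) (Sum.inr (ψ (Sum.inr u))) = H) := by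
  have hgj : grpK Φ ψ (Sum.inr (ψ (Sum.inr u))) = some (some u) := grpK_C Φ ψ (Sum.inr u)
  by_cases hg : grpK Φ ψ (Sum.inl i) = some (some u)
  · left
    have h2 := dist_same Φ ψ near τ H hτ hτH hH (Sum.inl i) (Sum.inr (ψ (Sum.inr u)))
      (hg.trans hgj.symm)
    rw [hg] at h2
    refine ⟨hg, h2.trans ?_⟩
    show (if (Sum.inl i : Fin m ⊕ Fin M) = Sum.inr (ψ (Sum.inr u)) then (0 : ℝ) else τ) = τ
    exact if_neg Sum.inl_ne_inr
  · right
    refine ⟨hg, dist_diff Φ ψ near τ H hτ hτH hH _ _ ?_⟩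
    intro h
    exact hg (h.trans hgj)

theorem bc_le (Φ : (V ⊕ U) × Ω ↪ Fin m) (ψ : T ⊕ U ↪ Fin M)
    (near : T → Finset (V × Ω)) (τ H : ℝ) (hτ : 0 < τ) (hτH : τ ≤ H) (hH : 3 ≤ H)
    (S : Finset (Fin m)) (A : Finset (V × Ω)) (hA : ∀ p, p ∈ A ↔ Φ (Sum.inl p.1, p.2) ∈ S)
    (a : ℝ) (ha : a ≤ τ) (j : Fin M) (hj : j ∈ (Finset.univ.map ψ : Finset (Fin M)))
    (i : Fin m) (hi : i ∈ S) :
    bc ψ near A a j ≤ (instK Φ ψ near τ H hτ hτH hH).space.dist (Sum.inl i) (Sum.inr j) := by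
  obtain ⟨q, _, rfl⟩ := Finset.mem_map.1 hj
  rw [bc_apply]
  rcases q with t | u
  · have h3 := bd_le_three (U := U) near A a t
    rcases dist_test Φ ψ near τ H hτ hτH hH i t with ⟨_, ⟨p, hp, hpi⟩, hd⟩ | ⟨_, _, hd⟩ | ⟨_, hd⟩
    · rw [hd]
      have : ¬ Disjoint (near t) A := by
        rw [Finset.not_disjoint_iff]
        exact ⟨p, hp, (hA p).2 (hpi ▸ hi)⟩
      exact ((bd_inl near A a t).2 this).le
    · rw [hd]
      exact h3
    · rw [hd]
      exact h3.trans hH
  · show a ≤ _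
    rcases dist_u Φ ψ near τ H hτ hτH hH i u with ⟨_, hd⟩ | ⟨_, hd⟩
    · rw [hd]
      exact ha
    · rw [hd]
      exact ha.trans hτH

theorem cost_serv (Φ : (V ⊕ U) × Ω ↪ Fin m) (ψ : T ⊕ U ↪ Fin M)
    (near : T → Finset (V × Ω)) (τ H : ℝ) (hτ : 0 < τ) (hτH : τ ≤ H) (hH : 3 ≤ H)
    (S : Finset (Fin m)) :
    (instK Φ ψ near τ H hτ hτH hH).cost S =
      serv (instK Φ ψ near τ H hτ hτH hH).space (Finset.univ.map ψ) S := by
  rw [cost_eq]
  have : ∑ i ∈ S, (instK Φ ψ near τ H hτ hτH hH).opening i = 0 :=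
    Finset.sum_eq_zero fun _ _ => rfl
  rw [this, zero_add]
  rfl

theorem space_ext {d d' : Space m M} (h : d.dist = d'.dist) : d = d' := by
  cases d
  cases d'
  congr

theorem inst_ext {I I' : Inst m M} (h : I.space = I'.space) (h' : I.opening = I'.opening)
    (h'' : I.clients = I'.clients) : I = I' := by
  cases I
  cases I'
  simp only at h h' h''
  subst h h' h''
  rfl

end KIAux

theorem rename_instK (Φ : (V ⊕ U) × Ω ↪ Fin m) (ψ : T ⊕ U ↪ Fin M) (near : T → Finset (V × Ω))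
    (τ H : ℝ) (hτ : 0 < τ) (hτH : τ ≤ H) (hH : 3 ≤ H) (g : Equiv.Perm (Fin m))
    (h : Equiv.Perm (Fin M)) :
    (instK Φ ψ near τ H hτ hτH hH).rename g h =
      instK (Φ.trans g.toEmbedding) (ψ.trans h.toEmbedding) near τ H hτ hτH hH := by
  refine inst_ext (space_ext ?_) rfl ?_
  · funext x y
    show (instK Φ ψ near τ H hτ hτH hH).space.dist (Sum.map g.symm h.symm x)
      (Sum.map g.symm h.symm y) = _
    have hx := grpK_rename Φ ψ g h x
    have hy := grpK_rename Φ ψ g h y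
    by_cases h' : grpK (Φ.trans g.toEmbedding) (ψ.trans h.toEmbedding) x =
        grpK (Φ.trans g.toEmbedding) (ψ.trans h.toEmbedding) y
    · rw [dist_same _ _ _ _ _ _ _ _ x y h',
        dist_same _ _ _ _ _ _ _ _ _ _ (hx.trans (h'.trans hy.symm)), hx]
      exact delta_rename Φ ψ near τ hτ g h _ x y
    · rw [dist_diff _ _ _ _ _ _ _ _ x y h', dist_diff]
      rw [hx, hy]
      exact h'
  · show ((Finset.univ.map ψ).map h.toEmbedding) = Finset.univ.map (ψ.trans h.toEmbedding)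
    rw [Finset.map_map]

theorem exists_renameK (Φ Φ' : (V ⊕ U) × Ω ↪ Fin m) (ψ ψ' : T ⊕ U ↪ Fin M)
    (near : T → Finset (V × Ω)) (τ H : ℝ) (hτ : 0 < τ) (hτH : τ ≤ H) (hH : 3 ≤ H) :
    ∃ (g : Equiv.Perm (Fin m)) (h : Equiv.Perm (Fin M)),
      instK Φ' ψ' near τ H hτ hτH hH = (instK Φ ψ near τ H hτ hτH hH).rename g h := by
  obtain ⟨g, hg⟩ := Pool.Agent.Lib.P325av.exists_perm Φ Φ' Φ.injective Φ'.injective
  obtain ⟨h, hh⟩ := Pool.Agent.Lib.P325av.exists_perm ψ ψ' ψ.injective ψ'.injective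
  refine ⟨g, h, ?_⟩
  rw [rename_instK]
  congr 1
  · ext p
    show (Φ' p : ℕ) = g (Φ p)
    rw [hg p]
  · ext p
    show (ψ' p : ℕ) = h (ψ p)
    rw [hh p]

theorem clients_instK (Φ : (V ⊕ U) × Ω ↪ Fin m) (ψ : T ⊕ U ↪ Fin M) (near : T → Finset (V × Ω))
    (τ H : ℝ) (hτ : 0 < τ) (hτH : τ ≤ H) (hH : 3 ≤ H) :
    (instK Φ ψ near τ H hτ hτH hH).clients.card = Fintype.card T + Fintype.card U := by
  show (Finset.univ.map ψ).card = _
  rw [Finset.card_map, Finset.card_univ, Fintype.card_sum]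

theorem nearest_instK (Φ : (V ⊕ U) × Ω ↪ Fin m) (ψ : T ⊕ U ↪ Fin M) (near : T → Finset (V × Ω))
    (τ H : ℝ) (hτ : 0 < τ) (hτH : τ ≤ H) (hH : 3 ≤ H) (S : Finset (Fin m)) (σ : Fin M → Fin m)
    (hσ : ∀ j, σ j ∈ S) (hU : ∀ u : U, ∃ c, Φ (Sum.inr u, c) = σ (ψ (Sum.inr u)))
    (hT : ∀ t, ∃ p : V × Ω, Φ (Sum.inl p.1, p.2) = σ (ψ (Sum.inl t)))
    (hn : ∀ t, (∃ p ∈ near t, Φ (Sum.inl p.1, p.2) ∈ S) →
      ∃ p ∈ near t, Φ (Sum.inl p.1, p.2) = σ (ψ (Sum.inl t))) :
    (instK Φ ψ near τ H hτ hτH hH).Nearest S σ := by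
  refine ⟨hσ, ?_⟩
  intro j hj i hi
  obtain ⟨q, _, rfl⟩ := Finset.mem_map.1 (hj : j ∈ Finset.univ.map ψ)
  rcases q with t | u
  · by_cases hex : ∃ p ∈ near t, Φ (Sum.inl p.1, p.2) ∈ S
    · have hd0 : (instK Φ ψ near τ H hτ hτH hH).space.dist (Sum.inl (σ (ψ (Sum.inl t))))
          (Sum.inr (ψ (Sum.inl t))) = 1 := by
        have hex' := hn t hex
        rcases dist_test Φ ψ near τ H hτ hτH hH (σ (ψ (Sum.inl t))) t with
          ⟨_, _, hd⟩ | ⟨_, hno, _⟩ | ⟨hg, _⟩
        · exact hd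
        · exact absurd hex' hno
        · exfalso
          obtain ⟨p, _, hp⟩ := hex'
          refine hg ?_
          rw [← hp]
          exact grpK_F Φ ψ _
      rw [hd0]
      rcases dist_test Φ ψ near τ H hτ hτH hH i t with
        ⟨_, _, hd⟩ | ⟨_, _, hd⟩ | ⟨_, hd⟩
      · exact hd.ge
      · rw [hd]
        norm_num
      · rw [hd]
        linarith
    · have hd0 : (instK Φ ψ near τ H hτ hτH hH).space.dist (Sum.inl (σ (ψ (Sum.inl t))))
          (Sum.inr (ψ (Sum.inl t))) ≤ 3 := by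
        rcases dist_test Φ ψ near τ H hτ hτH hH (σ (ψ (Sum.inl t))) t with
          ⟨_, _, hd⟩ | ⟨_, hno, hd⟩ | ⟨hg, _⟩
        · rw [hd]
          norm_num
        · exact hd.le
        · exfalso
          obtain ⟨p, hp⟩ := hT t
          refine hg ?_
          rw [← hp]
          exact grpK_F Φ ψ _
      refine hd0.trans ?_
      rcases dist_test Φ ψ near τ H hτ hτH hH i t with
        ⟨_, ⟨p, hp, hpi⟩, _⟩ | ⟨_, _, hd⟩ | ⟨_, hd⟩
      · exact absurd ⟨p, hp, hpi ▸ hi⟩ hex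
      · exact hd.ge
      · rw [hd]
        exact hH
  · have hd0 : (instK Φ ψ near τ H hτ hτH hH).space.dist (Sum.inl (σ (ψ (Sum.inr u))))
        (Sum.inr (ψ (Sum.inr u))) = τ := by
      rcases dist_u Φ ψ near τ H hτ hτH hH (σ (ψ (Sum.inr u))) u with ⟨_, hd⟩ | ⟨hg, _⟩
      · exact hd
      · exfalso
        obtain ⟨c, hc⟩ := hU u
        refine hg ?_
        rw [← hc]
        exact grpK_F Φ ψ _
    rw [hd0]
    rcases dist_u Φ ψ near τ H hτ hτH hH i u with ⟨_, hd⟩ | ⟨_, hd⟩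
    · exact hd.ge
    · rw [hd]
      exact hτH

theorem cost_instK [Fintype V] [Fintype Ω] (Φ : (V ⊕ U) × Ω ↪ Fin m)
    (ψ : T ⊕ U ↪ Fin M) (near : T → Finset (V × Ω)) (τ H : ℝ) (hτ : 0 < τ) (hτH : τ ≤ H)
    (hH : 3 ≤ H) (S : Finset (Fin m)) (A : Finset (V × Ω))
    (hA : ∀ p, p ∈ A ↔ Φ (Sum.inl p.1, p.2) ∈ S) (hA0 : A.Nonempty)
    (hU : ∀ u : U, ∃ c, Φ (Sum.inr u, c) ∈ S) :
    (instK Φ ψ near τ H hτ hτH hH).cost S =
      Fintype.card T * (1 + 2 * unc near A) + Fintype.card U * τ := by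
  obtain ⟨p0, hp0⟩ := hA0
  have hS : S.Nonempty := ⟨_, (hA p0).1 hp0⟩
  rw [cost_serv, serv_eq (instK Φ ψ near τ H hτ hτH hH).space (Finset.univ.map ψ) S hS
    (bc ψ near A τ) (bc_le Φ ψ near τ H hτ hτH hH S A hA τ le_rfl) ?_, sum_bc]
  intro j hj
  obtain ⟨q, _, rfl⟩ := Finset.mem_map.1 hj
  rw [bc_apply]
  rcases q with t | u
  · by_cases hdis : Disjoint (near t) A
    · refine ⟨_, (hA p0).1 hp0, ?_⟩
      rw [(bd_inl near A τ t).1 hdis]
      have hg : grpK Φ ψ (Sum.inl (Φ (Sum.inl p0.1, p0.2))) = some none := grpK_F Φ ψ _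
      rcases dist_test Φ ψ near τ H hτ hτH hH (Φ (Sum.inl p0.1, p0.2)) t with
        ⟨_, ⟨p, hp, hpi⟩, _⟩ | ⟨_, _, hd⟩ | ⟨hg', _⟩
      · exfalso
        have h1 := Φ.injective hpi
        simp only [Prod.mk.injEq, Sum.inl.injEq] at h1
        have h2 : p = p0 := Prod.ext h1.1 h1.2
        rw [h2] at hp
        exact Finset.disjoint_left.1 hdis hp hp0
      · exact hd
      · exact absurd hg hg'
    · rw [(bd_inl near A τ t).2 hdis]
      obtain ⟨p, hp, hpA⟩ := Finset.not_disjoint_iff.1 hdis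
      refine ⟨_, (hA p).1 hpA, ?_⟩
      have hg : grpK Φ ψ (Sum.inl (Φ (Sum.inl p.1, p.2))) = some none := grpK_F Φ ψ _
      rcases dist_test Φ ψ near τ H hτ hτH hH (Φ (Sum.inl p.1, p.2)) t with
        ⟨_, _, hd⟩ | ⟨_, hn, _⟩ | ⟨hg', _⟩
      · exact hd
      · exact absurd ⟨p, hp, rfl⟩ hn
      · exact absurd hg hg'
  · obtain ⟨c, hc⟩ := hU u
    refine ⟨_, hc, ?_⟩
    have hg : grpK Φ ψ (Sum.inl (Φ (Sum.inr u, c))) = some (some u) := grpK_F Φ ψ _
    rcases dist_u Φ ψ near τ H hτ hτH hH (Φ (Sum.inr u, c)) u with ⟨_, hd⟩ | ⟨hg', _⟩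
    · exact hd
    · exact absurd hg hg'

theorem lower_instK [Fintype V] [Fintype Ω] (Φ : (V ⊕ U) × Ω ↪ Fin m)
    (ψ : T ⊕ U ↪ Fin M) (near : T → Finset (V × Ω)) (τ H : ℝ) (hτ : 0 < τ) (hτH : τ ≤ H)
    (hH : 3 ≤ H) (S : Finset (Fin m)) (hS : S.Nonempty)
    (hSk : S.card ≤ Fintype.card V + Fintype.card U) (A : Finset (V × Ω))
    (hA : ∀ p, p ∈ A ↔ Φ (Sum.inl p.1, p.2) ∈ S) :
    H ≤ (instK Φ ψ near τ H hτ hτH hH).cost S ∨
      (A.card ≤ Fintype.card V ∧ Fintype.card T * (1 + 2 * unc near A) ≤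
        (instK Φ ψ near τ H hτ hτH hH).cost S) := by
  classical
  rw [cost_serv]
  by_cases hU : ∀ u : U, ∃ c, Φ (Sum.inr u, c) ∈ S
  · right
    choose c hc using hU
    constructor
    · have h1 : (A.image (fun p => Φ (Sum.inl p.1, p.2))) ∪
          (Finset.univ.image (fun u => Φ (Sum.inr u, c u))) ⊆ S := by
        refine Finset.union_subset ?_ ?_
        · intro i hi
          obtain ⟨p, hp, rfl⟩ := Finset.mem_image.1 hi
          exact (hA p).1 hp
        · intro i hi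
          obtain ⟨u, _, rfl⟩ := Finset.mem_image.1 hi
          exact hc u
      have h2 : Disjoint (A.image (fun p => Φ (Sum.inl p.1, p.2)))
          (Finset.univ.image (fun u => Φ (Sum.inr u, c u))) := by
        rw [Finset.disjoint_left]
        intro i hi hi'
        obtain ⟨p, _, rfl⟩ := Finset.mem_image.1 hi
        obtain ⟨u, _, hu⟩ := Finset.mem_image.1 hi'
        have := Φ.injective hu
        simp at this
      have h3 := Finset.card_le_card h1
      rw [Finset.card_union_of_disjoint h2, Finset.card_image_of_injective,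
        Finset.card_image_of_injective, Finset.card_univ] at h3
      · omega
      · intro u u' h
        have := Φ.injective h
        simp only [Prod.mk.injEq, Sum.inr.injEq] at this
        exact this.1
      · intro p p' h
        have := Φ.injective h
        simp only [Prod.mk.injEq, Sum.inl.injEq] at this
        exact Prod.ext this.1 this.2
    · have h := serv_ge (instK Φ ψ near τ H hτ hτH hH).space (Finset.univ.map ψ) S hS
        (bc ψ near A 0) (bc_le Φ ψ near τ H hτ hτH hH S A hA 0 hτ.le)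
      rw [sum_bc, mul_zero, add_zero] at h
      exact h
  · left
    push Not at hU
    obtain ⟨u, hu⟩ := hU
    refine serv_ge_one _ _ S hS H (ψ (Sum.inr u)) (Finset.mem_map.2 ⟨_, Finset.mem_univ _, rfl⟩) ?_
    intro i hi
    rcases dist_u Φ ψ near τ H hτ hτH hH i u with ⟨hg, _⟩ | ⟨_, hd⟩
    · exfalso
      obtain ⟨c, hc⟩ := grpK_u Φ ψ i u hg
      exact hu c (hc ▸ hi)
    · exact hd.ge

end Pool.Agent.Lib.P47c
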