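import Pool.Agent.Lib.P325av.Perm
import Pool.Agent.Lib.P47c.Model
import Pool.Agent.Lib.P47c.TDefs
import Pool.Agent.Lib.P47c.BaseC
import Pool.Agent.Lib.P47c.LiftC
import Pool.Agent.Lib.P47c.FI
import Pool.Agent.Lib.P47c.EsCov
import Pool.Agent.Lib.P47c.KI

/-!
The lower bound for k-median.
-/

open scoped BigOperators

namespace Pool.Agent.Lib.P47c

namespace KL2Aux

open Pool.Agent.Lib.P325P (mean)

/-- Every injection extends to a bijection. -/
theorem exists_ext {A B U : Type} [Fintype A] [Fintype B] [Fintype U] (f : A → B)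
    (hf : Function.Injective f) (hc : Fintype.card A + Fintype.card U = Fintype.card B) :
    ∃ e : A ⊕ U ≃ B, ∀ x, e (Sum.inl x) = f x := by
  classical
  have h1 : Fintype.card (A ⊕ U) = Fintype.card B := by rw [Fintype.card_sum, hc]
  let e0 : A ⊕ U ≃ B := Fintype.equivOfCardEq h1
  obtain ⟨σ, hσ⟩ := Pool.Agent.Lib.P325av.exists_perm (fun x : A => e0 (Sum.inl x)) f
    (fun x y h => Sum.inl_injective (e0.injective h)) hf
  exact ⟨e0.trans σ, fun x => hσ x⟩

theorem exists_sup {V : Type} [Nonempty V] (J : Finset V) (Q : ℕ) (h : J.card ≤ Q) :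
    ∃ f : Fin (Q + 1) → V, ∀ v ∈ J, ∃ q, f q = v := by
  classical
  refine ⟨fun q => if h' : (q : ℕ) < J.card then (J.equivFin.symm ⟨q, h'⟩ : V) else
    Classical.arbitrary V, fun v hv => ?_⟩
  have h1 : (J.equivFin ⟨v, hv⟩ : ℕ) < J.card := (J.equivFin ⟨v, hv⟩).2
  refine ⟨⟨(J.equivFin ⟨v, hv⟩ : ℕ), by omega⟩, ?_⟩
  simp only [h1, dite_true, Fin.eta, Equiv.symm_apply_apply]

/-- The bijection and the embeddings given by a choice of copies. -/
theorem exists_Phi {V K U : Type} [Fintype V] [Fintype K] [Fintype U] {k m M M1 Q : ℕ}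
    (fac : (V × K) × ZMod k ↪ Fin m) (sup : Fin M1 → Fin (Q + 1) → V)
    (cln : (Fin M1 × (Fin (Q + 1) → K)) ⊕ (V × K) ≃ Fin M)
    (hc : Fintype.card V + Fintype.card U = Fintype.card (V × K)) (z : V → K) :
    ∃ (β : V ⊕ U ≃ V × K) (Φ : (V ⊕ U) × ZMod k ↪ Fin m) (ψ : Fin M1 ⊕ U ↪ Fin M),
      (∀ v, β (Sum.inl v) = (v, z v)) ∧ (∀ x c, Φ (x, c) = fac (β x, c)) ∧
      (∀ t, ψ (Sum.inl t) = cln (Sum.inl (t, fun q => z (sup t q)))) ∧
      ∀ u, ψ (Sum.inr u) = cln (Sum.inr (β (Sum.inr u))) := by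
  obtain ⟨β, hβ⟩ := exists_ext (U := U) (fun v : V => (v, z v))
    (fun v v' h => (Prod.ext_iff.1 h).1) hc
  refine ⟨β, ((Equiv.prodCongr β (Equiv.refl (ZMod k))).toEmbedding).trans fac,
    ⟨Sum.elim (fun t => cln (Sum.inl (t, fun q => z (sup t q))))
      (fun u => cln (Sum.inr (β (Sum.inr u)))), ?_⟩, hβ, fun x c => rfl, fun t => rfl,
    fun u => rfl⟩
  rintro (t | u) (t' | u') h
  · have h1 := Sum.inl_injective (cln.injective h)
    exact congrArg Sum.inl (Prod.ext_iff.1 h1).1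
  · exact absurd (cln.injective h) Sum.inl_ne_inr
  · exact absurd (cln.injective h) Sum.inr_ne_inl
  · have h1 := Sum.inr_injective (β.injective (Sum.inr_injective (cln.injective h)))
    rw [h1]

/-- The solution given by a labeling of the copies. -/
noncomputable def sol {P Ω : Type} [Fintype P] {m : ℕ} (fac : P × Ω ↪ Fin m)
    (g : Equiv.Perm (Fin m)) (X : P → Ω) : Finset (Fin m) :=
  Finset.univ.image (fun p => g (fac (p, X p)))

theorem sol_nonempty {P Ω : Type} [Fintype P] [Nonempty P] {m : ℕ} (fac : P × Ω ↪ Fin m)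
    (g : Equiv.Perm (Fin m)) (X : P → Ω) : (sol fac g X).Nonempty :=
  Finset.Nonempty.image Finset.univ_nonempty _

theorem sol_card {P Ω : Type} [Fintype P] {m : ℕ} (fac : P × Ω ↪ Fin m)
    (g : Equiv.Perm (Fin m)) (X : P → Ω) : (sol fac g X).card ≤ Fintype.card P :=
  Finset.card_image_le

theorem mem_sol {P X' Ω : Type} [Fintype P] {m : ℕ} (fac : P × Ω ↪ Fin m)
    (g : Equiv.Perm (Fin m)) (X : P → Ω) (β : X' ≃ P) (Φ : X' × Ω ↪ Fin m)
    (hΦ : ∀ x c, Φ (x, c) = fac (β x, c)) (x : X') (c : Ω) :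
    (Φ.trans g.toEmbedding) (x, c) ∈ sol fac g X ↔ X (β x) = c := by
  have h0 : (Φ.trans g.toEmbedding) (x, c) = g (fac (β x, c)) := by
    show g (Φ (x, c)) = g (fac (β x, c))
    rw [hΦ]
  rw [h0]
  unfold sol
  rw [Finset.mem_image]
  constructor
  · rintro ⟨q, _, hq⟩
    have h2 := fac.injective (g.injective hq)
    simp only [Prod.mk.injEq] at h2
    rw [← h2.1]
    exact h2.2
  · intro h
    exact ⟨β x, Finset.mem_univ _, by rw [h]⟩

/-- The position in the list `s` at which the labeling meets `A`, if there is one. -/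
noncomputable def pickq {V K Ω : Type} {Q : ℕ} (A : Finset (V × Ω)) (s : Fin (Q + 1) → V)
    (β : Fin (Q + 1) → K) (X : V × K → Ω) : Fin (Q + 1) := by
  classical
  exact if h : ∃ q, (s q, X (s q, β q)) ∈ A then h.choose else 0

theorem pickq_spec {V K Ω : Type} {Q : ℕ} (A : Finset (V × Ω)) (s : Fin (Q + 1) → V)
    (β : Fin (Q + 1) → K) (X : V × K → Ω) (h : ∃ q, (s q, X (s q, β q)) ∈ A) :
    (s (pickq A s β X), X (s (pickq A s β X), β (pickq A s β X))) ∈ A := by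
  have h1 : pickq A s β X = h.choose := by
    unfold pickq
    exact dif_pos h
  rw [h1]
  exact h.choose_spec

/-- The copy that serves a client. -/
noncomputable def own {V K Ω : Type} {M1 Q : ℕ} (near : Fin M1 → Finset (V × Ω))
    (sup : Fin M1 → Fin (Q + 1) → V) (X : V × K → Ω) :
    (Fin M1 × (Fin (Q + 1) → K)) ⊕ (V × K) → V × K :=
  Sum.elim (fun t => (sup t.1 (pickq (near t.1) (sup t.1) t.2 X),
    t.2 (pickq (near t.1) (sup t.1) t.2 X))) id

/-- The facility to which the client `j` is assigned. -/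
noncomputable def asg {V K Ω : Type} {m M1 Q M : ℕ} (fac : (V × K) × Ω ↪ Fin m)
    (near : Fin M1 → Finset (V × Ω)) (sup : Fin M1 → Fin (Q + 1) → V)
    (cln : (Fin M1 × (Fin (Q + 1) → K)) ⊕ (V × K) ≃ Fin M) (g : Equiv.Perm (Fin m))
    (h : Equiv.Perm (Fin M)) (X : V × K → Ω) (j : Fin M) : Fin m :=
  (fun v : V × K => g (fac (v, X v))) (own near sup X (cln.symm (h.symm j)))

theorem asg_mem {V K Ω : Type} [Fintype V] [Fintype K] {m M1 Q M : ℕ} (fac : (V × K) × Ω ↪ Fin m)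
    (near : Fin M1 → Finset (V × Ω)) (sup : Fin M1 → Fin (Q + 1) → V)
    (cln : (Fin M1 × (Fin (Q + 1) → K)) ⊕ (V × K) ≃ Fin M) (g : Equiv.Perm (Fin m))
    (h : Equiv.Perm (Fin M)) (X : V × K → Ω) (j : Fin M) :
    asg fac near sup cln g h X j ∈ sol fac g X :=
  Finset.mem_image_of_mem (fun v : V × K => g (fac (v, X v))) (Finset.mem_univ _)

section
variable {V K U : Type} {k m M M1 Q : ℕ}
  (fac : (V × K) × ZMod k ↪ Fin m) (near : Fin M1 → Finset (V × ZMod k))
  (sup : Fin M1 → Fin (Q + 1) → V) (cln : (Fin M1 × (Fin (Q + 1) → K)) ⊕ (V × K) ≃ Fin M)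
  (z : V → K) (β : V ⊕ U ≃ V × K) (Φ : (V ⊕ U) × ZMod k ↪ Fin m) (ψ : Fin M1 ⊕ U ↪ Fin M)
  (hβ : ∀ v, β (Sum.inl v) = (v, z v)) (hΦ : ∀ x c, Φ (x, c) = fac (β x, c))
  (hψl : ∀ t, ψ (Sum.inl t) = cln (Sum.inl (t, fun q => z (sup t q))))
  (hψr : ∀ u, ψ (Sum.inr u) = cln (Sum.inr (β (Sum.inr u))))
  (g : Equiv.Perm (Fin m)) (h : Equiv.Perm (Fin M)) (X : V × K → ZMod k)

include hΦ in
theorem trans_apply (x : V ⊕ U) (c : ZMod k) :
    (Φ.trans g.toEmbedding) (x, c) = g (fac (β x, c)) := by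
  show g (Φ (x, c)) = g (fac (β x, c))
  rw [hΦ]

include hψl in
theorem asg_inl (t : Fin M1) :
    asg fac near sup cln g h X ((ψ.trans h.toEmbedding) (Sum.inl t)) =
      g (fac ((sup t (pickq (near t) (sup t) (fun q => z (sup t q)) X),
        z (sup t (pickq (near t) (sup t) (fun q => z (sup t q)) X))),
        X (sup t (pickq (near t) (sup t) (fun q => z (sup t q)) X),
        z (sup t (pickq (near t) (sup t) (fun q => z (sup t q)) X))))) := by
  have h3 : cln.symm (h.symm ((ψ.trans h.toEmbedding) (Sum.inl t))) =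
      Sum.inl (t, fun q => z (sup t q)) := by
    show cln.symm (h.symm (h (ψ (Sum.inl t)))) = _
    rw [Equiv.symm_apply_apply, hψl, Equiv.symm_apply_apply]
  unfold asg
  rw [h3]
  rfl

include hψr in
theorem asg_inr (u : U) :
    asg fac near sup cln g h X ((ψ.trans h.toEmbedding) (Sum.inr u)) =
      g (fac (β (Sum.inr u), X (β (Sum.inr u)))) := by
  have h3 : cln.symm (h.symm ((ψ.trans h.toEmbedding) (Sum.inr u))) =
      Sum.inr (β (Sum.inr u)) := by
    show cln.symm (h.symm (h (ψ (Sum.inr u)))) = _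
    rw [Equiv.symm_apply_apply, hψr, Equiv.symm_apply_apply]
  unfold asg
  rw [h3]
  rfl

include hβ hΦ hψl hψr in
theorem nearest_sol [Fintype V] [Fintype K] [Fintype U] (hsup : ∀ t, ∀ p ∈ near t, ∃ q, sup t q = p.1) (τ H : ℝ) (hτ : 0 < τ)
    (hτH : τ ≤ H) (hH : 3 ≤ H) :
    (instK (Φ.trans g.toEmbedding) (ψ.trans h.toEmbedding) near τ H hτ hτH hH).Nearest
      (sol fac g X) (asg fac near sup cln g h X) := by
  refine nearest_instK _ _ near τ H hτ hτH hH _ _
    (fun j => asg_mem fac near sup cln g h X j) (fun u => ?_) (fun t => ?_) (fun t ht => ?_)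
  · refine ⟨X (β (Sum.inr u)), ?_⟩
    rw [asg_inr fac near sup cln β ψ hψr g h X u, trans_apply fac β Φ hΦ g]
  · refine ⟨(sup t (pickq (near t) (sup t) (fun q => z (sup t q)) X),
      X (sup t (pickq (near t) (sup t) (fun q => z (sup t q)) X),
        z (sup t (pickq (near t) (sup t) (fun q => z (sup t q)) X)))), ?_⟩
    rw [asg_inl fac near sup cln z ψ hψl g h X t, trans_apply fac β Φ hΦ g, hβ]
  · obtain ⟨p, hp, hpS⟩ := ht
    rw [mem_sol fac g X β Φ hΦ, hβ] at hpS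
    obtain ⟨q, hq⟩ := hsup t p hp
    have h1 : ∃ q, (sup t q, X (sup t q, (fun q => z (sup t q)) q)) ∈ near t := by
      refine ⟨q, ?_⟩
      dsimp only
      rw [hq, hpS]
      exact hp
    have h2 := pickq_spec (near t) (sup t) (fun q => z (sup t q)) X h1
    refine ⟨_, h2, ?_⟩
    rw [asg_inl fac near sup cln z ψ hψl g h X t, trans_apply fac β Φ hΦ g, hβ]

include hβ hΦ in
theorem cost_sol [Fintype V] [Fintype K] [Fintype U] [Nonempty V] [NeZero k] [NeZero M1] (τ H : ℝ) (hτ : 0 < τ)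
    (hτH : τ ≤ H) (hH : 3 ≤ H) (ψ' : Fin M1 ⊕ U ↪ Fin M) :
    (instK (Φ.trans g.toEmbedding) ψ' near τ H hτ hτH hH).cost (sol fac g X) =
      (M1 : ℝ) * (3 - 2 * cov near (fun v => X (v, z v))) + Fintype.card U * τ := by
  classical
  let A : Finset (V × ZMod k) := Finset.univ.filter (fun p => X (p.1, z p.1) = p.2)
  have hA : ∀ p, p ∈ A ↔ (Φ.trans g.toEmbedding) (Sum.inl p.1, p.2) ∈ sol fac g X := by
    intro p
    rw [mem_sol fac g X β Φ hΦ, hβ]
    simp [A]
  have hA0 : A.Nonempty := by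
    obtain ⟨v⟩ := (inferInstance : Nonempty V)
    exact ⟨(v, X (v, z v)), by simp [A]⟩
  have hU : ∀ u : U, ∃ c, (Φ.trans g.toEmbedding) (Sum.inr u, c) ∈ sol fac g X := by
    intro u
    exact ⟨X (β (Sum.inr u)), (mem_sol fac g X β Φ hΦ _ _).2 rfl⟩
  rw [cost_instK (Φ.trans g.toEmbedding) ψ' near τ H hτ hτH hH (sol fac g X) A hA hA0 hU]
  have : Nonempty (Fin M1) := ⟨0⟩
  rw [unc_graph near (fun v => X (v, z v)) A (by intro p; simp [A])]
  rw [Fintype.card_fin]
  ring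

end

/-- The lower bound for the minimum. -/
theorem opt_ge {V U : Type} [Fintype V] [Fintype U] [Nonempty V] {k m M M1 : ℕ}
    [NeZero k]
    (Φ : (V ⊕ U) × ZMod k ↪ Fin m) (ψ : Fin M1 ⊕ U ↪ Fin M)
    (near : Fin M1 → Finset (V × ZMod k)) (τ H : ℝ) (hτ : 0 < τ) (hτH : τ ≤ H) (hH : 3 ≤ H)
    (hH1 : 3 * (M1 : ℝ) ≤ H) (ε : ℝ) (hε : 0 < ε)
    (hunc : ∀ A : Finset (V × ZMod k),
        Real.exp (-((A.card : ℝ) / Fintype.card V)) - ε ≤ unc near A)
    (kk : ℕ) (hkk : kk = Fintype.card V + Fintype.card U)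
    (hne : Nonempty {S : Finset (Fin m) // S.Nonempty ∧ S.card ≤ kk}) :
    (M1 : ℝ) * (1 + 2 * (Real.exp (-1) - ε)) ≤
      (instK Φ ψ near τ H hτ hτH hH).opt (fun S => S.Nonempty ∧ S.card ≤ kk) := by
  classical
  unfold Inst.opt
  refine le_ciInf ?_
  rintro ⟨S, hS0, hSk⟩
  have hM0 : (0 : ℝ) ≤ M1 := Nat.cast_nonneg M1
  have hexp : Real.exp (-1) ≤ 1 := by
    rw [← Real.exp_zero]
    exact Real.exp_le_exp.2 (by norm_num)
  rcases lower_instK Φ ψ near τ H hτ hτH hH S hS0 (by rw [← hkk]; exact hSk)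
    (Finset.univ.filter (fun p : V × ZMod k => Φ (Sum.inl p.1, p.2) ∈ S)) (by intro p; simp)
    with h | ⟨h1, h2⟩
  · refine le_trans ?_ h
    refine le_trans ?_ hH1
    have : 1 + 2 * (Real.exp (-1) - ε) ≤ 3 := by linarith
    nlinarith
  · refine le_trans ?_ h2
    rw [Fintype.card_fin]
    apply mul_le_mul_of_nonneg_left _ hM0
    have h3 := hunc (Finset.univ.filter (fun p : V × ZMod k => Φ (Sum.inl p.1, p.2) ∈ S))
    have hV : (0 : ℝ) < Fintype.card V := by exact_mod_cast Fintype.card_pos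
    have h4 : Real.exp (-1) ≤ Real.exp (-(((Finset.univ.filter (fun p : V × ZMod k =>
        Φ (Sum.inl p.1, p.2) ∈ S)).card : ℝ) / Fintype.card V)) := by
      apply Real.exp_le_exp.2
      apply neg_le_neg
      rw [div_le_one hV]
      exact_mod_cast h1
    linarith

end KL2Aux

open KL2Aux

theorem kLow (α : ℝ) (hα1 : 1 ≤ α) (hα : α < 1 + 2 / Real.exp 1) :
    ∃ (Q : ℕ) (a : ℝ), 0 < a ∧ ∃ m0 : ℕ, ∀ m ≥ m0, ∃ (M k : ℕ) (I : Inst m M), M ≤ m ^ Q ∧
      1 ≤ k ∧ k ≤ m ∧ I.clients.card ≤ m ∧ (∀ i, I.opening i = 0) ∧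
      ∀ (Y : Type) [AddCommGroup Y] [Module ℝ Y] (R d : ℕ)
        (A : Fin R → Y →ₗ[ℝ] (Fin d → ℝ)) (C : Fin R → Set (Fin d → ℝ))
        (pt : Finset (Fin m) → (Fin M → Fin m) → Y),
        (R : ℝ) ≤ Real.exp ((m : ℝ) ^ a) → (d : ℝ) ≤ (m : ℝ) ^ a → (∀ i, Convex ℝ (C i)) →
        (∀ S σ, S.Nonempty → S.card ≤ k → (∀ j, σ j ∈ S) → ∀ i, A i (pt S σ) ∈ C i) →
        (Nat.card {g : Equiv.Perm (Fin m) × Equiv.Perm (Fin M) //
          (I.rename g.1 g.2).ApproxBy {y | ∀ i, A i y ∈ C i} pt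
            (fun S => S.Nonempty ∧ S.card ≤ k) α} : ℝ) ≤
          Real.exp (-(m : ℝ) ^ a) * (m.factorial * M.factorial) := by
  classical
  have hα0 : 0 < α := by linarith
  have he2 : (2 : ℝ) < Real.exp 1 := by
    have := Real.exp_one_gt_d9
    linarith
  have he0 : 0 < Real.exp 1 := Real.exp_pos 1
  have hexp1 : Real.exp (-1) = 1 / Real.exp 1 := by rw [Real.exp_neg, one_div]
  obtain ⟨ξ, hξ⟩ : ∃ ξ : ℝ, ξ = ((1 + 2 / Real.exp 1) / α - 1) / 3 := ⟨_, rfl⟩
  have hξ0 : 0 < ξ := by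
    rw [hξ]
    have : 1 < (1 + 2 / Real.exp 1) / α := by
      rw [one_lt_div hα0]
      exact hα
    linarith
  have hξ1 : ξ < 1 / 3 := by
    rw [hξ]
    have h1 : (1 + 2 / Real.exp 1) / α ≤ 1 + 2 / Real.exp 1 := div_le_self (by positivity) hα1
    have h2 : 2 / Real.exp 1 < 1 := by
      rw [div_lt_one he0]
      exact he2
    linarith
  obtain ⟨s, hs⟩ : ∃ s : ℝ, s = 1 - ξ / 2 := ⟨_, rfl⟩
  have hs0 : 0 < s := by linarith
  have hs1 : s < 1 := by linarith
  have hsq : Real.sqrt s < 1 := by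
    rw [Real.sqrt_lt' one_pos]
    linarith
  obtain ⟨ε, hε⟩ : ∃ ε : ℝ, ε = min (α * ξ / 2) ((1 - Real.sqrt s) / 2) := ⟨_, rfl⟩
  have hε0 : 0 < ε := by
    rw [hε]
    apply lt_min
    · positivity
    · linarith
  have hε1 : ε ≤ α * ξ / 2 := by
    rw [hε]
    exact min_le_left _ _
  have hε2 : ε ≤ (1 - Real.sqrt s) / 2 := by
    rw [hε]
    exact min_le_right _ _
  obtain ⟨k, Q, C0, e, hk2, hC1, he, he4, n0, hbase⟩ := baseC ε hε0
  have hkz : NeZero k := ⟨by omega⟩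
  obtain ⟨a, ha, m0, hlift⟩ := liftC k C0 Q n0 hC1 s (1 - ε) e hs0 hs1 (by linarith) he he4
  refine ⟨Q + 3, a, ha, m0, fun m hm => ?_⟩
  obtain ⟨n, hn0, hn1, hnm, hcert⟩ := hlift m hm
  obtain ⟨V, iV, M1, near, r, E, hVne, hM0, hM1, hVc, hQ, hr, hE, hcov, hunc⟩ := hbase n hn0
  have hMz : NeZero M1 := ⟨by omega⟩
  have hVpos : 0 < Fintype.card V := Fintype.card_pos
  have hn5 : 1 ≤ n ^ 5 := Nat.one_le_pow _ _ hn1
  have hle : Fintype.card V ≤ Fintype.card V * n ^ 5 := Nat.le_mul_of_pos_right _ hn5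
  obtain ⟨cU, hcU⟩ : ∃ cU : ℕ, cU = Fintype.card V * n ^ 5 - Fintype.card V := ⟨_, rfl⟩
  have hcU' : Fintype.card V + cU = Fintype.card V * n ^ 5 := by omega
  have hcardU : Fintype.card V + Fintype.card (Fin cU) = Fintype.card (V × Fin (n ^ 5)) := by
    rw [Fintype.card_fin, Fintype.card_prod, Fintype.card_fin, hcU']
  have hVn : Fintype.card V * n ^ 5 ≤ C0 * n * n ^ 5 := Nat.mul_le_mul_right _ hVc
  have hCn : C0 * n ≤ C0 * n * n ^ 5 := Nat.le_mul_of_pos_right _ hn5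
  have h2k : 2 * (C0 * n * n ^ 5) ≤ C0 * n * n ^ 5 * k := by
    rw [mul_comm 2]
    exact Nat.mul_le_mul_left _ hk2
  have hMm : M1 + cU ≤ m := by omega
  have hM1m : M1 ≤ m := by omega
  have hkm : Fintype.card V * n ^ 5 ≤ m := by omega
  have hk1 : 1 ≤ Fintype.card V * n ^ 5 := by omega
  have hm2 : 2 ≤ m := by omega
  have hn5m : n ^ 5 ≤ m := le_trans (Nat.le_mul_of_pos_left _ hVpos) hkm
  have hfac : Nonempty ((V × Fin (n ^ 5)) × ZMod k ↪ Fin m) := by
    apply Function.Embedding.nonempty_of_card_le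
    rw [Fintype.card_prod, Fintype.card_prod, Fintype.card_fin, Fintype.card_fin, ZMod.card]
    exact le_trans (Nat.mul_le_mul_right _ hVn) hnm
  obtain ⟨fac⟩ := hfac
  have hsupE : ∀ t : Fin M1, ∃ f : Fin (Q + 1) → V, ∀ p ∈ near t, ∃ q, f q = p.1 := by
    intro t
    obtain ⟨f, hf⟩ := exists_sup ((near t).image Prod.fst) Q
      (Finset.card_image_le.trans (hQ t))
    exact ⟨f, fun p hp => hf p.1 (Finset.mem_image_of_mem _ hp)⟩
  choose sup hsup using hsupE
  obtain ⟨M, hMdef⟩ : ∃ M, M = Fintype.card ((Fin M1 × (Fin (Q + 1) → Fin (n ^ 5))) ⊕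
    (V × Fin (n ^ 5))) := ⟨_, rfl⟩
  have cln : (Fin M1 × (Fin (Q + 1) → Fin (n ^ 5))) ⊕ (V × Fin (n ^ 5)) ≃ Fin M :=
    Fintype.equivFinOfCardEq hMdef.symm
  have hMle : M ≤ m ^ (Q + 3) := by
    rw [hMdef, Fintype.card_sum, Fintype.card_prod, Fintype.card_prod, Fintype.card_fin,
      Fintype.card_fun, Fintype.card_fin, Fintype.card_fin]
    have g1 : M1 * (n ^ 5) ^ (Q + 1) ≤ m ^ (Q + 2) := by
      rw [pow_succ m (Q + 1), mul_comm (m ^ (Q + 1))]
      exact Nat.mul_le_mul hM1m (Nat.pow_le_pow_left hn5m _)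
    have g2 : m ≤ m ^ (Q + 2) := Nat.le_self_pow (by omega) m
    have g3 : 2 * m ^ (Q + 2) ≤ m ^ (Q + 3) := by
      rw [pow_succ m (Q + 2), mul_comm]
      exact Nat.mul_le_mul_left _ hm2
    omega
  choose β Φ ψ hβ hΦ hψl hψr using fun z : V → Fin (n ^ 5) =>
    exists_Phi (U := Fin cU) fac sup cln hcardU z
  let z0 : V → Fin (n ^ 5) := fun _ => ⟨0, hn5⟩
  have hM1r : (0 : ℝ) < M1 := by exact_mod_cast hM0
  have hcU0 : (0 : ℝ) ≤ cU := Nat.cast_nonneg cU
  obtain ⟨τ, hτe⟩ : ∃ τ : ℝ, τ = ξ * M1 / (cU + 1) := ⟨_, rfl⟩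
  have hτ : 0 < τ := by
    rw [hτe]
    positivity
  have hτ1 : τ ≤ ξ * M1 := by
    rw [hτe]
    exact div_le_self (by positivity) (by linarith)
  have hτ2 : cU * τ ≤ ξ * M1 := by
    have h1 : (cU + 1) * τ = ξ * M1 := by
      rw [hτe]
      field_simp
    linarith
  obtain ⟨H, hHe⟩ : ∃ H : ℝ, H = 3 * (M1 : ℝ) + 3 := ⟨_, rfl⟩
  have hτH : τ ≤ H := by nlinarith
  have hH : 3 ≤ H := by linarith
  have hH1 : 3 * (M1 : ℝ) ≤ H := by linarith
  refine ⟨M, Fintype.card V * n ^ 5, instK (Φ z0) (ψ z0) near τ H hτ hτH hH, hMle, hk1, hkm, ?_,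
    fun i => rfl, ?_⟩
  · rw [clients_instK, Fintype.card_fin, Fintype.card_fin]
    exact hMm
  intro Y _ _ R d A C pt hR hd hconv hpt
  have hGc : (Fintype.card (Equiv.Perm (Fin m) × Equiv.Perm (Fin M)) : ℝ) =
      (m.factorial : ℝ) * (M.factorial : ℝ) := by
    rw [Fintype.card_prod, Fintype.card_perm, Fintype.card_perm, Fintype.card_fin,
      Fintype.card_fin]
    push_cast
    rfl
  have hP : ∀ z : V → Fin (n ^ 5), ∃ h : Equiv.Perm (Fin m) × Equiv.Perm (Fin M),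
      ∀ g : Equiv.Perm (Fin m) × Equiv.Perm (Fin M),
      (((instK (Φ z) (ψ z) near τ H hτ hτH hH).rename g.1 g.2).ApproxBy
        {y | ∀ j, A j y ∈ C j} pt
        (fun S => S.Nonempty ∧ S.card ≤ Fintype.card V * n ^ 5) α) ↔
      (((instK (Φ z0) (ψ z0) near τ H hτ hτH hH).rename (g * h).1 (g * h).2).ApproxBy
        {y | ∀ j, A j y ∈ C j} pt
        (fun S => S.Nonempty ∧ S.card ≤ Fintype.card V * n ^ 5) α) := by
    intro z
    obtain ⟨h, h', hh⟩ := exists_renameK (Φ z0) (Φ z) (ψ z0) (ψ z) near τ H hτ hτH hH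
    refine ⟨(h, h'), fun g => ?_⟩
    rw [hh, rename_rename]
    rfl
  have hmain : ∀ g : Equiv.Perm (Fin m) × Equiv.Perm (Fin M),
      (Nat.card {z : V → Fin (n ^ 5) //
      ((instK (Φ z) (ψ z) near τ H hτ hτH hH).rename g.1 g.2).ApproxBy
        {y | ∀ j, A j y ∈ C j} pt
        (fun S => S.Nonempty ∧ S.card ≤ Fintype.card V * n ^ 5) α} : ℝ) ≤
      Real.exp (-(m : ℝ) ^ a) * Fintype.card (V → Fin (n ^ 5)) := by
    intro g
    have : Nonempty (V × Fin (n ^ 5)) := by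
      obtain ⟨v⟩ := hVne
      exact ⟨(v, ⟨0, hn5⟩)⟩
    have hSc : ∀ X : V × Fin (n ^ 5) → ZMod k,
        (sol fac g.1 X).card ≤ Fintype.card V * n ^ 5 := by
      intro X
      refine le_trans (sol_card fac g.1 X) ?_
      rw [Fintype.card_prod, Fintype.card_fin]
    have hcn : ∀ y, 0 ≤ cov near y := by
      intro y
      unfold cov
      apply Pool.Agent.Lib.P325P.mean_nonneg
      intro j
      split_ifs <;> norm_num
    have h1 := hcert V hVc (cov near) hcn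
      (fun T hT y => es_cov near Q hQ T hT y) r E hE hr hcov Y R d A C
      (fun X => pt (sol fac g.1 X) (asg fac near sup cln g.1 g.2 X)) hR hd
      hconv (fun X j => hpt _ _ (sol_nonempty fac g.1 X) (hSc X)
        (fun i => asg_mem fac near sup cln g.1 g.2 X i) j)
    refine le_trans ?_ h1
    have h2 : ∀ z : V → Fin (n ^ 5),
        ((instK (Φ z) (ψ z) near τ H hτ hτH hH).rename g.1 g.2).ApproxBy
        {y | ∀ j, A j y ∈ C j} pt
        (fun S => S.Nonempty ∧ S.card ≤ Fintype.card V * n ^ 5) α →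
        Cert {y | ∀ j, A j y ∈ C j}
          (fun X => pt (sol fac g.1 X) (asg fac near sup cln g.1 g.2 X))
          (fun X => cov near (fun i => X (i, z i))) s := by
      rintro z ⟨w, w0, hw, hopt⟩
      rw [rename_instK] at hw hopt
      have hserv : ∀ X : V × Fin (n ^ 5) → ZMod k,
          w (pt (sol fac g.1 X) (asg fac near sup cln g.1 g.2 X)) + w0 =
          (M1 : ℝ) * (3 - 2 * cov near (fun v => X (v, z v))) + cU * τ := by
        intro X
        rw [hw (sol fac g.1 X) (asg fac near sup cln g.1 g.2 X) ⟨sol_nonempty fac g.1 X, hSc X⟩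
          (nearest_sol fac near sup cln z (β z) (Φ z) (ψ z) (hβ z) (hΦ z) (hψl z) (hψr z) g.1 g.2 X
            hsup τ H hτ hτH hH),
          cost_sol fac near z (β z) (Φ z) (hβ z) (hΦ z) g.1 X τ H hτ hτH hH, Fintype.card_fin]
      have hmed : (M1 : ℝ) * (1 + 2 * (Real.exp (-1) - ε)) ≤
          (instK ((Φ z).trans g.1.toEmbedding) ((ψ z).trans g.2.toEmbedding) near τ H hτ hτH
            hH).opt (fun S => S.Nonempty ∧ S.card ≤ Fintype.card V * n ^ 5) := by
        apply opt_ge ((Φ z).trans g.1.toEmbedding) ((ψ z).trans g.2.toEmbedding) near τ H hτ hτH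
          hH hH1 ε hε0 hunc
        · rw [Fintype.card_fin, hcU']
        · exact ⟨⟨sol fac g.1 (fun _ => 0), sol_nonempty fac g.1 _, hSc _⟩⟩
      have hlow : ∀ y ∈ {y | ∀ j, A j y ∈ C j}, (M1 : ℝ) * (1 + 2 * ξ) ≤ w y + w0 := by
        intro y hy
        refine le_trans ?_ (hopt y hy)
        rw [le_div_iff₀ hα0]
        refine le_trans ?_ hmed
        rw [mul_assoc]
        apply mul_le_mul_of_nonneg_left _ hM1r.le
        have h3 : (1 + 2 / Real.exp 1) = α * (1 + 3 * ξ) := by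
          rw [hξ]
          field_simp
          ring
        have h4 : 1 + 2 * (Real.exp (-1) - ε) = α * (1 + 3 * ξ) - 2 * ε := by
          rw [← h3, hexp1]
          ring
        rw [h4]
        nlinarith
      refine ⟨(-(1 / (2 * (M1 : ℝ)))) • w, (3 + cU * τ / M1 - w0 / M1) / 2, ?_, ?_⟩
      · intro X
        have h3 := hserv X
        have h4 : w (pt (sol fac g.1 X) (asg fac near sup cln g.1 g.2 X)) =
          (M1 : ℝ) * (3 - 2 * cov near (fun v => X (v, z v))) + cU * τ - w0 := by linarith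
        rw [LinearMap.smul_apply, smul_eq_mul, h4]
        field_simp
        ring
      · intro y hy
        have h3 := hlow y hy
        rw [LinearMap.smul_apply, smul_eq_mul, hs]
        have h5 : -(1 / (2 * (M1 : ℝ))) * w y + (3 + cU * τ / M1 - w0 / M1) / 2 =
            (3 * M1 + cU * τ - (w y + w0)) / (2 * M1) := by
          field_simp
          ring
        rw [h5, div_le_iff₀ (by positivity)]
        nlinarith
    have h3 : Nat.card {z : V → Fin (n ^ 5) //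
        ((instK (Φ z) (ψ z) near τ H hτ hτH hH).rename g.1 g.2).ApproxBy
        {y | ∀ j, A j y ∈ C j} pt
        (fun S => S.Nonempty ∧ S.card ≤ Fintype.card V * n ^ 5) α} ≤
        Nat.card {z : V → Fin (n ^ 5) // Cert {y | ∀ j, A j y ∈ C j}
          (fun X => pt (sol fac g.1 X) (asg fac near sup cln g.1 g.2 X))
          (fun X => cov near (fun i => X (i, z i))) s} := by
      apply Nat.card_le_card_of_injective (fun z => ⟨z.1, h2 z.1 z.2⟩)
      intro z z' h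
      exact Subtype.ext (congrArg (fun u => u.1) h)
    exact_mod_cast h3
  have hZne : Nonempty (V → Fin (n ^ 5)) := ⟨z0⟩
  have key := Pool.Agent.Lib.P325av.dbl (G := Equiv.Perm (Fin m) × Equiv.Perm (Fin M))
    (Zt := V → Fin (n ^ 5)) _
    (fun g => ((instK (Φ z0) (ψ z0) near τ H hτ hτH hH).rename g.1 g.2).ApproxBy
        {y | ∀ j, A j y ∈ C j} pt
        (fun S => S.Nonempty ∧ S.card ≤ Fintype.card V * n ^ 5) α) hP
    (Real.exp (-(m : ℝ) ^ a)) hmain
  rw [hGc] at key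
  exact key

end Pool.Agent.Lib.P47c
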